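import Pool.Agent.TH993.SP.Defs

set_option autoImplicit false

open MeasureTheory Set Real
open Pool.Agent.TH993.SP

namespace Pool.Agent.TH491.SPSQ

lemma Ns_cont : Continuous Ns := by
  unfold Ns
  exact (continuous_fst.abs).max (continuous_snd.abs)

lemma uv_cont : Continuous uv := by
  unfold uv
  exact Real.continuous_cos.prodMk Real.continuous_sin

lemma Ns_uv_pos (θ : ℝ) : 0 < Ns (uv θ) := by
  have h := Real.sin_sq_add_cos_sq θ
  unfold Ns uv
  simp only
  by_contra hcon
  push Not at hcon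
  have h1 : |Real.cos θ| ≤ 0 := le_trans (le_max_left _ _) hcon
  have h2 : |Real.sin θ| ≤ 0 := le_trans (le_max_right _ _) hcon
  have h3 : Real.cos θ = 0 := abs_nonpos_iff.mp h1
  have h4 : Real.sin θ = 0 := abs_nonpos_iff.mp h2
  rw [h3, h4] at h
  norm_num at h

lemma pt_cont : Continuous (pt Ns) := by
  unfold pt
  exact ((Ns_cont.comp uv_cont).inv₀ (fun θ => (Ns_uv_pos θ).ne')).smul uv_cont

lemma rd_cont : Continuous (rd Ns) := by
  unfold rd
  exact ((Ns_cont.comp uv_cont).pow 2).inv₀ (fun θ => (pow_pos (Ns_uv_pos θ) 2).ne')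

lemma sin_le_cos_aux (x : ℝ) (h1 : 0 ≤ x) (h2 : x ≤ π / 4) : Real.sin x ≤ Real.cos x := by
  have hpi := Real.pi_pos
  rw [← Real.sin_pi_div_two_sub]
  apply Real.sin_le_sin_of_le_of_le_pi_div_two <;> linarith

lemma abs_sin_le (x : ℝ) (hx : x ∈ Icc (-(π / 4)) (π / 4)) : |Real.sin x| ≤ Real.cos x := by
  obtain ⟨h1, h2⟩ := hx
  have hpi := Real.pi_pos
  rcases le_total 0 x with h | h
  · rw [abs_of_nonneg (Real.sin_nonneg_of_nonneg_of_le_pi h (by linarith))]
    exact sin_le_cos_aux x h h2
  · rw [abs_of_nonpos (Real.sin_nonpos_of_nonpos_of_neg_pi_le h (by linarith)), ← Real.sin_neg,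
      ← Real.cos_neg]
    exact sin_le_cos_aux (-x) (by linarith) (by linarith)

lemma add4 (a b : ℝ) (f0 f1 f2 f3 : ℝ → ℝ) (c0 : Continuous f0) (c1 : Continuous f1)
    (c2 : Continuous f2) (c3 : Continuous f3) :
    ∫ s in a..b, (f0 s + f1 s + f2 s + f3 s) =
      (∫ s in a..b, f0 s) + (∫ s in a..b, f1 s) + (∫ s in a..b, f2 s) + (∫ s in a..b, f3 s) := by
  have h1 := intervalIntegral.integral_add (μ := volume)
    (((c0.add c1).add c2).intervalIntegrable a b) (c3.intervalIntegrable a b)
  have h2 := intervalIntegral.integral_add (μ := volume)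
    ((c0.add c1).intervalIntegrable a b) (c2.intervalIntegrable a b)
  have h3 := intervalIntegral.integral_add (μ := volume)
    (c0.intervalIntegrable a b) (c1.intervalIntegrable a b)
  simp only [Pi.add_apply] at h1 h2
  rw [h1, h2, h3]

lemma cos_pos' (x : ℝ) (hx : x ∈ Icc (-(π / 4)) (π / 4)) : 0 < Real.cos x := by
  have hpi := Real.pi_pos
  apply Real.cos_pos_of_mem_Ioo
  constructor
  · linarith [hx.1]
  · linarith [hx.2]

/-- the four sides -/
lemma piece (G : ℝ → ℝ) (hG : Continuous G) :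
    ∫ x in (-(π / 4))..(π / 4), G (Real.tan x) * (1 / Real.cos x ^ 2) = ∫ s in (-1 : ℝ)..1, G s := by
  have hpi := Real.pi_pos
  have hle : -(π / 4) ≤ π / 4 := by linarith
  have h := intervalIntegral.integral_comp_mul_deriv (a := -(π / 4)) (b := π / 4)
    (f := Real.tan) (f' := fun x => 1 / Real.cos x ^ 2) (g := G) ?_ ?_ hG
  · simp only [Function.comp_def] at h
    rw [h]
    rw [Real.tan_neg, Real.tan_pi_div_four]
  · intro x hx
    rw [uIcc_of_le hle] at hx
    exact Real.hasDerivAt_tan (cos_pos' x hx).ne'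
  · rw [uIcc_of_le hle]
    apply ContinuousOn.div continuousOn_const
    · exact (Real.continuous_cos.pow 2).continuousOn
    · intro x hx
      exact (pow_pos (cos_pos' x hx) 2).ne'

lemma sides (F : ℝ × ℝ → ℝ) (hF : Continuous F) :
    ∫ θ in (-π)..π, F (pt Ns θ) * rd Ns θ =
      ∫ s in (-1 : ℝ)..1, (F (1, s) + F (-s, 1) + F (-1, -s) + F (s, -1)) := by
  have hpi := Real.pi_pos
  set g : ℝ → ℝ := fun θ => F (pt Ns θ) * rd Ns θ with hg
  have hgc : Continuous g := (hF.comp pt_cont).mul rd_cont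
  have hper : Function.Periodic g (2 * π) := by
    intro θ
    simp only [hg, pt, rd, uv, Real.cos_add_two_pi, Real.sin_add_two_pi]
  have e0 : ∫ θ in (-π)..π, g θ = ∫ θ in (-(π / 4))..(-(π / 4) + 2 * π), g θ := by
    have := hper.intervalIntegral_add_eq (-π) (-(π / 4))
    rw [← this]
    congr 1
    ring
  have hii : ∀ a b : ℝ, IntervalIntegrable g volume a b := fun a b => hgc.intervalIntegrable a b
  have e1 : ∫ θ in (-(π / 4))..(-(π / 4) + 2 * π), g θ =
      (∫ θ in (-(π / 4))..(π / 4), g θ) + (∫ θ in (-(π / 4))..(π / 4), g (θ + π / 2)) +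
      (∫ θ in (-(π / 4))..(π / 4), g (θ + π)) + (∫ θ in (-(π / 4))..(π / 4), g (θ + 3 * π / 2)) := by
    rw [intervalIntegral.integral_comp_add_right, intervalIntegral.integral_comp_add_right,
      intervalIntegral.integral_comp_add_right]
    rw [show -(π / 4) + π / 2 = π / 4 by ring, show -(π / 4) + π = π / 4 + π / 2 by ring,
      show -(π / 4) + 3 * π / 2 = π / 4 + π by ring,
      show -(π / 4) + 2 * π = π / 4 + 3 * π / 2 by ring]
    rw [intervalIntegral.integral_add_adjacent_intervals (hii _ _) (hii _ _),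
      intervalIntegral.integral_add_adjacent_intervals (hii _ _) (hii _ _),
      intervalIntegral.integral_add_adjacent_intervals (hii _ _) (hii _ _)]
  have hle : -(π / 4) ≤ π / 4 := by linarith
  have p0 : ∫ θ in (-(π / 4))..(π / 4), g θ = ∫ s in (-1 : ℝ)..1, F (1, s) := by
    rw [← piece (fun s => F (1, s)) (hF.comp (by fun_prop))]
    apply intervalIntegral.integral_congr
    intro x hx
    rw [uIcc_of_le hle] at hx
    have hc := cos_pos' x hx
    have hs := abs_sin_le x hx
    have hN : Ns (uv x) = Real.cos x := by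
      simp only [Ns, uv]
      rw [abs_of_pos hc]
      exact max_eq_left hs
    simp only [hg, pt, rd, hN]
    congr 1
    · congr 1
      simp only [uv, Prod.smul_mk, smul_eq_mul, Prod.mk.injEq]
      refine ⟨inv_mul_cancel₀ hc.ne', ?_⟩
      rw [Real.tan_eq_sin_div_cos]; ring
    · rw [one_div]
  have p1 : ∫ θ in (-(π / 4))..(π / 4), g (θ + π / 2) = ∫ s in (-1 : ℝ)..1, F (-s, 1) := by
    rw [← piece (fun s => F (-s, 1)) (hF.comp (by fun_prop))]
    apply intervalIntegral.integral_congr
    intro x hx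
    rw [uIcc_of_le hle] at hx
    have hc := cos_pos' x hx
    have hs := abs_sin_le x hx
    have hN : Ns (uv (x + π / 2)) = Real.cos x := by
      simp only [Ns, uv, Real.cos_add_pi_div_two, Real.sin_add_pi_div_two, abs_neg]
      rw [abs_of_pos hc]
      exact max_eq_right hs
    simp only [hg, pt, rd, hN]
    congr 1
    · congr 1
      simp only [uv, Prod.smul_mk, smul_eq_mul, Prod.mk.injEq, Real.cos_add_pi_div_two,
        Real.sin_add_pi_div_two]
      refine ⟨?_, inv_mul_cancel₀ hc.ne'⟩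
      rw [Real.tan_eq_sin_div_cos]; ring
    · rw [one_div]
  have p2 : ∫ θ in (-(π / 4))..(π / 4), g (θ + π) = ∫ s in (-1 : ℝ)..1, F (-1, -s) := by
    rw [← piece (fun s => F (-1, -s)) (hF.comp (by fun_prop))]
    apply intervalIntegral.integral_congr
    intro x hx
    rw [uIcc_of_le hle] at hx
    have hc := cos_pos' x hx
    have hs := abs_sin_le x hx
    have hN : Ns (uv (x + π)) = Real.cos x := by
      simp only [Ns, uv, Real.cos_add_pi, Real.sin_add_pi, abs_neg]
      rw [abs_of_pos hc]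
      exact max_eq_left hs
    simp only [hg, pt, rd, hN]
    congr 1
    · congr 1
      simp only [uv, Prod.smul_mk, smul_eq_mul, Prod.mk.injEq, Real.cos_add_pi,
        Real.sin_add_pi]
      refine ⟨?_, ?_⟩
      · rw [mul_neg, inv_mul_cancel₀ hc.ne']
      · rw [Real.tan_eq_sin_div_cos]; ring
    · rw [one_div]
  have p3 : ∫ θ in (-(π / 4))..(π / 4), g (θ + 3 * π / 2) = ∫ s in (-1 : ℝ)..1, F (s, -1) := by
    rw [← piece (fun s => F (s, -1)) (hF.comp (by fun_prop))]
    apply intervalIntegral.integral_congr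
    intro x hx
    rw [uIcc_of_le hle] at hx
    have hc := cos_pos' x hx
    have hs := abs_sin_le x hx
    have hcos : Real.cos (x + 3 * π / 2) = Real.sin x := by
      rw [show x + 3 * π / 2 = (x + π / 2) + π by ring, Real.cos_add_pi, Real.cos_add_pi_div_two]
      ring
    have hsin : Real.sin (x + 3 * π / 2) = - Real.cos x := by
      rw [show x + 3 * π / 2 = (x + π / 2) + π by ring, Real.sin_add_pi, Real.sin_add_pi_div_two]
    have hN : Ns (uv (x + 3 * π / 2)) = Real.cos x := by
      simp only [Ns, uv, hcos, hsin, abs_neg]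
      rw [abs_of_pos hc]
      exact max_eq_right hs
    simp only [hg, pt, rd, hN]
    congr 1
    · congr 1
      simp only [uv, Prod.smul_mk, smul_eq_mul, Prod.mk.injEq, hcos, hsin]
      refine ⟨?_, ?_⟩
      · rw [Real.tan_eq_sin_div_cos]; ring
      · rw [mul_neg, inv_mul_cancel₀ hc.ne']
    · rw [one_div]
  have c0 : Continuous (fun s : ℝ => F (1, s)) := hF.comp (by fun_prop)
  have c1 : Continuous (fun s : ℝ => F (-s, 1)) := hF.comp (by fun_prop)
  have c2 : Continuous (fun s : ℝ => F (-1, -s)) := hF.comp (by fun_prop)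
  have c3 : Continuous (fun s : ℝ => F (s, -1)) := hF.comp (by fun_prop)
  rw [e0, e1, p0, p1, p2, p3]
  rw [add4 (-1) 1 _ _ _ _ c0 c1 c2 c3]

/-- the inner integral -/
noncomputable def H (p : ℝ × ℝ) : ℝ := ∫ s in (-1 : ℝ)..1, (Ns (p - (1, s)) + Ns (p - (-s, 1)) +
  Ns (p - (-1, -s)) + Ns (p - (s, -1)))

lemma H_eq (p : ℝ × ℝ) : ∫ φ in (-π)..π, Ns (p - pt Ns φ) * rd Ns φ = H p := by
  have := sides (fun q => Ns (p - q)) (Ns_cont.comp (by fun_prop))
  exact this

lemma H_cont : Continuous H := by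
  unfold H
  apply intervalIntegral.continuous_parametric_intervalIntegral_of_continuous'
  have h0 : Continuous (fun q : (ℝ × ℝ) × ℝ => Ns (q.1 - (1, q.2))) := Ns_cont.comp (by fun_prop)
  have h1 : Continuous (fun q : (ℝ × ℝ) × ℝ => Ns (q.1 - (-q.2, 1))) := Ns_cont.comp (by fun_prop)
  have h2 : Continuous (fun q : (ℝ × ℝ) × ℝ => Ns (q.1 - (-1, -q.2))) := Ns_cont.comp (by fun_prop)
  have h3 : Continuous (fun q : (ℝ × ℝ) × ℝ => Ns (q.1 - (q.2, -1))) := Ns_cont.comp (by fun_prop)
  exact ((h0.add h1).add h2).add h3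

lemma H_rot (x y : ℝ) : H (-y, x) = H (x, y) := by
  unfold H
  apply intervalIntegral.integral_congr
  intro s _
  simp only [Ns, Prod.mk_sub_mk]
  have e1 : |(-y) - 1| = |y - -1| := by rw [← abs_neg]; congr 1; ring
  have e2 : |(-y) - -s| = |y - s| := by rw [← abs_neg]; congr 1; ring
  have e3 : |(-y) - -1| = |y - 1| := by rw [← abs_neg]; congr 1; ring
  have e4 : |(-y) - s| = |y - -s| := by rw [← abs_neg]; congr 1; ring
  rw [e1, e2, e3, e4, max_comm |y - -1|, max_comm |y - s|, max_comm |y - 1|, max_comm |y - -s|]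
  ring

lemma int_abs (t : ℝ) (ht : t ∈ Icc (-1 : ℝ) 1) : ∫ s in (-1 : ℝ)..1, |t - s| = 1 + t ^ 2 := by
  have hc : Continuous (fun s : ℝ => |t - s|) := by fun_prop
  rw [← intervalIntegral.integral_add_adjacent_intervals (b := t) (hc.intervalIntegrable _ _)
    (hc.intervalIntegrable _ _)]
  have a1 : ∫ s in (-1 : ℝ)..t, |t - s| = ∫ s in (-1 : ℝ)..t, (t - s) := by
    apply intervalIntegral.integral_congr
    intro s hs
    rw [uIcc_of_le ht.1] at hs
    exact abs_of_nonneg (by linarith [hs.2])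
  have a2 : ∫ s in t..1, |t - s| = ∫ s in t..1, (s - t) := by
    apply intervalIntegral.integral_congr
    intro s hs
    rw [uIcc_of_le ht.2] at hs
    simp only
    rw [abs_of_nonpos (by linarith [hs.1])]
    ring
  rw [a1, a2]
  rw [intervalIntegral.integral_sub (by simp) (by simp),
    intervalIntegral.integral_sub (by simp) (by simp)]
  simp only [intervalIntegral.integral_const, smul_eq_mul, integral_id]
  ring

/-- max of a linear function and a constant -/
lemma int_max (u : ℝ) (hu : u ∈ Icc (0 : ℝ) 2) :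
    ∫ s in (0 : ℝ)..2, max s u = 2 + u ^ 2 / 2 := by
  have hc : Continuous (fun s : ℝ => max s u) := by fun_prop
  rw [← intervalIntegral.integral_add_adjacent_intervals (b := u) (hc.intervalIntegrable _ _)
    (hc.intervalIntegrable _ _)]
  have a1 : ∫ s in (0 : ℝ)..u, max s u = ∫ s in (0 : ℝ)..u, u := by
    apply intervalIntegral.integral_congr
    intro s hs
    rw [uIcc_of_le hu.1] at hs
    exact max_eq_right hs.2
  have a2 : ∫ s in u..2, max s u = ∫ s in u..2, s := by
    apply intervalIntegral.integral_congr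
    intro s hs
    rw [uIcc_of_le hu.2] at hs
    exact max_eq_left hs.1
  rw [a1, a2]
  simp only [intervalIntegral.integral_const, smul_eq_mul, integral_id]
  ring

lemma H_side (t : ℝ) (ht : t ∈ Icc (-1 : ℝ) 1) : H (1, t) = 10 + 2 * t ^ 2 := by
  unfold H
  have h0 : Continuous (fun s : ℝ => Ns ((1, t) - (1, s))) := Ns_cont.comp (by fun_prop)
  have h1 : Continuous (fun s : ℝ => Ns ((1, t) - (-s, 1))) := Ns_cont.comp (by fun_prop)
  have h2 : Continuous (fun s : ℝ => Ns ((1, t) - (-1, -s))) := Ns_cont.comp (by fun_prop)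
  have h3 : Continuous (fun s : ℝ => Ns ((1, t) - (s, -1))) := Ns_cont.comp (by fun_prop)
  rw [add4 (-1) 1 _ _ _ _ h0 h1 h2 h3]
  have hle : (-1 : ℝ) ≤ 1 := by norm_num
  have q0 : ∫ s in (-1 : ℝ)..1, Ns ((1, t) - (1, s)) = 1 + t ^ 2 := by
    rw [← int_abs t ht]
    apply intervalIntegral.integral_congr
    intro s _
    simp only [Ns, Prod.mk_sub_mk, sub_self, abs_zero]
    exact max_eq_right (abs_nonneg _)
  have q1 : ∫ s in (-1 : ℝ)..1, Ns ((1, t) - (-s, 1)) = 2 + (1 - t) ^ 2 / 2 := by
    rw [← int_max (1 - t) ⟨by linarith [ht.2], by linarith [ht.1]⟩]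
    have := intervalIntegral.integral_comp_add_right (a := (-1 : ℝ)) (b := 1)
      (fun s : ℝ => max s (1 - t)) 1
    rw [show (-1 : ℝ) + 1 = 0 by norm_num, show (1 : ℝ) + 1 = 2 by norm_num] at this
    rw [← this]
    apply intervalIntegral.integral_congr
    intro s hs
    rw [uIcc_of_le hle] at hs
    simp only [Ns, Prod.mk_sub_mk]
    rw [abs_of_nonneg (show (0 : ℝ) ≤ 1 - -s by linarith [hs.1]),
      abs_of_nonpos (show t - 1 ≤ 0 by linarith [ht.2])]
    congr 1 <;> ring
  have q2 : ∫ s in (-1 : ℝ)..1, Ns ((1, t) - (-1, -s)) = 4 := by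
    have : ∫ s in (-1 : ℝ)..1, Ns ((1, t) - (-1, -s)) = ∫ s in (-1 : ℝ)..1, (2 : ℝ) := by
      apply intervalIntegral.integral_congr
      intro s hs
      rw [uIcc_of_le hle] at hs
      simp only [Ns, Prod.mk_sub_mk]
      rw [show (1 : ℝ) - -1 = 2 by norm_num, abs_of_pos (show (0 : ℝ) < 2 by norm_num)]
      apply max_eq_left
      rw [abs_le]
      constructor <;> linarith [hs.1, hs.2, ht.1, ht.2]
    rw [this]
    simp only [intervalIntegral.integral_const, smul_eq_mul]
    norm_num
  have q3 : ∫ s in (-1 : ℝ)..1, Ns ((1, t) - (s, -1)) = 2 + (1 + t) ^ 2 / 2 := by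
    rw [← int_max (1 + t) ⟨by linarith [ht.1], by linarith [ht.2]⟩]
    have := intervalIntegral.integral_comp_sub_left (a := (-1 : ℝ)) (b := 1)
      (fun s : ℝ => max s (1 + t)) 1
    rw [show (1 : ℝ) - 1 = 0 by norm_num, show (1 : ℝ) - -1 = 2 by norm_num] at this
    rw [← this]
    apply intervalIntegral.integral_congr
    intro s hs
    rw [uIcc_of_le hle] at hs
    simp only [Ns, Prod.mk_sub_mk]
    rw [abs_of_nonneg (show (0 : ℝ) ≤ 1 - s by linarith [hs.2]),
      abs_of_nonneg (show (0 : ℝ) ≤ t - -1 by linarith [ht.1])]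
    congr 1; ring
  rw [q0, q1, q2, q3]
  ring

theorem SQ : S_SQ := by
  unfold S_SQ EN
  have hden : ∫ θ in (-π)..π, rd Ns θ = 8 := by
    have := sides (fun _ => 1) continuous_const
    simp only [one_mul] at this
    rw [this]
    simp only [intervalIntegral.integral_const, smul_eq_mul]
    norm_num
  have hnum : ∫ θ in (-π)..π, (∫ φ in (-π)..π, Ns (pt Ns θ - pt Ns φ) * rd Ns φ) * rd Ns θ =
      256 / 3 := by
    have e1 : ∫ θ in (-π)..π, (∫ φ in (-π)..π, Ns (pt Ns θ - pt Ns φ) * rd Ns φ) * rd Ns θ =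
        ∫ θ in (-π)..π, H (pt Ns θ) * rd Ns θ := by
      apply intervalIntegral.integral_congr
      intro θ _
      simp only [H_eq]
    rw [e1, sides H H_cont]
    have hle : (-1 : ℝ) ≤ 1 := by norm_num
    have e2 : ∫ s in (-1 : ℝ)..1, (H (1, s) + H (-s, 1) + H (-1, -s) + H (s, -1)) =
        ∫ s in (-1 : ℝ)..1, (40 + 8 * s ^ 2) := by
      apply intervalIntegral.integral_congr
      intro s hs
      rw [uIcc_of_le hle] at hs
      simp only
      have r1 : H (-s, 1) = H (1, s) := H_rot 1 s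
      have r2 : H (-1, -s) = H (-s, 1) := H_rot (-s) 1
      have r3 : H (s, -1) = H (-1, -s) := by
        have := H_rot (-1) (-s)
        rw [neg_neg] at this
        exact this
      rw [r3, r2, r1, H_side s hs]
      ring
    rw [e2]
    rw [intervalIntegral.integral_add (by simp) (by
      apply Continuous.intervalIntegrable; fun_prop)]
    rw [intervalIntegral.integral_const_mul, integral_pow]
    simp only [intervalIntegral.integral_const, smul_eq_mul]
    norm_num
  rw [hden, hnum]
  norm_num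

end Pool.Agent.TH491.SPSQ
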