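import Pool.Agent.TH491.BC4

set_option autoImplicit false
open Finset
open scoped Classical

namespace Pool.Agent.TH491.BC

open Pool.Agent.W839.Ch (EB bw gr wt Pr bit blk wt_nonneg Pr_nonneg Pr_mono Pr_exists_le Pr_add_not
  Pr_or_le)

/-- the structure of the proof -/
def Struct {n : ℕ} (k : ℕ) (G : SimpleGraph (Fin n)) : Prop :=
  ∃ (I : Finset (Fin n)) (u v : Fin n), I.card = k ∧ u ≠ v ∧ u ∉ I ∧ v ∉ I ∧ Twin G I u v

theorem card_lt (n m : ℕ) (h : m ≤ n) : (univ.filter (fun x : Fin n => x.val < m)).card = m := by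
  rw [Fin.card_filter_val_lt]
  exact min_eq_right h

theorem prob_lower (n nv i M : ℕ) (hn : n = nv + 2 * M) (hi : 1 ≤ i) (hnv : 8 * i ≤ nv) (hM : 4 ≤ M)
    (hA : 2 * (4 * i : ℝ) ^ 2 * (25 / 13) * (5 / 3 : ℝ) ^ i / nv ≤ 1 / 16)
    (hB : (4 * i : ℝ) * nv * (3 / 5 : ℝ) ^ (3 * i - 1) ≤ 1 / 2)
    (hN : 16 * (5 / 3 : ℝ) ^ ((4 * i).choose 2) ≤ (nv.choose (4 * i) : ℝ))
    (hNM : 24 * ((25 / 13 : ℝ) ^ (4 * i) * (5 / 3 : ℝ) ^ ((4 * i).choose 2)) ≤
      (nv.choose (4 * i) : ℝ) * (M : ℝ) ^ 2) :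
    1 / 3 ≤ Pr n (2 / 5) (Struct (4 * i)) := by
  set k := 4 * i with hk
  set V : Finset (Fin n) := univ.filter (fun x : Fin n => x.val < nv) with hV
  set U : Finset (Fin n) := univ.filter (fun x : Fin n => nv ≤ x.val ∧ x.val < nv + M) with hU
  set U' : Finset (Fin n) := univ.filter (fun x : Fin n => nv + M ≤ x.val) with hU'
  have hVc : V.card = nv := card_lt n nv (by omega)
  have hUc : U.card = M := by
    have h1 : U = (univ.filter (fun x : Fin n => x.val < nv + M)) \ V := by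
      ext x
      simp only [hU, hV, Finset.mem_filter, Finset.mem_univ, true_and, Finset.mem_sdiff, not_lt]
      omega
    rw [h1, Finset.card_sdiff_of_subset, card_lt n (nv + M) (by omega), hVc]
    · omega
    · intro x hx
      simp only [hV, Finset.mem_filter, Finset.mem_univ, true_and] at hx ⊢
      omega
  have hU'c : U'.card = M := by
    have h1 : U' = univ \ (univ.filter (fun x : Fin n => x.val < nv + M)) := by
      ext x
      simp only [hU', Finset.mem_filter, Finset.mem_univ, true_and, Finset.mem_sdiff, not_lt]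
    rw [h1, Finset.card_sdiff_of_subset (Finset.subset_univ _), card_lt n (nv + M) (by omega)]
    simp
    omega
  have hVU : Disjoint V U := by
    rw [Finset.disjoint_left]
    intro x hx hx'
    simp only [hV, hU, Finset.mem_filter, Finset.mem_univ, true_and] at hx hx'
    omega
  have hVU' : Disjoint V U' := by
    rw [Finset.disjoint_left]
    intro x hx hx'
    simp only [hV, hU', Finset.mem_filter, Finset.mem_univ, true_and] at hx hx'
    omega
  have hUU' : Disjoint U U' := by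
    rw [Finset.disjoint_left]
    intro x hx hx'
    simp only [hU, hU', Finset.mem_filter, Finset.mem_univ, true_and] at hx hx'
    omega
  set Q := V.powersetCard k ×ˢ (U ×ˢ U') with hQ
  have h1 := cs (n := n) (2 / 5) (by norm_num) (by norm_num) Q
  rw [hQ, first_moment V U U' hVU hVU' hUU' k M hUc hU'c] at h1
  have h2 := second_moment V U U' hVU hVU' hUU' k M hUc hU'c
  set a : ℝ := (3 / 5 : ℝ) ^ (k.choose 2 + 1) * (13 / 25 : ℝ) ^ k with ha
  have ha0 : 0 < a := by positivity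
  set Z : ℝ := (5 / 3 : ℝ) ^ (k.choose 2) with hZ
  have hZ0 : 0 < Z := by positivity
  have hW1 := Wt_le V k 1 (by norm_num)
  have hWw := Wt_le V k (25 / 13) (by norm_num)
  rw [hVc] at hW1 hWw h1
  set Cn : ℝ := (nv.choose k : ℝ) with hCn
  have hnv0 : (0 : ℝ) < nv := by
    have : 0 < nv := by omega
    exact_mod_cast this
  have hT1 := TS_le nv i 1 le_rfl hi hnv (by
    refine le_trans ?_ hA
    gcongr
    norm_num) hB
  have hTw := TS_le nv i (25 / 13) (by norm_num) hi hnv hA hB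
  rw [← hk] at hT1 hTw
  rw [one_pow, one_mul] at hT1
  rw [← hZ, ← hCn] at hT1 hTw
  have hCn0 : 0 < Cn := by
    have : (0 : ℝ) < 16 * Z := by positivity
    linarith
  have hMr : (4 : ℝ) ≤ M := by exact_mod_cast hM
  have hM2 : (16 : ℝ) ≤ (M : ℝ) ^ 2 := by nlinarith
  have hE2 : ∑ G : SimpleGraph (Fin n), wt n (2 / 5) G * XX Q G ^ 2 ≤
      3 * (a * (Cn * (M : ℝ) ^ 2)) ^ 2 := by
    refine h2.trans ?_
    have h3 : 2 * (M : ℝ) ^ 2 * Wt V k 1 + 3 * Wt V k (25 / 13) ≤ 3 * (Cn ^ 2 * (M : ℝ) ^ 2) := by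
      have h4 : Wt V k 1 ≤ Cn * (Cn * (9 / 8) + 2 * Z) :=
        hW1.trans (mul_le_mul_of_nonneg_left hT1 hCn0.le)
      have h5 : Wt V k (25 / 13) ≤ Cn * (Cn * (9 / 8) + 2 * ((25 / 13 : ℝ) ^ k * Z)) :=
        hWw.trans (mul_le_mul_of_nonneg_left hTw hCn0.le)
      have h6 : Cn * (Cn * (9 / 8) + 2 * Z) ≤ Cn * (Cn * (5 / 4)) :=
        mul_le_mul_of_nonneg_left (by linarith) hCn0.le
      have h7 : Cn * (Cn * (9 / 8) + 2 * ((25 / 13 : ℝ) ^ k * Z)) ≤
          Cn * (Cn * (9 / 8) + Cn * (M : ℝ) ^ 2 / 12) :=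
        mul_le_mul_of_nonneg_left (by linarith) hCn0.le
      have h8 : 2 * (M : ℝ) ^ 2 * Wt V k 1 ≤ 2 * (M : ℝ) ^ 2 * (Cn * (Cn * (5 / 4))) :=
        mul_le_mul_of_nonneg_left (h4.trans h6) (by positivity)
      have h9 : 3 * Wt V k (25 / 13) ≤ 3 * (Cn * (Cn * (9 / 8) + Cn * (M : ℝ) ^ 2 / 12)) :=
        mul_le_mul_of_nonneg_left (h5.trans h7) (by norm_num)
      have h10 : Cn ^ 2 * 16 ≤ Cn ^ 2 * (M : ℝ) ^ 2 := mul_le_mul_of_nonneg_left hM2 (by positivity)
      nlinarith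
    calc a ^ 2 * ((M : ℝ) ^ 2 * (2 * (M : ℝ) ^ 2 * Wt V k 1 + 3 * Wt V k (25 / 13)))
        ≤ a ^ 2 * ((M : ℝ) ^ 2 * (3 * (Cn ^ 2 * (M : ℝ) ^ 2))) := by gcongr
      _ = _ := by ring
  have hX0 : 0 < (a * (Cn * (M : ℝ) ^ 2)) ^ 2 := by positivity
  have hPr0 : 0 ≤ Pr n (2 / 5) (fun G => ∃ q ∈ Q, Twin G q.1 q.2.1 q.2.2) :=
    Pr_nonneg (by norm_num) (by norm_num) _
  have h3 : (a * (Cn * (M : ℝ) ^ 2)) ^ 2 ≤
      Pr n (2 / 5) (fun G => ∃ q ∈ Q, Twin G q.1 q.2.1 q.2.2) * (3 * (a * (Cn * (M : ℝ) ^ 2)) ^ 2) :=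
    h1.trans (mul_le_mul_of_nonneg_left hE2 hPr0)
  have h4 : 1 / 3 ≤ Pr n (2 / 5) (fun G => ∃ q ∈ Q, Twin G q.1 q.2.1 q.2.2) := by
    nlinarith
  refine h4.trans (Pr_mono (by norm_num) (by norm_num) ?_)
  rintro G ⟨⟨I, u, v⟩, hq, htw⟩
  rw [hQ, Finset.mem_product, Finset.mem_product, Finset.mem_powersetCard] at hq
  refine ⟨I, u, v, hq.1.2, ?_, ?_, ?_, htw⟩
  · intro h
    simp only at hq
    rw [h] at hq
    exact (Finset.disjoint_left.1 hUU') hq.2.1 hq.2.2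
  · intro h
    exact (Finset.disjoint_left.1 hVU) (hq.1.1 h) hq.2.1
  · intro h
    exact (Finset.disjoint_left.1 hVU') (hq.1.1 h) hq.2.2

/-- the main probability estimate from the two moments -/
theorem prob_upper (n k : ℕ) (h1 : 1 / 3 ≤ Pr n (2 / 5) (Struct k))
    (h2 : (n.choose (k + 1) : ℝ) * (3 / 5 : ℝ) ^ ((k + 1).choose 2) ≤ 1 / 6) :
    Pr n (2 / 5) (fun G => sInf {k : ℕ | BP G k} = n - Gᶜ.cliqueNum) ≤ 5 / 6 := by
  have h3 := pr_alpha (n := n) (2 / 5) (by norm_num) (by norm_num) k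
  have e : (1 - 2 / 5 : ℝ) = 3 / 5 := by norm_num
  rw [e] at h3
  have h4 := h3.trans h2
  have h5 : Pr n (2 / 5) (Struct k) ≤
      Pr n (2 / 5) (fun G => (¬ sInf {k : ℕ | BP G k} = n - Gᶜ.cliqueNum) ∨
        ∃ J ∈ (univ : Finset (Fin n)).powersetCard (k + 1), ∀ x ∈ J, ∀ y ∈ J, ¬ G.Adj x y) := by
    refine Pr_mono (by norm_num) (by norm_num) ?_
    rintro G ⟨I, u, v, hI, huv, hu, hv, htw⟩
    by_cases h : ∃ J ∈ (univ : Finset (Fin n)).powersetCard (k + 1), ∀ x ∈ J, ∀ y ∈ J, ¬ G.Adj x y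
    · exact Or.inr h
    · left
      push Not at h
      have hα : Gᶜ.cliqueNum ≤ k := by
        apply alpha_le
        intro J hJ
        exact h J (Finset.mem_powersetCard.2 ⟨Finset.subset_univ _, hJ⟩)
      exact bc_ne G k hα I hI u v huv hu hv htw
  have h6 := Pr_or_le (n := n) (p := 2 / 5) (by norm_num) (by norm_num)
    (fun G => ¬ sInf {k : ℕ | BP G k} = n - Gᶜ.cliqueNum)
    (fun G => ∃ J ∈ (univ : Finset (Fin n)).powersetCard (k + 1), ∀ x ∈ J, ∀ y ∈ J, ¬ G.Adj x y)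
  have h7 := Pr_add_not (n := n) (p := 2 / 5) bit
    (fun G => sInf {k : ℕ | BP G k} = n - Gᶜ.cliqueNum)
  linarith

theorem choose_sub_ge (n k : ℕ) (hkn : 2 * k ≤ n) (hn : 0 < n) (d : ℕ) (hd : 2 * d ≤ n) :
    (n.choose k : ℝ) * (1 - 2 * d * k / n) ≤ ((n - d).choose k : ℝ) := by
  have hn0 : (0 : ℝ) < n := by exact_mod_cast hn
  induction d with
  | zero => simp
  | succ d ih =>
    have ih' := ih (by omega)
    have h1 : (n - (d + 1)).choose k * (n - d) = (n - d).choose k * (n - d - k) := by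
      have := Nat.choose_mul_succ_eq (n - (d + 1)) k
      have h2 : n - (d + 1) + 1 = n - d := by omega
      rw [h2] at this
      exact this
    have hnd : (n : ℝ) / 2 ≤ ((n - d : ℕ) : ℝ) := by
      have : n ≤ 2 * (n - d) := by omega
      have h3 : (n : ℝ) ≤ 2 * ((n - d : ℕ) : ℝ) := by exact_mod_cast this
      linarith
    have hnd0 : (0 : ℝ) < ((n - d : ℕ) : ℝ) := by linarith
    have h4 : ((n - (d + 1)).choose k : ℝ) = ((n - d).choose k : ℝ) * (1 - k / ((n - d : ℕ) : ℝ)) := by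
      by_cases hk2 : k ≤ n - d
      · have h5 : ((n - (d + 1)).choose k : ℝ) * ((n - d : ℕ) : ℝ) =
            ((n - d).choose k : ℝ) * (((n - d : ℕ) : ℝ) - k) := by
          have h6 : (((n - d - k : ℕ)) : ℝ) = ((n - d : ℕ) : ℝ) - k := Nat.cast_sub hk2
          rw [← h6]
          exact_mod_cast h1
        field_simp
        linarith
      · exfalso
        omega
    have h5 : (k : ℝ) / ((n - d : ℕ) : ℝ) ≤ 2 * k / n := by
      rw [div_le_div_iff₀ hnd0 hn0]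
      have : (0 : ℝ) ≤ k := by positivity
      nlinarith
    have h7 : (0 : ℝ) ≤ 1 - 2 * k / n := by
      rw [sub_nonneg, div_le_one hn0]
      exact_mod_cast hkn
    have hC0 : (0 : ℝ) ≤ (n.choose k : ℝ) := by positivity
    have hC1 : (0 : ℝ) ≤ ((n - d).choose k : ℝ) := by positivity
    rw [h4]
    calc (n.choose k : ℝ) * (1 - 2 * ((d + 1 : ℕ) : ℝ) * k / n)
        ≤ (n.choose k : ℝ) * ((1 - 2 * d * k / n) * (1 - 2 * k / n)) := by
          refine mul_le_mul_of_nonneg_left ?_ hC0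
          push_cast
          have h8 : (0 : ℝ) ≤ (2 * d * k / n) * (2 * k / n) := by positivity
          have h9 : 2 * ((d : ℝ) + 1) * k / n = 2 * d * k / n + 2 * k / n := by ring
          rw [h9]
          nlinarith
      _ = ((n.choose k : ℝ) * (1 - 2 * d * k / n)) * (1 - 2 * k / n) := by ring
      _ ≤ ((n - d).choose k : ℝ) * (1 - 2 * k / n) := mul_le_mul_of_nonneg_right ih' h7
      _ ≤ ((n - d).choose k : ℝ) * (1 - k / ((n - d : ℕ) : ℝ)) :=
          mul_le_mul_of_nonneg_left (by linarith) hC1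

set_option maxHeartbeats 4000000 in
/-- choice of `n` -/
theorem exists_n (i : ℕ) (hi : 1 ≤ i) (hF1 : 4000 * (i : ℝ) ^ 2 ≤ (5 / 3 : ℝ) ^ i)
    (hF2 : 23592960 * (i : ℝ) ^ 2 * (25 / 13 : ℝ) ^ (4 * i) ≤ (5 / 3 : ℝ) ^ (6 * i)) :
    ∃ n : ℕ, i ≤ n ∧
      Pr n (2 / 5) (fun G => sInf {k : ℕ | BP G k} = n - Gᶜ.cliqueNum) ≤ 5 / 6 := by
  obtain ⟨k, hk⟩ : ∃ k, k = 4 * i := ⟨_, rfl⟩
  set c : ℝ := (3 / 5 : ℝ) ^ ((k + 1).choose 2) with hc
  have hc0 : 0 < c := by positivity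
  -- existence of large binomials
  have hex : ∃ m : ℕ, 1 / 6 < (m.choose (k + 1) : ℝ) * c := by
    obtain ⟨L, hL⟩ := exists_nat_gt (((k + 1).factorial : ℝ) / c)
    have hfac : (0 : ℝ) < ((k + 1).factorial : ℝ) := by exact_mod_cast Nat.factorial_pos _
    have hL0 : (0 : ℝ) < L := lt_trans (by positivity) hL
    have hL1 : (1 : ℝ) ≤ L := by
      have : 0 < L := by exact_mod_cast hL0
      exact_mod_cast this
    refine ⟨L + k, ?_⟩
    have h1 := Nat.pow_le_choose (α := ℝ) (k + 1) (L + k)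
    have h2 : L + k + 1 - (k + 1) = L := by omega
    rw [h2, div_le_iff₀ hfac] at h1
    have h3 : (L : ℝ) ≤ (L : ℝ) ^ (k + 1) := le_self_pow₀ hL1 (by omega)
    rw [div_lt_iff₀ hc0] at hL
    have h4 : ((k + 1).factorial : ℝ) * 1 < ((k + 1).factorial : ℝ) * (((L + k).choose (k + 1) : ℝ) * c) := by
      calc ((k + 1).factorial : ℝ) * 1 < L * c := by linarith
        _ ≤ (L : ℝ) ^ (k + 1) * c := by gcongr
        _ ≤ (((L + k).choose (k + 1) : ℝ) * ((k + 1).factorial : ℝ)) * c := by gcongr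
        _ = _ := by ring
    have h5 := lt_of_mul_lt_mul_left h4 hfac.le
    linarith
  classical
  set m := Nat.find hex with hm
  have hm1 : 1 / 6 < (m.choose (k + 1) : ℝ) * c := Nat.find_spec hex
  have hm0 : m ≠ 0 := by
    intro h
    rw [h] at hm1
    simp at hm1
    norm_num at hm1
  obtain ⟨n, hn⟩ : ∃ n, m = n + 1 := ⟨m - 1, by omega⟩
  have hn1 : (n.choose (k + 1) : ℝ) * c ≤ 1 / 6 := by
    have := Nat.find_min hex (m := n) (by omega)
    exact not_lt.1 this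
  rw [hn] at hm1
  -- numerical parameters
  set x : ℝ := (5 / 3 : ℝ) ^ i with hx
  have hi1 : (1 : ℝ) ≤ i := by exact_mod_cast hi
  have hi2 : (i : ℝ) ≤ (i : ℝ) ^ 2 := by nlinarith
  have hx1 : 4000 * (i : ℝ) ≤ x := by linarith
  have hx2 : 4000 ≤ x := by linarith
  have hkr : (k : ℝ) = 4 * i := by rw [hk]; push_cast; ring
  set Λ : ℝ := x ^ 2 with hΛ
  have hΛx : 4000 * x ≤ Λ := by rw [hΛ]; nlinarith
  have hΛ0 : 0 < Λ := by rw [hΛ]; positivity
  have hcΛ : c * Λ ^ (k + 1) = 1 := by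
    have h1 : Λ = (5 / 3 : ℝ) ^ (2 * i) := by rw [hΛ, hx, ← pow_mul, mul_comm]
    have h2 : (k + 1).choose 2 = 2 * i * (k + 1) := by
      rw [Nat.choose_two_right, Nat.add_sub_cancel, hk]
      have : (4 * i + 1) * (4 * i) = 2 * (2 * i * (4 * i + 1)) := by ring
      rw [this]
      exact Nat.mul_div_cancel_left _ (by norm_num)
    rw [hc, h1, h2, ← pow_mul, ← mul_pow]
    norm_num
  have hfac0 : (0 : ℝ) < ((k + 1).factorial : ℝ) := by exact_mod_cast Nat.factorial_pos _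
  have hfac6 : (6 : ℝ) ≤ ((k + 1).factorial : ℝ) := by
    have : (3 : ℕ).factorial ≤ (k + 1).factorial := Nat.factorial_le (by omega)
    have h2 : (3 : ℕ).factorial = 6 := rfl
    rw [h2] at this
    exact_mod_cast this
  -- lower bound for n
  have hL1 : Λ < n + 1 := by
    have h1 := Nat.choose_le_pow_div (α := ℝ) (k + 1) (n + 1)
    rw [le_div_iff₀ hfac0] at h1
    have h2 : Λ ^ (k + 1) < ((n : ℝ) + 1) ^ (k + 1) := by
      have h3 : (1 : ℝ) < ((n : ℝ) + 1) ^ (k + 1) * c := by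
        push_cast at h1
        calc (1 : ℝ) < 6 * (((n + 1).choose (k + 1) : ℝ) * c) := by linarith
          _ ≤ ((k + 1).factorial : ℝ) * (((n + 1).choose (k + 1) : ℝ) * c) := by gcongr
          _ = (((n + 1).choose (k + 1) : ℝ) * ((k + 1).factorial : ℝ)) * c := by ring
          _ ≤ ((n : ℝ) + 1) ^ (k + 1) * c := by gcongr
      calc Λ ^ (k + 1) = 1 * Λ ^ (k + 1) := by ring
        _ < (((n : ℝ) + 1) ^ (k + 1) * c) * Λ ^ (k + 1) :=
            mul_lt_mul_of_pos_right h3 (by positivity)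
        _ = ((n : ℝ) + 1) ^ (k + 1) * (c * Λ ^ (k + 1)) := by ring
        _ = _ := by rw [hcΛ, mul_one]
    exact lt_of_pow_lt_pow_left₀ (k + 1) (by positivity) h2
  -- upper bound for n
  have hnk : k ≤ n := by
    by_contra hcon
    have : (n : ℝ) < k := by exact_mod_cast not_le.1 hcon
    nlinarith
  have hL2 : (n : ℝ) - k ≤ (k + 1) * Λ := by
    have h1 := Nat.pow_le_choose (α := ℝ) (k + 1) n
    have h2 : n + 1 - (k + 1) = n - k := by omega
    rw [h2, div_le_iff₀ hfac0] at h1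
    have h3 : (((n - k : ℕ)) : ℝ) = (n : ℝ) - k := Nat.cast_sub hnk
    rw [h3] at h1
    have h4 : ((k + 1).factorial : ℝ) ≤ ((k : ℝ) + 1) ^ (k + 1) := by
      have := Nat.factorial_le_pow (k + 1)
      have h5 : (((k + 1).factorial : ℕ) : ℝ) ≤ (((k + 1 : ℕ) ^ (k + 1) : ℕ) : ℝ) := by
        exact_mod_cast this
      push_cast at h5
      exact h5
    have h6 : ((n : ℝ) - k) ^ (k + 1) ≤ ((k + 1) * Λ) ^ (k + 1) := by
      calc ((n : ℝ) - k) ^ (k + 1) ≤ (n.choose (k + 1) : ℝ) * ((k + 1).factorial : ℝ) := h1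
        _ = ((n.choose (k + 1) : ℝ) * c) * Λ ^ (k + 1) * ((k + 1).factorial : ℝ) := by
            rw [mul_assoc (n.choose (k + 1) : ℝ) c, hcΛ, mul_one]
        _ ≤ 1 * Λ ^ (k + 1) * ((k : ℝ) + 1) ^ (k + 1) := by
            gcongr
            linarith
        _ = _ := by rw [mul_pow]; ring
    have h7 : (0 : ℝ) ≤ (n : ℝ) - k := by
      rw [sub_nonneg]; exact_mod_cast hnk
    exact le_of_pow_le_pow_left₀ (by omega) (by positivity) h6
  have hnΛ : (n : ℝ) ≤ 10 * i * Λ := by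
    have h1 : (k : ℝ) ≤ i * Λ := by
      rw [hkr]
      nlinarith
    have h2 : ((k : ℝ) + 1) * Λ ≤ 5 * i * Λ := by
      rw [hkr]
      nlinarith
    nlinarith
  have hnlow : Λ / 2 ≤ n := by linarith
  have hn0 : (0 : ℝ) < n := by linarith
  have hn0' : 0 < n := by exact_mod_cast hn0
  have hni : 4000 * (i : ℝ) ≤ n := by
    have : 4000 * (i : ℝ) ≤ Λ / 2 := by linarith
    linarith
  have hni' : 4000 * i ≤ n := by exact_mod_cast hni
  refine ⟨n, by omega, ?_⟩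
  -- M
  obtain ⟨M, hM⟩ : ∃ M, M = n / (32 * i) := ⟨_, rfl⟩
  have hMle : M * (32 * i) ≤ n := by rw [hM]; exact Nat.div_mul_le_self _ _
  have hMlt : n < (M + 1) * (32 * i) := by
    rw [hM]
    have := Nat.lt_mul_div_succ n (show 0 < 32 * i by omega)
    rw [mul_comm]
    exact this
  have hM4 : 4 ≤ M := by
    rw [hM, Nat.le_div_iff_mul_le (by omega)]
    omega
  have h2M : 2 * (2 * M) ≤ n := by nlinarith
  obtain ⟨nv, hnv⟩ : ∃ nv, nv = n - 2 * M := ⟨_, rfl⟩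
  have hnv2 : n ≤ 2 * nv := by omega
  have hnvr : (n : ℝ) / 2 ≤ nv := by
    have : (n : ℝ) ≤ 2 * nv := by exact_mod_cast hnv2
    linarith
  have hnvn : (nv : ℝ) ≤ n := by
    have : nv ≤ n := by omega
    exact_mod_cast this
  have hnv0 : (0 : ℝ) < nv := by linarith
  have hMr : Λ / (128 * i) ≤ M := by
    have h1 : (n : ℝ) < (M + 1) * (32 * i) := by exact_mod_cast hMlt
    have h2 : (4 : ℝ) ≤ M := by exact_mod_cast hM4
    have h3 : ((M : ℝ) + 1) * (32 * i) ≤ (2 * M) * (32 * i) :=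
      mul_le_mul_of_nonneg_right (by linarith) (by positivity)
    have h4 : (0 : ℝ) < 128 * i := by linarith
    rw [div_le_iff₀ h4]
    have h5 : (M : ℝ) * (128 * i) = 2 * ((2 * M) * (32 * i)) := by ring
    rw [h5]
    linarith
  -- binomial estimates
  have hC1 : (n.choose k : ℝ) / 2 ≤ (nv.choose k : ℝ) := by
    have h1 := choose_sub_ge n k (by omega) hn0' (2 * M) (by omega)
    rw [← hnv] at h1
    refine le_trans ?_ h1
    have h2 : 2 * ((2 * M : ℕ) : ℝ) * k / n ≤ 1 / 2 := by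
      rw [div_le_iff₀ hn0, hkr]
      have h3 : (M : ℝ) * (32 * i) ≤ n := by exact_mod_cast hMle
      push_cast
      linarith
    have h4 : (0 : ℝ) ≤ (n.choose k : ℝ) := by positivity
    nlinarith
  have hC2 : (n.choose (k + 1) : ℝ) * (k + 1) ≤ (n.choose k : ℝ) * n := by
    have h1 := Nat.choose_succ_right_eq n k
    have h2 : n.choose (k + 1) * (k + 1) ≤ n.choose k * n := by
      rw [h1]
      exact Nat.mul_le_mul_left _ (by omega)
    exact_mod_cast h2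
  have hC3 : ((n + 1).choose (k + 1) : ℝ) ≤ 2 * (n.choose (k + 1) : ℝ) := by
    have h1 := Nat.choose_mul_succ_eq n (k + 1)
    have h2 : n + 1 - (k + 1) = n - k := by omega
    rw [h2] at h1
    have h3 : n + 1 ≤ 2 * (n - k) := by omega
    have h4 : (n + 1).choose (k + 1) * (n - k) ≤ (2 * n.choose (k + 1)) * (n - k) := by
      rw [← h1]
      calc n.choose (k + 1) * (n + 1) ≤ n.choose (k + 1) * (2 * (n - k)) :=
            Nat.mul_le_mul_left _ h3
        _ = _ := by ring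
    have h5 := Nat.le_of_mul_le_mul_right h4 (by omega)
    exact_mod_cast h5
  set Z : ℝ := (5 / 3 : ℝ) ^ (k.choose 2) with hZ
  have hZ0 : 0 < Z := by positivity
  -- c in terms of Z
  have hcZ : c * (Z * Λ ^ 2) = 1 := by
    have h1 : Λ ^ 2 = (5 / 3 : ℝ) ^ k := by
      rw [hΛ, hx, ← pow_mul, ← pow_mul, hk]
      congr 1
      ring
    have h2 : (k + 1).choose 2 = k.choose 2 + k := by
      rw [Nat.choose_succ_succ' k 1]
      simp
      ring
    rw [hc, hZ, h1, ← pow_add, h2, ← mul_pow]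
    norm_num
  have hNq : Λ / 60 * Z ≤ (nv.choose k : ℝ) := by
    -- C(n+1,k+1) > (1/6) Z Λ^2
    have h1 : Z * Λ ^ 2 / 6 ≤ ((n + 1).choose (k + 1) : ℝ) := by
      have h2 : (Z * Λ ^ 2) * (1 / 6) ≤ (Z * Λ ^ 2) * (((n + 1).choose (k + 1) : ℝ) * c) :=
        mul_le_mul_of_nonneg_left hm1.le (by positivity)
      have h3 : (Z * Λ ^ 2) * (((n + 1).choose (k + 1) : ℝ) * c) = ((n + 1).choose (k + 1) : ℝ) := by
        calc _ = ((n + 1).choose (k + 1) : ℝ) * (c * (Z * Λ ^ 2)) := by ring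
          _ = _ := by rw [hcZ, mul_one]
      linarith
    have h4 : Z * Λ ^ 2 / 12 ≤ (n.choose (k + 1) : ℝ) := by linarith
    have hC0 : (0 : ℝ) ≤ (n.choose k : ℝ) := by positivity
    have hk10 : (0 : ℝ) ≤ (k : ℝ) + 1 := by positivity
    have h5 : Z * Λ ^ 2 / 12 * (k + 1) ≤ (n.choose k : ℝ) * (10 * i * Λ) := by
      calc Z * Λ ^ 2 / 12 * (k + 1) ≤ (n.choose (k + 1) : ℝ) * (k + 1) :=
            mul_le_mul_of_nonneg_right h4 hk10
        _ ≤ (n.choose k : ℝ) * n := hC2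
        _ ≤ _ := mul_le_mul_of_nonneg_left hnΛ hC0
    have h6 : Z * Λ ^ 2 / 12 * (4 * i) ≤ (n.choose k : ℝ) * (10 * i * Λ) := by
      refine le_trans ?_ h5
      have : (4 * i : ℝ) ≤ k + 1 := by rw [hkr]; linarith
      exact mul_le_mul_of_nonneg_left this (by positivity)
    have h7 : Z * Λ / 30 * (10 * i * Λ) ≤ (n.choose k : ℝ) * (10 * i * Λ) := by
      refine le_trans (le_of_eq ?_) h6
      ring
    have h9 : (0 : ℝ) < 10 * i * Λ := by positivity
    have h8 := le_of_mul_le_mul_right h7 h9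
    have h10 : Λ / 60 * Z = (Z * Λ / 30) / 2 := by ring
    rw [h10]
    linarith
  clear hm1 hcZ hC2 hC3 hcΛ hL1 hL2 hC1
  refine prob_upper n k ?_ hn1
  rw [hk]
  have hnveq : n = nv + 2 * M := by omega
  have hx0 : 0 < x := by linarith
  have hi0 : (0 : ℝ) < i := by linarith
  have hnvΛ : Λ / 4 ≤ nv := by linarith
  refine prob_lower n nv i M hnveq hi (by omega) hM4 ?_ ?_ ?_ ?_
  · -- hA
    rw [← hx, div_le_iff₀ hnv0]
    have h1 : 2 * (4 * (i : ℝ)) ^ 2 * (25 / 13) * x = (800 / 13 * (i : ℝ) ^ 2) * x := by ring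
    rw [h1]
    have h2 : (800 / 13 * (i : ℝ) ^ 2) * x ≤ (x / 64) * x := by
      refine mul_le_mul_of_nonneg_right ?_ hx0.le
      have : (0 : ℝ) ≤ (i : ℝ) ^ 2 := by positivity
      linarith
    have h3 : (x / 64) * x = Λ / 64 := by rw [hΛ]; ring
    linarith
  · -- hB
    have h1 : (3 / 5 : ℝ) ^ (3 * i - 1) = (5 / 3) * (3 / 5 : ℝ) ^ (3 * i) := by
      have : 3 * i = (3 * i - 1) + 1 := by omega
      rw [this, pow_succ, Nat.add_sub_cancel]
      ring
    have h2 : (3 / 5 : ℝ) ^ (3 * i) * x ^ 3 = 1 := by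
      rw [hx, ← pow_mul, mul_comm i 3, ← mul_pow]
      norm_num
    have h3 : (nv : ℝ) ≤ 10 * i * x ^ 2 := by rw [← hΛ]; linarith
    have hp0 : (0 : ℝ) < (3 / 5 : ℝ) ^ (3 * i) := by positivity
    rw [h1]
    have h4 : (4 * (i : ℝ)) * nv * ((5 / 3) * (3 / 5 : ℝ) ^ (3 * i)) ≤
        (4 * (i : ℝ)) * (10 * i * x ^ 2) * ((5 / 3) * (3 / 5 : ℝ) ^ (3 * i)) := by
      refine mul_le_mul_of_nonneg_right (mul_le_mul_of_nonneg_left h3 (by positivity))
        (by positivity)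
    refine h4.trans ?_
    have h5 : (4 * (i : ℝ)) * (10 * i * x ^ 2) * ((5 / 3) * (3 / 5 : ℝ) ^ (3 * i)) * x =
        (200 / 3) * (i : ℝ) ^ 2 := by
      calc _ = (200 / 3) * (i : ℝ) ^ 2 * ((3 / 5 : ℝ) ^ (3 * i) * x ^ 3) := by ring
        _ = _ := by rw [h2, mul_one]
    have h6 : (4 * (i : ℝ)) * (10 * i * x ^ 2) * ((5 / 3) * (3 / 5 : ℝ) ^ (3 * i)) * x ≤
        (1 / 2) * x := by
      rw [h5]
      have : (0 : ℝ) ≤ (i : ℝ) ^ 2 := by positivity
      linarith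
    exact le_of_mul_le_mul_right h6 hx0
  · -- hN
    rw [← hk, ← hZ]
    refine le_trans (mul_le_mul_of_nonneg_right ?_ hZ0.le) hNq
    linarith
  · -- hNM
    rw [← hk, ← hZ]
    have h0 : (0 : ℝ) < 128 * i := by linarith
    have h1 : (Λ / (128 * i)) ^ 2 ≤ (M : ℝ) ^ 2 := pow_le_pow_left₀ (by positivity) hMr 2
    have h2 : (Λ / 60 * Z) * (Λ / (128 * i)) ^ 2 ≤ (nv.choose k : ℝ) * (M : ℝ) ^ 2 :=
      mul_le_mul hNq h1 (by positivity) (by positivity)
    refine le_trans ?_ h2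
    have h3 : Λ ^ 3 = (5 / 3 : ℝ) ^ (6 * i) := by
      rw [hΛ, hx, ← pow_mul, ← pow_mul]
      congr 1
      ring
    rw [← h3, ← hk] at hF2
    have h4 : (Λ / 60 * Z) * (Λ / (128 * i)) ^ 2 = (Λ ^ 3 * Z) / (983040 * (i : ℝ) ^ 2) := by
      field_simp
      ring
    have h5 : (0 : ℝ) < 983040 * (i : ℝ) ^ 2 := by positivity
    rw [h4, le_div_iff₀ h5]
    have h6 : 24 * ((25 / 13 : ℝ) ^ k * Z) * (983040 * (i : ℝ) ^ 2) =
        (23592960 * (i : ℝ) ^ 2 * (25 / 13 : ℝ) ^ k) * Z := by ring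
    rw [h6]
    exact mul_le_mul_of_nonneg_right hF2 hZ0.le

theorem main :
    ¬ (∀ p : ℝ, 0 < p → p < 1 / 2 →
      Filter.Tendsto (fun n : ℕ => Pr n p (fun G => sInf {k : ℕ | BP G k} = n - Gᶜ.cliqueNum))
        Filter.atTop (nhds 1)) := by
  intro h
  have h1 := h (2 / 5) (by norm_num) (by norm_num)
  have h2 := h1.eventually (lt_mem_nhds (show (5 / 6 : ℝ) < 1 by norm_num))
  rw [Filter.eventually_atTop] at h2
  obtain ⟨N, hN⟩ := h2
  have h3 := (tendsto_pow_const_div_const_pow_of_one_lt 2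
    (show (1 : ℝ) < 5 / 3 by norm_num)).eventually
    (gt_mem_nhds (show (0 : ℝ) < 1 / 4000 by norm_num))
  have h4 := (tendsto_pow_const_div_const_pow_of_one_lt 2
    (show (1 : ℝ) < (5 / 3) ^ 6 / (25 / 13) ^ 4 by norm_num)).eventually
    (gt_mem_nhds (show (0 : ℝ) < 1 / 23592960 by norm_num))
  rw [Filter.eventually_atTop] at h3 h4
  obtain ⟨N3, h3⟩ := h3
  obtain ⟨N4, h4⟩ := h4
  set i := max 1 (max N (max N3 N4)) with hi
  have hi1 : 1 ≤ i := le_max_left _ _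
  have hiN : N ≤ i := (le_max_left _ _).trans (le_max_right _ _)
  have hi3 : N3 ≤ i := (le_max_left _ _).trans ((le_max_right _ _).trans (le_max_right _ _))
  have hi4 : N4 ≤ i := (le_max_right _ _).trans ((le_max_right _ _).trans (le_max_right _ _))
  have g3 := h3 i hi3
  have g4 := h4 i hi4
  obtain ⟨n, hn, hle⟩ := exists_n i hi1 (by
    rw [div_lt_iff₀ (by positivity)] at g3
    linarith) (by
    rw [div_pow, div_div_eq_mul_div, div_lt_iff₀ (by positivity)] at g4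
    have e1 : ((5 / 3 : ℝ) ^ 6) ^ i = (5 / 3 : ℝ) ^ (6 * i) := by rw [← pow_mul]
    have e2 : ((25 / 13 : ℝ) ^ 4) ^ i = (25 / 13 : ℝ) ^ (4 * i) := by rw [← pow_mul]
    rw [e1, e2] at g4
    linarith)
  exact absurd hle (not_le.2 (hN n (hiN.trans hn)))

end Pool.Agent.TH491.BC
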