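import Mathlib

set_option autoImplicit false
open Finset

namespace Pool.Agent.TH491.ET

/-- second moment of the sums of a centred function over random samples -/
theorem second_moment {n : ℕ} (y : Fin n → ℝ) (hy : ∑ k, y k = 0) (hb : ∀ k, |y k| ≤ 1) (m : ℕ) :
    ∑ R : Fin m → Fin n, (∑ r, y (R r)) ^ 2 ≤ m * (n : ℝ) ^ m := by
  induction m with
  | zero => simp
  | succ m ih =>
    rw [← (Fin.consEquiv (fun _ : Fin (m + 1) => Fin n)).sum_comp, Fintype.sum_prod_type]
    have h1 : ∀ (k : Fin n) (R : Fin m → Fin n),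
        (∑ r, y ((Fin.consEquiv (fun _ : Fin (m + 1) => Fin n)) (k, R) r)) ^ 2 =
          y k ^ 2 + 2 * (y k * ∑ r, y (R r)) + (∑ r, y (R r)) ^ 2 := by
      intro k R
      rw [Fin.sum_univ_succ]
      simp only [Fin.consEquiv_apply, Fin.cons_zero, Fin.cons_succ]
      ring
    simp_rw [h1, Finset.sum_add_distrib, ← Finset.mul_sum]
    rw [← Finset.sum_mul, hy]
    simp only [Finset.sum_const, Finset.card_univ, Fintype.card_fin, Fintype.card_pi,
      Finset.prod_const, nsmul_eq_mul]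
    have h2 : ∀ k, y k ^ 2 ≤ 1 := by
      intro k
      rw [← sq_abs]
      exact pow_le_one₀ (abs_nonneg _) (hb k)
    have h3 : ∑ k, (((n ^ m : ℕ)) : ℝ) * y k ^ 2 ≤ ∑ _k : Fin n, (((n ^ m : ℕ)) : ℝ) :=
      Finset.sum_le_sum fun k _ => by
        have := h2 k
        have h4 : (0 : ℝ) ≤ ((n ^ m : ℕ) : ℝ) := by positivity
        nlinarith
    simp only [Finset.sum_const, Finset.card_univ, Fintype.card_fin, nsmul_eq_mul] at h3
    have h5 : (n : ℝ) * ∑ R : Fin m → Fin n, (∑ r, y (R r)) ^ 2 ≤ n * (m * (n : ℝ) ^ m) :=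
      mul_le_mul_of_nonneg_left ih (by positivity)
    push_cast at h3 ⊢
    rw [pow_succ]
    nlinarith

theorem card_dev {n : ℕ} (hn : 0 < n) (x : Fin n → ℝ) (h0 : ∀ k, 0 ≤ x k) (h1 : ∀ k, x k ≤ 1)
    (m : ℕ) (c : ℝ) (hc : 0 < c) :
    ((univ.filter (fun R : Fin m → Fin n =>
      c < |∑ r, x (R r) - m * ((∑ k, x k) / n)|)).card : ℝ) * c ^ 2 ≤ m * (n : ℝ) ^ m := by
  set μ : ℝ := (∑ k, x k) / n with hμ
  have hn' : (0 : ℝ) < n := by exact_mod_cast hn
  have hμ0 : 0 ≤ μ := div_nonneg (Finset.sum_nonneg fun k _ => h0 k) hn'.le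
  have hμ1 : μ ≤ 1 := by
    rw [hμ, div_le_one hn']
    calc ∑ k, x k ≤ ∑ _k : Fin n, (1 : ℝ) := Finset.sum_le_sum fun k _ => h1 k
      _ = n := by simp
  have h2 := second_moment (n := n) (fun k => x k - μ) (by
    rw [Finset.sum_sub_distrib]
    simp only [Finset.sum_const, Finset.card_univ, Fintype.card_fin, nsmul_eq_mul]
    rw [hμ]
    field_simp
    ring) (by
    intro k
    rw [abs_le]
    constructor
    · linarith [h0 k]
    · linarith [h1 k]) m
  refine le_trans ?_ h2
  rw [← nsmul_eq_mul, ← Finset.sum_const]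
  calc ∑ _R ∈ univ.filter (fun R : Fin m → Fin n => c < |∑ r, x (R r) - m * μ|), c ^ 2
      ≤ ∑ R ∈ univ.filter (fun R : Fin m → Fin n => c < |∑ r, x (R r) - m * μ|),
          (∑ r, (x (R r) - μ)) ^ 2 := by
        refine Finset.sum_le_sum fun R hR => ?_
        rw [Finset.mem_filter] at hR
        have h3 : ∑ r, (x (R r) - μ) = ∑ r, x (R r) - m * μ := by
          rw [Finset.sum_sub_distrib]
          simp
        rw [h3, ← sq_abs (∑ r, x (R r) - m * μ)]
        exact pow_le_pow_left₀ hc.le hR.2.le 2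
    _ ≤ _ := Finset.sum_le_sum_of_subset_of_nonneg (Finset.filter_subset _ _)
        fun R _ _ => sq_nonneg _

/-- choose a sample for which few pairs are badly estimated -/
theorem exists_sample {n : ℕ} (hn : 0 < n) (x : Fin n → Fin n → Fin n → ℝ)
    (h0 : ∀ i j k, 0 ≤ x i j k) (h1 : ∀ i j k, x i j k ≤ 1) (m : ℕ) (c : ℝ) (hc : 0 < c) :
    ∃ R : Fin m → Fin n,
      ((univ.filter (fun p : Fin n × Fin n =>
        c < |∑ r, x p.1 p.2 (R r) - m * ((∑ k, x p.1 p.2 k) / n)|)).card : ℝ) * c ^ 2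
        ≤ m * (n : ℝ) ^ 2 := by
  by_contra hcon
  push Not at hcon
  have hn' : (0 : ℝ) < n := by exact_mod_cast hn
  have hne : Nonempty (Fin n) := ⟨⟨0, hn⟩⟩
  have h2 : ∑ _R : Fin m → Fin n, (m * (n : ℝ) ^ 2) < ∑ R : Fin m → Fin n,
      ((univ.filter (fun p : Fin n × Fin n =>
        c < |∑ r, x p.1 p.2 (R r) - m * ((∑ k, x p.1 p.2 k) / n)|)).card : ℝ) * c ^ 2 :=
    Finset.sum_lt_sum_of_nonempty Finset.univ_nonempty fun R _ => hcon R
  have h3 : ∑ R : Fin m → Fin n,
      ((univ.filter (fun p : Fin n × Fin n =>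
        c < |∑ r, x p.1 p.2 (R r) - m * ((∑ k, x p.1 p.2 k) / n)|)).card : ℝ) * c ^ 2 =
      ∑ p : Fin n × Fin n, ((univ.filter (fun R : Fin m → Fin n =>
        c < |∑ r, x p.1 p.2 (R r) - m * ((∑ k, x p.1 p.2 k) / n)|)).card : ℝ) * c ^ 2 := by
    rw [← Finset.sum_mul, ← Finset.sum_mul]
    congr 1
    simp only [Finset.card_filter, Nat.cast_sum]
    exact Finset.sum_comm
  rw [h3] at h2
  have h4 : ∑ p : Fin n × Fin n, ((univ.filter (fun R : Fin m → Fin n =>
        c < |∑ r, x p.1 p.2 (R r) - m * ((∑ k, x p.1 p.2 k) / n)|)).card : ℝ) * c ^ 2 ≤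
      ∑ _p : Fin n × Fin n, m * (n : ℝ) ^ m :=
    Finset.sum_le_sum fun p _ => card_dev hn _ (h0 _ _) (h1 _ _) m c hc
  have h5 := h2.trans_le h4
  simp only [Finset.sum_const, Finset.card_univ, Fintype.card_fin, Fintype.card_pi,
      Finset.prod_const, nsmul_eq_mul, Fintype.card_prod] at h5
  push_cast at h5
  have h6 : (n : ℝ) ^ m * (m * (n : ℝ) ^ 2) = n * n * (m * (n : ℝ) ^ m) := by ring
  exact absurd h6 (ne_of_lt h5)

/-- A product over the pairs `i < j` written as a double product. -/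
theorem prod_pairs {n : ℕ} (f : Fin n → Fin n → ℝ) :
    ∏ i : Fin n, ∏ j : Fin n, (if i < j then f i j else 1) =
      ∏ p : {p : Fin n × Fin n // p.1 < p.2}, f p.1.1 p.1.2 := by
  rw [← Fintype.prod_prod_type' (f := fun i j : Fin n => if i < j then f i j else 1)]
  rw [← Finset.prod_filter]
  rw [Finset.prod_subtype (p := fun p : Fin n × Fin n => p.1 < p.2)]
  intro p
  simp

open Classical in
theorem sum_graph_le {n : ℕ} (Q : Fin n → Fin n → Bool → ℝ) (hQ : ∀ i j b, 0 ≤ Q i j b)
    (h1 : ∀ i j, Q i j true + Q i j false = 1) :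
    ∑ G : SimpleGraph (Fin n), ∏ i : Fin n, ∏ j : Fin n,
      (if i < j then Q i j (decide (G.Adj i j)) else 1) ≤ 1 := by
  simp_rw [prod_pairs (fun i j => Q i j (decide (_ : Prop)))]
  let F : SimpleGraph (Fin n) → ({p : Fin n × Fin n // p.1 < p.2} → Bool) :=
    fun G p => decide (G.Adj p.1.1 p.1.2)
  have hF : Function.Injective F := by
    intro G H h
    ext i j
    rcases lt_trichotomy i j with hij | hij | hij
    · have := congrFun h ⟨(i, j), hij⟩
      simpa [F] using this
    · subst hij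
      simp
    · have := congrFun h ⟨(j, i), hij⟩
      simpa [F, SimpleGraph.adj_comm] using this
  calc ∑ G : SimpleGraph (Fin n), ∏ p : {p : Fin n × Fin n // p.1 < p.2},
        Q p.1.1 p.1.2 (decide (G.Adj p.1.1 p.1.2))
      = ∑ G : SimpleGraph (Fin n), (fun f : {p : Fin n × Fin n // p.1 < p.2} → Bool =>
        ∏ p : {p : Fin n × Fin n // p.1 < p.2}, Q p.1.1 p.1.2 (f p)) (F G) := rfl
    _ = ∑ f ∈ univ.image F, (fun f : {p : Fin n × Fin n // p.1 < p.2} → Bool =>
        ∏ p : {p : Fin n × Fin n // p.1 < p.2}, Q p.1.1 p.1.2 (f p)) f := by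
        rw [Finset.sum_image (fun a _ b _ h => hF h)]
    _ ≤ ∑ f : {p : Fin n × Fin n // p.1 < p.2} → Bool,
        ∏ p : {p : Fin n × Fin n // p.1 < p.2}, Q p.1.1 p.1.2 (f p) :=
        Finset.sum_le_sum_of_subset_of_nonneg (Finset.subset_univ _)
          fun f _ _ => Finset.prod_nonneg fun p _ => hQ _ _ _
    _ = ∏ p : {p : Fin n × Fin n // p.1 < p.2}, ∑ b : Bool, Q p.1.1 p.1.2 b := by
        rw [Finset.prod_univ_sum, Fintype.piFinset_univ]
    _ = 1 := by
        refine Finset.prod_eq_one fun p _ => ?_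
        rw [Fintype.sum_bool]
        exact h1 _ _
    _ ≤ 1 := le_rfl

/-- agreement indicator -/
noncomputable def ag {n : ℕ} (G : SimpleGraph (Fin n)) (i j k : Fin n) : ℝ :=
  open Classical in if (G.Adj i k ↔ G.Adj j k) then 1 else 0

/-- predicted probability -/
noncomputable def pr {n m : ℕ} (I : Fin m → Fin n → Bool) (i j : Fin n) : ℝ :=
  (∑ r, (if I r i = I r j then (1 : ℝ) else 0)) / m

noncomputable def Qf {n m : ℕ} (η : ℝ) (I : Fin m → Fin n → Bool) (i j : Fin n) (b : Bool) : ℝ :=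
  (1 - 2 * η) * (if b then 1 - pr I i j else pr I i j) + η

theorem pr_nonneg {n m : ℕ} (I : Fin m → Fin n → Bool) (i j : Fin n) : 0 ≤ pr I i j := by
  unfold pr
  refine div_nonneg (Finset.sum_nonneg fun r _ => ?_) (by positivity)
  split_ifs <;> norm_num

theorem pr_le {n m : ℕ} (I : Fin m → Fin n → Bool) (i j : Fin n) : pr I i j ≤ 1 := by
  unfold pr
  refine div_le_one_of_le₀ ?_ (by positivity)
  calc ∑ r : Fin m, (if I r i = I r j then (1 : ℝ) else 0) ≤ ∑ _r : Fin m, (1 : ℝ) :=
        Finset.sum_le_sum fun r _ => by split_ifs <;> norm_num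
    _ = m := by simp

theorem Qf_ge {n m : ℕ} (η : ℝ) (hη : 2 * η ≤ 1) (I : Fin m → Fin n → Bool) (i j : Fin n)
    (b : Bool) : η ≤ Qf η I i j b := by
  unfold Qf
  have h1 := pr_nonneg I i j
  have h2 := pr_le I i j
  have h3 : (0 : ℝ) ≤ (if b then 1 - pr I i j else pr I i j) := by
    split_ifs <;> linarith
  nlinarith

open Classical in
/-- the fraction of even triples is controlled by the agreement average -/
theorem phi_le {n : ℕ} (hn : 3 ≤ n) (G : SimpleGraph (Fin n)) (i j : Fin n) (hij : i < j) :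
    (((Finset.univ.filter (fun k : Fin n => k ≠ i ∧ k ≠ j ∧
                Even ((if G.Adj i j then 1 else 0) + (if G.Adj i k then 1 else 0)
                  + (if G.Adj j k then 1 else 0) : ℕ))).card : ℝ) / ((n : ℝ) - 2)) ≤
      if G.Adj i j then 1 - (∑ k, ag G i j k) / n else (∑ k, ag G i j k) / n := by
  have hn' : (3 : ℝ) ≤ n := by exact_mod_cast hn
  have hne : i ≠ j := ne_of_lt hij
  have hS : ∑ k, ag G i j k = ∑ k ∈ univ.filter (fun k : Fin n => k ≠ i ∧ k ≠ j), ag G i j k
      + (ag G i j i + ag G i j j) := by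
    rw [← Finset.sum_filter_add_sum_filter_not univ (fun k : Fin n => k ≠ i ∧ k ≠ j)]
    congr 1
    have : (univ.filter (fun k : Fin n => ¬ (k ≠ i ∧ k ≠ j))) = {i, j} := by
      ext k
      simp only [Finset.mem_filter, Finset.mem_univ, true_and, Finset.mem_insert,
        Finset.mem_singleton]
      tauto
    rw [this, Finset.sum_pair hne]
  have hcard : (univ.filter (fun k : Fin n => k ≠ i ∧ k ≠ j)).card = n - 2 := by
    have : (univ.filter (fun k : Fin n => k ≠ i ∧ k ≠ j)) = ((univ.erase i).erase j) := by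
      ext k
      simp only [Finset.mem_filter, Finset.mem_univ, true_and, Finset.mem_erase]
      tauto
    rw [this, Finset.card_erase_of_mem, Finset.card_erase_of_mem (Finset.mem_univ _)]
    · simp
      omega
    · simp [hne.symm]
  have hS1 : ∑ k, ag G i j k ≤ n := by
    calc ∑ k, ag G i j k ≤ ∑ _k : Fin n, (1 : ℝ) :=
          Finset.sum_le_sum fun k _ => by unfold ag; split_ifs <;> norm_num
      _ = n := by simp
  have hS0 : 0 ≤ ∑ k, ag G i j k :=
    Finset.sum_nonneg fun k _ => by unfold ag; split_ifs <;> norm_num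
  have hcf : ((univ.filter (fun k : Fin n => k ≠ i ∧ k ≠ j ∧
                Even ((if G.Adj i j then 1 else 0) + (if G.Adj i k then 1 else 0)
                  + (if G.Adj j k then 1 else 0) : ℕ))).card : ℝ) =
        ∑ k ∈ univ.filter (fun k : Fin n => k ≠ i ∧ k ≠ j),
          (if G.Adj i j then 1 - ag G i j k else ag G i j k) := by
    have h1 : (univ.filter (fun k : Fin n => k ≠ i ∧ k ≠ j ∧
                Even ((if G.Adj i j then 1 else 0) + (if G.Adj i k then 1 else 0)
                  + (if G.Adj j k then 1 else 0) : ℕ))) =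
        (univ.filter (fun k : Fin n => k ≠ i ∧ k ≠ j)).filter (fun k : Fin n =>
                Even ((if G.Adj i j then 1 else 0) + (if G.Adj i k then 1 else 0)
                  + (if G.Adj j k then 1 else 0) : ℕ)) := by
      ext k
      simp only [Finset.mem_filter, Finset.mem_univ, true_and, and_assoc]
    rw [h1, Finset.card_filter, Nat.cast_sum]
    refine Finset.sum_congr rfl fun k _ => ?_
    unfold ag
    by_cases a1 : G.Adj i j <;> by_cases a2 : G.Adj i k <;> by_cases a3 : G.Adj j k <;>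
      simp [a1, a2, a3, Nat.even_iff]
  rw [hcf]
  have hn2 : (0 : ℝ) < (n : ℝ) - 2 := by linarith
  have hn0 : (0 : ℝ) < (n : ℝ) := by linarith
  have hc2 : (((n - 2 : ℕ)) : ℝ) = (n : ℝ) - 2 := by
    rw [Nat.cast_sub (by omega)]
    norm_num
  by_cases hadj : G.Adj i j
  · simp only [if_pos hadj]
    have e1 : ag G i j i = 0 := by
      unfold ag
      rw [if_neg]
      simp [hadj.symm]
    have e2 : ag G i j j = 0 := by
      unfold ag
      rw [if_neg]
      simp [hadj]
    rw [e1, e2] at hS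
    rw [Finset.sum_sub_distrib, Finset.sum_const, hcard, nsmul_eq_mul, hc2, mul_one]
    rw [add_zero, add_zero] at hS
    rw [← hS, sub_div, div_self hn2.ne']
    have : (∑ k, ag G i j k) / (n : ℝ) ≤ (∑ k, ag G i j k) / ((n : ℝ) - 2) :=
      div_le_div_of_nonneg_left hS0 hn2 (by linarith)
    linarith
  · simp only [if_neg hadj]
    have hadj' : ¬ G.Adj j i := fun h => hadj h.symm
    have e1 : ag G i j i = 1 := by
      unfold ag
      rw [if_pos]
      simp [hadj']
    have e2 : ag G i j j = 1 := by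
      unfold ag
      rw [if_pos]
      simp [hadj]
    rw [e1, e2] at hS
    have hS' : ∑ k ∈ univ.filter (fun k : Fin n => k ≠ i ∧ k ≠ j), ag G i j k
        = ∑ k, ag G i j k - 2 := by linarith
    rw [hS', div_le_div_iff₀ hn2 hn0]
    nlinarith

open Classical in
/-- the reveal map -/
noncomputable def inf {n m : ℕ} (G : SimpleGraph (Fin n)) (R : Fin m → Fin n) :
    Fin m → Fin n → Bool := fun r v => decide (G.Adj (R r) v)

theorem pr_inf {n m : ℕ} (G : SimpleGraph (Fin n)) (R : Fin m → Fin n) (i j : Fin n) :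
    pr (inf G R) i j = (∑ r, ag G i j (R r)) / m := by
  unfold pr inf ag
  congr 1
  refine Finset.sum_congr rfl fun r _ => ?_
  have h1 : G.Adj (R r) i ↔ G.Adj i (R r) := SimpleGraph.adj_comm G _ _
  have h2 : G.Adj (R r) j ↔ G.Adj j (R r) := SimpleGraph.adj_comm G _ _
  by_cases a1 : G.Adj i (R r) <;> by_cases a2 : G.Adj j (R r) <;> simp [h1, h2, a1, a2]

open Classical in
/-- The factor at `(i, j)` for the graph `G`. -/
noncomputable def phi {n : ℕ} (G : SimpleGraph (Fin n)) (i j : Fin n) : ℝ :=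
  (((Finset.univ.filter (fun k : Fin n => k ≠ i ∧ k ≠ j ∧
                Even ((if G.Adj i j then 1 else 0) + (if G.Adj i k then 1 else 0)
                  + (if G.Adj j k then 1 else 0) : ℕ))).card : ℝ) / ((n : ℝ) - 2))

theorem phi_nonneg {n : ℕ} (hn : 3 ≤ n) (G : SimpleGraph (Fin n)) (i j : Fin n) :
    0 ≤ phi G i j := by
  have hn' : (3 : ℝ) ≤ n := by exact_mod_cast hn
  unfold phi
  exact div_nonneg (by positivity) (by linarith)

theorem ag_nonneg {n : ℕ} (G : SimpleGraph (Fin n)) (i j k : Fin n) : 0 ≤ ag G i j k := by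
  unfold ag; split_ifs <;> norm_num

theorem ag_le {n : ℕ} (G : SimpleGraph (Fin n)) (i j k : Fin n) : ag G i j k ≤ 1 := by
  unfold ag; split_ifs <;> norm_num

open Classical in
/-- the per-graph comparison -/
theorem graph_le {n : ℕ} (hn : 3 ≤ n) (G : SimpleGraph (Fin n)) (m : ℕ) (hm : 0 < m) (η : ℝ)
    (hη : 0 < η) (hη1 : 2 * η < 1) :
    ∃ I : Fin m → Fin n → Bool,
      (∏ i : Fin n, ∏ j : Fin n, (if i < j then phi G i j else 1)) ≤
        ((1 - 2 * η)⁻¹ ^ (n * n) * (η⁻¹) ^ ((n : ℝ) ^ 2 / (m * η ^ 2))) *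
        ∏ i : Fin n, ∏ j : Fin n, (if i < j then Qf η I i j (decide (G.Adj i j)) else 1) := by
  have hm' : (0 : ℝ) < m := by exact_mod_cast hm
  have hn' : (3 : ℝ) ≤ n := by exact_mod_cast hn
  have hn0 : (0 : ℝ) < (n : ℝ) := by linarith
  obtain ⟨R, hR⟩ := exists_sample (n := n) (by omega) (fun i j k => ag G i j k)
    (fun i j k => ag_nonneg G i j k) (fun i j k => ag_le G i j k) m (m * η) (by positivity)
  refine ⟨inf G R, ?_⟩
  set bad : Finset (Fin n × Fin n) := (univ.filter (fun p : Fin n × Fin n =>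
        m * η < |∑ r, ag G p.1 p.2 (R r) - m * ((∑ k, ag G p.1 p.2 k) / n)|)) with hbad
  have hbc : (bad.card : ℝ) ≤ (n : ℝ) ^ 2 / (m * η ^ 2) := by
    rw [le_div_iff₀ (by positivity)]
    have h1 : (bad.card : ℝ) * (m * η) ^ 2 ≤ m * (n : ℝ) ^ 2 := hR
    have h2 : m * ((bad.card : ℝ) * (m * η ^ 2)) ≤ m * (n : ℝ) ^ 2 := by
      calc m * ((bad.card : ℝ) * (m * η ^ 2)) = (bad.card : ℝ) * (m * η) ^ 2 := by ring
        _ ≤ _ := h1
    exact le_of_mul_le_mul_left h2 hm'
  have hpt : ∀ i j : Fin n, (if i < j then phi G i j else 1) ≤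
      ((1 - 2 * η)⁻¹ * (if (i, j) ∈ bad then η⁻¹ else 1)) *
        (if i < j then Qf η (inf G R) i j (decide (G.Adj i j)) else 1) := by
    intro i j
    have ha : 0 < 1 - 2 * η := by linarith
    have ha1 : 1 ≤ (1 - 2 * η)⁻¹ := by
      rw [one_le_inv₀ ha]
      linarith
    have hη2 : 1 ≤ η⁻¹ := by
      rw [one_le_inv₀ hη]
      linarith
    by_cases hij : i < j
    · rw [if_pos hij, if_pos hij]
      have hphi := phi_le hn G i j hij
      change phi G i j ≤ _ at hphi
      have hQ := Qf_ge η hη1.le (inf G R) i j (decide (G.Adj i j))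
      have hs1 : (∑ k, ag G i j k) / n ≤ 1 := by
        rw [div_le_one hn0]
        calc ∑ k, ag G i j k ≤ ∑ _k : Fin n, (1 : ℝ) :=
              Finset.sum_le_sum fun k _ => ag_le G i j k
          _ = n := by simp
      have hs0 : 0 ≤ (∑ k, ag G i j k) / n :=
        div_nonneg (Finset.sum_nonneg fun k _ => ag_nonneg G i j k) hn0.le
      by_cases hb : (i, j) ∈ bad
      · rw [if_pos hb]
        have h1 : phi G i j ≤ 1 := by
          refine hphi.trans ?_
          split_ifs <;> linarith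
        have h2 : 1 ≤ η⁻¹ * Qf η (inf G R) i j (decide (G.Adj i j)) := by
          rw [inv_mul_eq_div, le_div_iff₀ hη]
          linarith
        calc phi G i j ≤ 1 := h1
          _ ≤ η⁻¹ * Qf η (inf G R) i j (decide (G.Adj i j)) := h2
          _ ≤ (1 - 2 * η)⁻¹ * (η⁻¹ * Qf η (inf G R) i j (decide (G.Adj i j))) :=
            le_mul_of_one_le_left (by linarith) ha1
          _ = _ := by ring
      · rw [if_neg hb, mul_one, inv_mul_eq_div, le_div_iff₀ ha]
        rw [hbad, Finset.mem_filter] at hb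
        simp only [Finset.mem_univ, true_and, not_lt] at hb
        have h3 : |pr (inf G R) i j - (∑ k, ag G i j k) / n| ≤ η := by
          rw [pr_inf]
          have : (∑ r, ag G i j (R r)) / m - (∑ k, ag G i j k) / n =
              (∑ r, ag G i j (R r) - m * ((∑ k, ag G i j k) / n)) / m := by
            field_simp
          rw [this, abs_div, abs_of_pos hm', div_le_iff₀ hm']
          linarith
        rw [abs_le] at h3
        unfold Qf
        have h4 : phi G i j ≤ (if decide (G.Adj i j) = true then 1 - pr (inf G R) i j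
            else pr (inf G R) i j) + η := by
          refine hphi.trans ?_
          by_cases hadj : G.Adj i j
          · simp only [hadj, if_true, decide_true]
            linarith [h3.1, h3.2]
          · simp only [hadj, if_false, decide_false]
            norm_num
            linarith [h3.1, h3.2]
        nlinarith
    · rw [if_neg hij, if_neg hij, mul_one]
      split_ifs
      · nlinarith
      · linarith
  have hphi0 : ∀ i j : Fin n, (0 : ℝ) ≤ (if i < j then phi G i j else 1) := by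
    intro i j
    split_ifs
    · exact phi_nonneg hn G i j
    · norm_num
  have hQ0 : ∀ i j : Fin n, (0 : ℝ) ≤
      (if i < j then Qf η (inf G R) i j (decide (G.Adj i j)) else 1) := by
    intro i j
    split_ifs
    · have := Qf_ge η hη1.le (inf G R) i j (decide (G.Adj i j))
      linarith
    · norm_num
  calc (∏ i : Fin n, ∏ j : Fin n, (if i < j then phi G i j else 1))
      ≤ ∏ i : Fin n, ∏ j : Fin n, (((1 - 2 * η)⁻¹ * (if (i, j) ∈ bad then η⁻¹ else 1)) *
        (if i < j then Qf η (inf G R) i j (decide (G.Adj i j)) else 1)) :=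
        Finset.prod_le_prod (fun i _ => Finset.prod_nonneg fun j _ => hphi0 i j)
          fun i _ => Finset.prod_le_prod (fun j _ => hphi0 i j) fun j _ => hpt i j
    _ = ((1 - 2 * η)⁻¹ ^ (n * n) * (η⁻¹) ^ (bad.card)) *
        ∏ i : Fin n, ∏ j : Fin n, (if i < j then Qf η (inf G R) i j (decide (G.Adj i j)) else 1) := by
        simp_rw [Finset.prod_mul_distrib]
        congr 1
        congr 1
        · simp [← pow_mul]
        · rw [← Fintype.prod_prod_type' (f := fun i j : Fin n => if (i, j) ∈ bad then η⁻¹ else 1)]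
          rw [← Finset.prod_filter, Finset.prod_const]
          congr 2
          ext p
          simp
    _ ≤ _ := by
        refine mul_le_mul_of_nonneg_right ?_
          (Finset.prod_nonneg fun i _ => Finset.prod_nonneg fun j _ => hQ0 i j)
        refine mul_le_mul_of_nonneg_left ?_ (by
          have : 0 < 1 - 2 * η := by linarith
          positivity)
        rw [← Real.rpow_natCast]
        refine Real.rpow_le_rpow_of_exponent_le ?_ hbc
        rw [one_le_inv₀ hη]
        linarith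

open Classical in
theorem sum_le {n : ℕ} (hn : 3 ≤ n) (m : ℕ) (hm : 0 < m) (η : ℝ)
    (hη : 0 < η) (hη1 : 2 * η < 1) :
    ∑ G : SimpleGraph (Fin n), (∏ i : Fin n, ∏ j : Fin n, (if i < j then phi G i j else 1)) ≤
        ((1 - 2 * η)⁻¹ ^ (n * n) * (η⁻¹) ^ ((n : ℝ) ^ 2 / (m * η ^ 2))) * 2 ^ (m * n) := by
  have ha : 0 < 1 - 2 * η := by linarith
  set K : ℝ := ((1 - 2 * η)⁻¹ ^ (n * n) * (η⁻¹) ^ ((n : ℝ) ^ 2 / (m * η ^ 2))) with hK
  have hK0 : 0 ≤ K := by positivity
  have hQ0 : ∀ (G : SimpleGraph (Fin n)) (I : Fin m → Fin n → Bool), (0 : ℝ) ≤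
      ∏ i : Fin n, ∏ j : Fin n, (if i < j then Qf η I i j (decide (G.Adj i j)) else 1) := by
    intro G I
    refine Finset.prod_nonneg fun i _ => Finset.prod_nonneg fun j _ => ?_
    split_ifs
    · have := Qf_ge η hη1.le I i j (decide (G.Adj i j))
      linarith
    · norm_num
  calc ∑ G : SimpleGraph (Fin n), (∏ i : Fin n, ∏ j : Fin n, (if i < j then phi G i j else 1))
      ≤ ∑ G : SimpleGraph (Fin n), ∑ I : Fin m → Fin n → Bool, K *
        ∏ i : Fin n, ∏ j : Fin n, (if i < j then Qf η I i j (decide (G.Adj i j)) else 1) := by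
        refine Finset.sum_le_sum fun G _ => ?_
        obtain ⟨I, hI⟩ := graph_le hn G m hm η hη hη1
        exact hI.trans (Finset.single_le_sum (f := fun I : Fin m → Fin n → Bool => K *
          ∏ i : Fin n, ∏ j : Fin n, (if i < j then Qf η I i j (decide (G.Adj i j)) else 1))
          (fun I _ => mul_nonneg hK0 (hQ0 G I)) (Finset.mem_univ I))
    _ = ∑ I : Fin m → Fin n → Bool, K * ∑ G : SimpleGraph (Fin n),
        ∏ i : Fin n, ∏ j : Fin n, (if i < j then Qf η I i j (decide (G.Adj i j)) else 1) := by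
        rw [Finset.sum_comm]
        simp_rw [Finset.mul_sum]
    _ ≤ ∑ _I : Fin m → Fin n → Bool, K * 1 := by
        refine Finset.sum_le_sum fun I _ => mul_le_mul_of_nonneg_left ?_ hK0
        refine sum_graph_le (fun i j b => Qf η I i j b) ?_ ?_
        · intro i j b
          have := Qf_ge η hη1.le I i j b
          linarith
        · intro i j
          simp only [Qf, if_true]
          norm_num
          ring
    _ = K * 2 ^ (m * n) := by
        simp only [Finset.sum_const, Finset.card_univ, Fintype.card_fin, Fintype.card_pi,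
          Fintype.card_bool, Finset.prod_const, nsmul_eq_mul, mul_one]
        push_cast
        rw [← pow_mul, mul_comm n m]
        ring

open Classical in
theorem main : ∀ ε : ℝ, 0 < ε → ∃ N : ℕ, ∀ n : ℕ, N ≤ n →
    ∑ G : SimpleGraph (Fin n), (∏ i : Fin n, ∏ j : Fin n, (if i < j then phi G i j else 1)) ≤
      (2 : ℝ) ^ (ε * (n : ℝ) ^ 2) := by
  intro ε hε
  -- choose η
  set a : ℝ := (2 : ℝ) ^ (-(ε / 3)) with ha
  have ha0 : 0 < a := by positivity
  have ha1 : a < 1 := Real.rpow_lt_one_of_one_lt_of_neg (by norm_num) (by linarith)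
  set η : ℝ := (1 - a) / 2 with hη
  have hη0 : 0 < η := by rw [hη]; linarith
  have hη1 : 2 * η < 1 := by rw [hη]; linarith
  have haη : 1 - 2 * η = a := by rw [hη]; ring
  -- choose m
  obtain ⟨m, hm⟩ := exists_nat_gt (3 * Real.logb 2 η⁻¹ / (ε * η ^ 2))
  have hlog : 0 ≤ Real.logb 2 η⁻¹ := by
    apply Real.logb_nonneg (by norm_num)
    rw [one_le_inv₀ hη0]
    linarith
  have hm0 : (0 : ℝ) < m := lt_of_le_of_lt (by positivity) hm
  have hm0' : 0 < m := by exact_mod_cast hm0
  obtain ⟨N, hN⟩ := exists_nat_gt (3 * (m : ℝ) / ε)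
  refine ⟨max 3 N, fun n hn => ?_⟩
  have hn3 : 3 ≤ n := le_trans (le_max_left _ _) hn
  have hnN : (N : ℝ) ≤ n := by exact_mod_cast le_trans (le_max_right _ _) hn
  have hn0 : (0 : ℝ) < n := by
    have : (0 : ℕ) < n := by omega
    exact_mod_cast this
  refine (sum_le hn3 m hm0' η hη0 hη1).trans ?_
  rw [haη]
  have e1 : (a⁻¹ : ℝ) ^ (n * n) = (2 : ℝ) ^ ((ε / 3) * (n : ℝ) ^ 2) := by
    rw [ha, ← Real.rpow_neg (by norm_num), neg_neg, ← Real.rpow_natCast, ← Real.rpow_mul (by norm_num)]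
    congr 1
    push_cast
    ring
  have e2 : (η⁻¹ : ℝ) ^ ((n : ℝ) ^ 2 / (m * η ^ 2)) ≤ (2 : ℝ) ^ ((ε / 3) * (n : ℝ) ^ 2) := by
    have h1 : (η⁻¹ : ℝ) = (2 : ℝ) ^ (Real.logb 2 η⁻¹) := by
      rw [Real.rpow_logb (by norm_num) (by norm_num) (by positivity)]
    rw [h1, ← Real.rpow_mul (by norm_num)]
    refine Real.rpow_le_rpow_of_exponent_le (by norm_num) ?_
    rw [div_lt_iff₀ (by positivity)] at hm
    rw [mul_div_assoc', div_le_iff₀ (by positivity)]
    nlinarith [sq_nonneg (n : ℝ), pow_pos hn0 2]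
  have e3 : (2 : ℝ) ^ (m * n) ≤ (2 : ℝ) ^ ((ε / 3) * (n : ℝ) ^ 2) := by
    rw [← Real.rpow_natCast]
    refine Real.rpow_le_rpow_of_exponent_le (by norm_num) ?_
    rw [div_lt_iff₀ hε] at hN
    push_cast
    have h5 : 3 * (m : ℝ) ≤ n * ε := hN.le.trans (mul_le_mul_of_nonneg_right hnN hε.le)
    nlinarith
  calc (a⁻¹ : ℝ) ^ (n * n) * (η⁻¹ : ℝ) ^ ((n : ℝ) ^ 2 / (m * η ^ 2)) * 2 ^ (m * n)
      ≤ (2 : ℝ) ^ ((ε / 3) * (n : ℝ) ^ 2) * (2 : ℝ) ^ ((ε / 3) * (n : ℝ) ^ 2) *
        (2 : ℝ) ^ ((ε / 3) * (n : ℝ) ^ 2) := by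
        rw [e1]
        gcongr
    _ = (2 : ℝ) ^ (ε * (n : ℝ) ^ 2) := by
        rw [← Real.rpow_add (by norm_num), ← Real.rpow_add (by norm_num)]
        congr 1
        ring

end Pool.Agent.TH491.ET
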