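import Mathlib

set_option autoImplicit false
open Finset

namespace Pool.Agent.TH491.CS

variable {n : ℕ}

/-- the 1-coset -/
def T (i j : Fin n) : Finset (Equiv.Perm (Fin n)) := univ.filter (fun σ => σ i = j)

theorem mem_T {i j : Fin n} {σ : Equiv.Perm (Fin n)} : σ ∈ T i j ↔ σ i = j := by simp [T]

theorem card_T_eq (i j j' : Fin n) : (T i j).card = (T i j').card := by
  refine Finset.card_bij (fun σ _ => Equiv.swap j j' * σ) ?_ ?_ ?_
  · intro σ h
    rw [mem_T] at h ⊢
    simp [h]
  · intro a _ b _ h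
    exact mul_left_cancel h
  · intro σ h
    rw [mem_T] at h
    refine ⟨Equiv.swap j j' * σ, ?_, ?_⟩
    · rw [mem_T]
      simp [h]
    · rw [← mul_assoc, Equiv.swap_mul_self, one_mul]

theorem card_T (i j : Fin n) : (T i j).card * n = n.factorial := by
  have h1 : (univ : Finset (Equiv.Perm (Fin n))).card = ∑ l : Fin n, (T i l).card :=
    Finset.card_eq_sum_card_fiberwise (f := fun σ : Equiv.Perm (Fin n) => σ i) (t := univ)
      (fun _ _ => Finset.mem_coe.2 (Finset.mem_univ _))
  rw [Finset.card_univ, Fintype.card_perm, Fintype.card_fin] at h1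
  rw [h1, Finset.sum_congr rfl (fun l _ => card_T_eq i l j), Finset.sum_const, Finset.card_univ,
    Fintype.card_fin, smul_eq_mul, mul_comm]

theorem card_T' (hn : 1 ≤ n) (i j : Fin n) : (T i j).card = (n - 1).factorial := by
  have h := card_T i j
  have h2 : n.factorial = (n - 1).factorial * n := by
    obtain ⟨m, rfl⟩ : ∃ m, n = m + 1 := ⟨n - 1, by omega⟩
    rw [Nat.factorial_succ]
    simp [mul_comm]
  rw [h2] at h
  exact Nat.eq_of_mul_eq_mul_right (by omega) h

theorem card_TT_eq (i j k l l' : Fin n) (hl : l ≠ j) (hl' : l' ≠ j) :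
    (T i j ∩ T k l).card = (T i j ∩ T k l').card := by
  refine Finset.card_bij (fun σ _ => Equiv.swap l l' * σ) ?_ ?_ ?_
  · intro σ h
    rw [Finset.mem_inter, mem_T, mem_T] at h ⊢
    simp [h.1, h.2, Equiv.swap_apply_of_ne_of_ne hl.symm hl'.symm]
  · intro a _ b _ h
    exact mul_left_cancel h
  · intro σ h
    rw [Finset.mem_inter, mem_T, mem_T] at h
    refine ⟨Equiv.swap l l' * σ, ?_, ?_⟩
    · rw [Finset.mem_inter, mem_T, mem_T]
      simp [h.1, h.2, Equiv.swap_apply_of_ne_of_ne hl.symm hl'.symm]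
    · rw [← mul_assoc, Equiv.swap_mul_self, one_mul]

theorem card_TT (hn : 2 ≤ n) (i j k l : Fin n) (hik : i ≠ k) (hjl : l ≠ j) :
    (T i j ∩ T k l).card = (n - 2).factorial := by
  have h1 : (T i j).card = ∑ l' : Fin n, (T i j ∩ T k l').card := by
    rw [Finset.card_eq_sum_card_fiberwise (f := fun σ : Equiv.Perm (Fin n) => σ k) (t := univ)
      (fun _ _ => Finset.mem_coe.2 (Finset.mem_univ _))]
    refine Finset.sum_congr rfl fun l' _ => ?_
    congr 1
    ext σ
    simp [T]
  have h2 : ∑ l' : Fin n, (T i j ∩ T k l').card =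
      ∑ l' ∈ univ.erase j, (T i j ∩ T k l').card := by
    rw [← Finset.sum_erase_add _ _ (Finset.mem_univ j)]
    have : T i j ∩ T k j = ∅ := by
      ext σ
      simp only [Finset.mem_inter, mem_T, Finset.notMem_empty, iff_false]
      rintro ⟨a, b⟩
      exact hik (σ.injective (a.trans b.symm))
    rw [this]
    simp
  rw [h2, Finset.sum_congr rfl (fun l' hl' => card_TT_eq i j k l' l (Finset.ne_of_mem_erase hl') hjl),
    Finset.sum_const, Finset.card_erase_of_mem (Finset.mem_univ _), Finset.card_univ,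
    Fintype.card_fin, smul_eq_mul, card_T' (by omega)] at h1
  have h3 : (n - 1).factorial = (n - 1) * (n - 2).factorial := by
    obtain ⟨m, rfl⟩ : ∃ m, n = m + 2 := ⟨n - 2, by omega⟩
    exact Nat.factorial_succ m
  rw [h3] at h1
  exact (Nat.eq_of_mul_eq_mul_left (by omega) h1).symm

/-- pairs containing `a` -/
def PW (a : Fin n) : Finset (Fin n × Fin n) :=
  univ.filter (fun p => p.1 < p.2 ∧ (p.1 = a ∨ p.2 = a))

theorem card_PW (a : Fin n) : (PW a).card ≤ n - 1 := by
  have h : (PW a).card ≤ (univ.erase a).card := by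
    refine Finset.card_le_card_of_injOn (fun p => if p.1 = a then p.2 else p.1) ?_ ?_
    · intro p hp
      simp only [PW, Finset.coe_filter, Finset.mem_univ, true_and, Set.mem_ofPred_eq] at hp
      simp only [Finset.coe_erase, Finset.coe_univ, Set.mem_sdiff, Set.mem_univ, true_and,
        Set.mem_singleton_iff]
      split_ifs with h
      · intro h2
        have := hp.1
        rw [h, h2] at this
        exact lt_irrefl _ this
      · exact h
    · rintro ⟨p1, p2⟩ hp ⟨q1, q2⟩ hq h
      simp only [PW, Finset.coe_filter, Finset.mem_univ, true_and, Set.mem_ofPred_eq] at hp hq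
      simp only at h
      obtain ⟨hp1, hp2⟩ := hp
      obtain ⟨hq1, hq2⟩ := hq
      split_ifs at h with h1 h2 h2
      · rw [h1, h2, h]
      · have h3 : q2 = a := hq2.resolve_left h2
        subst h1
        subst h3
        rw [h] at hp1
        exact absurd hp1 (not_lt.2 hq1.le)
      · have h3 : p2 = a := hp2.resolve_left h1
        subst h2
        subst h3
        rw [← h] at hq1
        exact absurd hq1 (not_lt.2 hp1.le)
      · have h3 : p2 = a := hp2.resolve_left h1
        have h4 : q2 = a := hq2.resolve_left h2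
        rw [h, h3, h4]
  rwa [Finset.card_erase_of_mem (Finset.mem_univ _), Finset.card_univ, Fintype.card_fin] at h

/-- the complement of the counterexample -/
def D (a b : Fin n) : Finset (Equiv.Perm (Fin n)) := (T a a ∪ T b b) ∪ (T a b ∩ T b a)

theorem card_D (hn : 2 ≤ n) {a b : Fin n} (hab : a ≠ b) : (D a b).card = 2 * (n - 1).factorial := by
  unfold D
  rw [Finset.card_union_of_disjoint]
  · have h1 := Finset.card_union_add_card_inter (T a a) (T b b)
    rw [card_T' (by omega), card_T' (by omega), card_TT hn a a b b hab hab.symm] at h1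
    rw [card_TT hn a b b a hab hab]
    omega
  · rw [Finset.disjoint_left]
    intro σ h1 h2
    rw [Finset.mem_union, mem_T, mem_T] at h1
    rw [Finset.mem_inter, mem_T, mem_T] at h2
    rcases h1 with h | h
    · exact hab (h.symm.trans h2.1)
    · exact hab (h2.2.symm.trans h)

/-- boundary of the complement of `D` -/
theorem boundary_le (hn : 2 ≤ n) {a b : Fin n} (hab : a ≠ b) :
    ((((D a b)ᶜ ×ˢ (Finset.univ.filter (fun p : Fin n × Fin n => p.1 < p.2))).filter
            (fun x => x.1 * Equiv.swap x.2.1 x.2.2 ∉ (D a b)ᶜ)).card : ℕ) ≤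
      2 * n * (n - 1).factorial := by
  have h1 : (((D a b)ᶜ ×ˢ (Finset.univ.filter (fun p : Fin n × Fin n => p.1 < p.2))).filter
            (fun x => x.1 * Equiv.swap x.2.1 x.2.2 ∉ (D a b)ᶜ)).card ≤
      ((T a a ×ˢ PW a) ∪ (T b b ×ˢ PW b) ∪ ((T a b ∩ T b a) ×ˢ (PW a ∪ PW b))).card := by
    refine Finset.card_le_card_of_injOn (fun x => (x.1 * Equiv.swap x.2.1 x.2.2, x.2)) ?_ ?_
    · rintro ⟨σ, i, j⟩ hx
      simp only [Finset.coe_filter, Finset.mem_product, Finset.mem_compl, Finset.mem_filter,
        Finset.mem_univ, true_and, not_not, Set.mem_ofPred_eq] at hx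
      obtain ⟨⟨h1, hij⟩, h2⟩ := hx
      simp only [Finset.coe_union, Set.mem_union, Finset.mem_coe, Finset.mem_product]
      set τ := σ * Equiv.swap i j with hτ
      have hσ : σ = τ * Equiv.swap i j := by
        rw [hτ, mul_assoc, Equiv.swap_mul_self, mul_one]
      have key : ∀ c : Fin n, c ≠ i → c ≠ j → σ c = τ c := by
        intro c h3 h4
        rw [hσ, Equiv.Perm.mul_apply, Equiv.swap_apply_of_ne_of_ne h3 h4]
      unfold D at h1 h2
      simp only [Finset.mem_union, Finset.mem_inter, mem_T, not_or] at h1 h2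
      simp only [Finset.mem_union, Finset.mem_inter, mem_T, PW, Finset.mem_filter, Finset.mem_univ,
        true_and]
      rcases h2 with (h2 | h2) | h2
      · left; left
        refine ⟨h2, hij, ?_⟩
        by_contra hcon
        push Not at hcon
        exact h1.1.1 ((key a hcon.1.symm hcon.2.symm).trans h2)
      · left; right
        refine ⟨h2, hij, ?_⟩
        by_contra hcon
        push Not at hcon
        exact h1.1.2 ((key b hcon.1.symm hcon.2.symm).trans h2)
      · right
        refine ⟨h2, ?_⟩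
        by_contra hcon
        push Not at hcon
        obtain ⟨k1, k2⟩ := hcon
        have k3 := k1 hij
        have k4 := k2 hij
        exact h1.2 ⟨(key a k3.1.symm k3.2.symm).trans h2.1, (key b k4.1.symm k4.2.symm).trans h2.2⟩
    · rintro ⟨σ, p⟩ _ ⟨σ', p'⟩ _ h
      simp only [Prod.mk.injEq] at h
      obtain ⟨h3, rfl⟩ := h
      exact Prod.ext (mul_right_cancel h3) rfl
  refine h1.trans ?_
  have h2 := Finset.card_union_le ((T a a ×ˢ PW a) ∪ (T b b ×ˢ PW b))
    ((T a b ∩ T b a) ×ˢ (PW a ∪ PW b))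
  have h3 := Finset.card_union_le (T a a ×ˢ PW a) (T b b ×ˢ PW b)
  have h4 := Finset.card_union_le (PW a) (PW b)
  rw [Finset.card_product, card_TT hn a b b a hab hab] at h2
  rw [Finset.card_product, Finset.card_product, card_T' (by omega), card_T' (by omega)] at h3
  have h5 := card_PW a
  have h6 := card_PW b
  have h7 : (n - 1).factorial = (n - 1) * (n - 2).factorial := by
    obtain ⟨m, rfl⟩ : ∃ m, n = m + 2 := ⟨n - 2, by omega⟩
    exact Nat.factorial_succ m
  have h8 : (n - 2).factorial * (PW a ∪ PW b).card ≤ (n - 2).factorial * ((n - 1) + (n - 1)) :=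
    Nat.mul_le_mul_left _ (by omega)
  have h9 : (n - 1).factorial * (PW a).card ≤ (n - 1).factorial * (n - 1) :=
    Nat.mul_le_mul_left _ h5
  have h10 : (n - 1).factorial * (PW b).card ≤ (n - 1).factorial * (n - 1) :=
    Nat.mul_le_mul_left _ h6
  have h11 : (n - 2).factorial * ((n - 1) + (n - 1)) = 2 * (n - 1).factorial := by
    rw [h7]; ring
  have h12 : 2 * n * (n - 1).factorial = (n - 1).factorial * (n - 1) + (n - 1).factorial * (n - 1) +
      2 * (n - 1).factorial := by
    obtain ⟨m, rfl⟩ : ∃ m, n = m + 1 := ⟨n - 1, by omega⟩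
    simp only [Nat.add_sub_cancel]
    ring
  omega

/-- any union of `n - 2` cosets misses many elements of the complement of `D` -/
theorem far (hn : 4 ≤ n) {a b : Fin n} (hab : a ≠ b) (P : Finset (Fin n × Fin n))
    (hP : P.card = n - 2) :
    (n - 4) * (n - 2).factorial ≤
      ((D a b)ᶜ \ univ.filter (fun σ : Equiv.Perm (Fin n) => ∃ p ∈ P, σ p.1 = p.2)).card := by
  classical
  set B := univ.filter (fun σ : Equiv.Perm (Fin n) => ∃ p ∈ P, σ p.1 = p.2) with hB
  have hU : (D a b ∪ B) ⊆ D a b ∪ P.biUnion (fun p => T p.1 p.2 \ (T a a ∪ T b b)) := by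
    intro σ hσ
    rw [Finset.mem_union] at hσ ⊢
    by_cases h : σ ∈ D a b
    · exact Or.inl h
    · right
      have h2 := hσ.resolve_left h
      rw [hB, Finset.mem_filter] at h2
      obtain ⟨p, hp, hpσ⟩ := h2.2
      rw [Finset.mem_biUnion]
      refine ⟨p, hp, ?_⟩
      rw [Finset.mem_sdiff, mem_T]
      refine ⟨hpσ, fun h3 => h ?_⟩
      unfold D
      exact Finset.mem_union_left _ h3
  have hfac : (n - 1).factorial = (n - 1) * (n - 2).factorial := by
    obtain ⟨m, rfl⟩ : ∃ m, n = m + 2 := ⟨n - 2, by omega⟩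
    exact Nat.factorial_succ m
  have hle : (n - 2).factorial ≤ (n - 1).factorial := Nat.factorial_le (by omega)
  have hT : ∀ p ∈ P, (T p.1 p.2 \ (T a a ∪ T b b)).card ≤ (n - 1).factorial -
      (if p = (a, b) ∨ p = (b, a) then 0 else (n - 2).factorial) := by
    rintro ⟨i, j⟩ _
    simp only [Prod.mk.injEq]
    split_ifs with h
    · rw [Nat.sub_zero, ← card_T' (by omega) i j]
      exact Finset.card_le_card Finset.sdiff_subset
    · by_cases h1 : i = a ∨ j = a
      · -- use (b,b)
        by_cases h2 : i = b ∨ j = b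
        · exfalso
          apply h
          rcases h1 with h1 | h1
          · rcases h2 with h2 | h2
            · exact absurd (h1.symm.trans h2) hab
            · exact Or.inl ⟨h1, h2⟩
          · rcases h2 with h2 | h2
            · exact Or.inr ⟨h2, h1⟩
            · exact absurd (h1.symm.trans h2) hab
        · push Not at h2
          have h3 : T i j \ (T a a ∪ T b b) ⊆ T i j \ (T i j ∩ T b b) := by
            intro σ
            simp only [Finset.mem_sdiff, Finset.mem_union, Finset.mem_inter, mem_T]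
            tauto
          refine (Finset.card_le_card h3).trans ?_
          rw [Finset.card_sdiff_of_subset Finset.inter_subset_left, card_T' (by omega),
            card_TT (by omega) i j b b h2.1 h2.2.symm]
      · push Not at h1
        have h3 : T i j \ (T a a ∪ T b b) ⊆ T i j \ (T i j ∩ T a a) := by
          intro σ
          simp only [Finset.mem_sdiff, Finset.mem_union, Finset.mem_inter, mem_T]
          tauto
        refine (Finset.card_le_card h3).trans ?_
        rw [Finset.card_sdiff_of_subset Finset.inter_subset_left, card_T' (by omega),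
          card_TT (by omega) i j a a h1.1 h1.2.symm]
  have hsum : (P.biUnion (fun p => T p.1 p.2 \ (T a a ∪ T b b))).card +
      (n - 4) * (n - 2).factorial ≤ (n - 2) * (n - 1).factorial := by
    have h1 : (P.biUnion (fun p => T p.1 p.2 \ (T a a ∪ T b b))).card ≤
        ∑ p ∈ P, ((n - 1).factorial -
          (if p = (a, b) ∨ p = (b, a) then 0 else (n - 2).factorial)) :=
      Finset.card_biUnion_le.trans (Finset.sum_le_sum hT)
    have h2 : ∑ p ∈ P, ((n - 1).factorial -
          (if p = (a, b) ∨ p = (b, a) then 0 else (n - 2).factorial)) +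
        ∑ p ∈ P, (if p = (a, b) ∨ p = (b, a) then 0 else (n - 2).factorial) =
        (n - 2) * (n - 1).factorial := by
      rw [← Finset.sum_add_distrib]
      have h7 : ∑ p ∈ P, (((n - 1).factorial -
          (if p = (a, b) ∨ p = (b, a) then 0 else (n - 2).factorial)) +
          (if p = (a, b) ∨ p = (b, a) then 0 else (n - 2).factorial)) =
          ∑ _p ∈ P, (n - 1).factorial := by
        refine Finset.sum_congr rfl fun p _ => ?_
        split_ifs
        · simp
        · omega
      rw [h7, Finset.sum_const, hP, smul_eq_mul]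
    have h3 : (n - 4) * (n - 2).factorial ≤
        ∑ p ∈ P, (if p = (a, b) ∨ p = (b, a) then 0 else (n - 2).factorial) := by
      rw [Finset.sum_ite, Finset.sum_const_zero, zero_add, Finset.sum_const, smul_eq_mul]
      refine Nat.mul_le_mul_right _ ?_
      have h4 : (P.filter (fun p => p = (a, b) ∨ p = (b, a))).card ≤ 2 := by
        refine (Finset.card_le_card (t := {(a, b), (b, a)}) ?_).trans Finset.card_le_two
        intro p hp
        rw [Finset.mem_filter] at hp
        simpa using hp.2
      have h5 := Finset.card_filter_add_card_filter_not (s := P) (fun p => p = (a, b) ∨ p = (b, a))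
      omega
    omega
  have hDU : (D a b ∪ B).card ≤ 2 * (n - 1).factorial +
      (P.biUnion (fun p => T p.1 p.2 \ (T a a ∪ T b b))).card := by
    refine (Finset.card_le_card hU).trans ((Finset.card_union_le _ _).trans ?_)
    rw [card_D (by omega) hab]
  have hcompl : ((D a b)ᶜ \ B) = (D a b ∪ B)ᶜ := by
    ext σ
    simp only [Finset.mem_sdiff, Finset.mem_compl, Finset.mem_union]
    tauto
  rw [hcompl, Finset.card_compl, Fintype.card_perm, Fintype.card_fin]
  have hnf : n.factorial = 2 * (n - 1).factorial + (n - 2) * (n - 1).factorial := by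
    obtain ⟨m, rfl⟩ : ∃ m, n = m + 2 := ⟨n - 2, by omega⟩
    rw [Nat.factorial_succ]
    simp only [Nat.add_sub_cancel, show m + 2 - 1 = m + 1 by omega]
    ring
  omega

theorem main :
    ¬ (∃ C₁ : ℝ, 0 < C₁ ∧
      ∀ (n : ℕ), 1 ≤ n →
      ∀ (c : ℕ) (δ : ℝ), 0 ≤ δ →
      ∀ A : Finset (Equiv.Perm (Fin n)),
        A.card = c * Nat.factorial (n - 1) →
        ((((A ×ˢ (Finset.univ.filter (fun p : Fin n × Fin n => p.1 < p.2))).filter
            (fun x => x.1 * Equiv.swap x.2.1 x.2.2 ∉ A)).card : ℕ) : ℝ)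
          ≤ (A.card : ℝ) * ((Nat.factorial n : ℝ) - (A.card : ℝ)) / (Nat.factorial (n - 1) : ℝ)
            + δ * (n : ℝ) * (A.card : ℝ) →
        ∃ P : Finset (Fin n × Fin n), P.card = c ∧
          ((symmDiff A (Finset.univ.filter (fun σ : Equiv.Perm (Fin n) => ∃ p ∈ P, σ p.1 = p.2))).card : ℝ)
            ≤ C₁ * (c : ℝ) * δ * (Nat.factorial (n - 1) : ℝ)) := by
  rintro ⟨C, hC, h⟩
  obtain ⟨m, hm⟩ := exists_nat_gt (4 * C)
  obtain ⟨n, hnm⟩ : ∃ n : ℕ, n = m + 4 := ⟨_, rfl⟩
  have hn4 : 4 ≤ n := by omega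
  have hnr : (4 : ℝ) ≤ n := by exact_mod_cast hn4
  set a : Fin n := ⟨0, by omega⟩ with ha
  set b : Fin n := ⟨1, by omega⟩ with hb
  have hab : a ≠ b := by
    rw [ha, hb]
    simp
  have hf1 : (0 : ℝ) < ((n - 1).factorial : ℝ) := by exact_mod_cast Nat.factorial_pos _
  have hnf : n.factorial = n * (n - 1).factorial := by
    obtain ⟨k, rfl⟩ : ∃ k, n = k + 1 := ⟨n - 1, by omega⟩
    rw [Nat.factorial_succ]
    simp
  have hcard : ((D a b)ᶜ).card = (n - 2) * (n - 1).factorial := by
    rw [Finset.card_compl, card_D (by omega) hab, Fintype.card_perm, Fintype.card_fin, hnf,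
      ← Nat.sub_mul]
  have hc2 : (((n - 2 : ℕ)) : ℝ) = (n : ℝ) - 2 := by
    rw [Nat.cast_sub (by omega)]
    norm_num
  have hn2 : (0 : ℝ) < (n : ℝ) - 2 := by linarith
  have hδ : (0 : ℝ) ≤ 4 / (n * ((n : ℝ) - 2)) := by positivity
  obtain ⟨P, hP, hd⟩ := h n (by omega) (n - 2) (4 / (n * ((n : ℝ) - 2))) hδ ((D a b)ᶜ) hcard (by
    have h1 : (((((D a b)ᶜ ×ˢ (Finset.univ.filter (fun p : Fin n × Fin n => p.1 < p.2))).filter
            (fun x => x.1 * Equiv.swap x.2.1 x.2.2 ∉ (D a b)ᶜ)).card : ℕ) : ℝ) ≤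
        2 * n * (n - 1).factorial := by exact_mod_cast boundary_le (by omega) hab
    refine h1.trans (le_of_eq ?_)
    rw [hcard, hnf]
    push_cast
    rw [hc2]
    field_simp
    ring)
  have h2 := far hn4 hab P hP
  have h3 : (((n - 4) * (n - 2).factorial : ℕ) : ℝ) ≤
      C * ((n - 2 : ℕ) : ℝ) * (4 / (n * ((n : ℝ) - 2))) * ((n - 1).factorial : ℝ) := by
    refine le_trans ?_ hd
    have h4 : (n - 4) * (n - 2).factorial ≤ (symmDiff (D a b)ᶜ
        (univ.filter (fun σ : Equiv.Perm (Fin n) => ∃ p ∈ P, σ p.1 = p.2))).card :=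
      h2.trans (Finset.card_le_card (by
        intro σ hσ
        rw [Finset.mem_symmDiff]
        rw [Finset.mem_sdiff] at hσ
        exact Or.inl hσ))
    exact_mod_cast h4
  have hfac : (((n - 1).factorial : ℕ) : ℝ) = ((n : ℝ) - 1) * ((n - 2).factorial : ℝ) := by
    have : (n - 1).factorial = (n - 1) * (n - 2).factorial := by
      obtain ⟨k, rfl⟩ : ∃ k, n = k + 2 := ⟨n - 2, by omega⟩
      exact Nat.factorial_succ k
    rw [this]
    push_cast
    rw [Nat.cast_sub (by omega)]
    norm_num
  have hf2 : (0 : ℝ) < ((n - 2).factorial : ℝ) := by exact_mod_cast Nat.factorial_pos _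
  rw [hc2, hfac] at h3
  push_cast at h3
  rw [Nat.cast_sub hn4] at h3
  have h5 : C * ((n : ℝ) - 2) * (4 / (n * ((n : ℝ) - 2))) * (((n : ℝ) - 1) * ((n - 2).factorial : ℝ)) =
      (4 * C * ((n : ℝ) - 1) / n) * ((n - 2).factorial : ℝ) := by
    field_simp
  rw [h5] at h3
  have h6 := le_of_mul_le_mul_right h3 hf2
  rw [le_div_iff₀ (by linarith)] at h6
  have h7 : (n : ℝ) = m + 4 := by
    rw [hnm]
    push_cast
    ring
  have h8 : (n : ℝ) - ((4 : ℕ) : ℝ) = m := by
    rw [h7]
    push_cast
    ring
  rw [h8] at h6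
  nlinarith

end Pool.Agent.TH491.CS
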