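import Mathlib

set_option autoImplicit false
open Finset
open scoped Classical

namespace Pool.Agent.TH491.BC

variable {n : ℕ}

/-- `I` is independent, `u`, `v` are not adjacent and have the same neighbours in `I` -/
def Twin (G : SimpleGraph (Fin n)) (I : Finset (Fin n)) (u v : Fin n) : Prop :=
  (∀ x ∈ I, ∀ y ∈ I, ¬ G.Adj x y) ∧ ¬ G.Adj u v ∧ ∀ w ∈ I, (G.Adj w u ↔ G.Adj w v)

/-- `G` has a partition into `k` bicliques -/
def BP (G : SimpleGraph (Fin n)) (k : ℕ) : Prop := ∃ A B : Fin k → Finset (Fin n),
              (∀ i, Disjoint (A i) (B i)) ∧
              ∀ u v : Fin n,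
                (G.Adj u v → ∃! i, (u ∈ A i ∧ v ∈ B i) ∨ (v ∈ A i ∧ u ∈ B i)) ∧
                (¬ G.Adj u v → ∀ i, ¬ (u ∈ A i ∧ v ∈ B i))

theorem bp_of_fintype (G : SimpleGraph (Fin n)) {ι : Type} [Fintype ι] (A B : ι → Finset (Fin n))
    (h1 : ∀ i, Disjoint (A i) (B i))
    (h2 : ∀ u v : Fin n,
                (G.Adj u v → ∃! i, (u ∈ A i ∧ v ∈ B i) ∨ (v ∈ A i ∧ u ∈ B i)) ∧
                (¬ G.Adj u v → ∀ i, ¬ (u ∈ A i ∧ v ∈ B i))) :
    BP G (Fintype.card ι) := by
  refine ⟨fun i => A ((Fintype.equivFin ι).symm i), fun i => B ((Fintype.equivFin ι).symm i),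
    fun i => h1 _, fun u v => ⟨fun h => ?_, fun h i => (h2 u v).2 h _⟩⟩
  obtain ⟨i, hi, hu⟩ := (h2 u v).1 h
  refine ⟨Fintype.equivFin ι i, ?_, ?_⟩
  · simpa using hi
  · intro j hj
    have := hu _ hj
    rw [← this]
    simp

theorem bp_of_twin (G : SimpleGraph (Fin n)) (I : Finset (Fin n)) (u v : Fin n) (huv : u ≠ v)
    (hu : u ∉ I) (hv : v ∉ I) (h : Twin G I u v) : BP G (n - I.card - 1) := by
  obtain ⟨hI, huv', htw⟩ := h
  set S : Finset (Fin n) := insert u (insert v I) with hS
  have hScard : S.card = I.card + 2 := by
    rw [hS, Finset.card_insert_of_notMem, Finset.card_insert_of_notMem hv]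
    rw [Finset.mem_insert]
    push Not
    exact ⟨huv, hu⟩
  have hle : S.card ≤ n := by
    simpa using Finset.card_le_univ S
  have hcard : Fintype.card (Option {x : Fin n // x ∉ S}) = n - I.card - 1 := by
    rw [Fintype.card_option, Fintype.card_subtype_compl]
    simp only [Fintype.card_fin, Fintype.card_coe]
    omega
  rw [← hcard]
  have huS : u ∈ S := by simp [hS]
  have hvS : v ∈ S := by simp [hS]
  have hIS : ∀ x ∈ I, x ∈ S := fun x hx => by simp [hS, hx]
  have hmemS : ∀ x, x ∈ S → x = u ∨ x = v ∨ x ∈ I := fun x hx => by simpa [hS] using hx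
  refine bp_of_fintype G
    (fun i => match i with
      | none => {u, v}
      | some x => {x.1})
    (fun i => match i with
      | none => I.filter (fun w => G.Adj w u)
      | some x => univ.filter (fun y => G.Adj x.1 y ∧ (y ∈ S ∨ x.1 < y))) ?_ ?_
  · intro i
    match i with
    | none =>
      rw [Finset.disjoint_left]
      intro a ha hb
      simp only [Finset.mem_insert, Finset.mem_singleton] at ha
      rw [Finset.mem_filter] at hb
      rcases ha with rfl | rfl
      · exact hu hb.1
      · exact hv hb.1
    | some x =>
      rw [Finset.disjoint_left]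
      intro a ha hb
      simp only [Finset.mem_singleton] at ha
      subst ha
      simp at hb
  · intro a b
    refine ⟨fun hab => ?_, fun hab i => ?_⟩
    · have huniq : ∀ i j : Option {x : Fin n // x ∉ S},
          ((a ∈ (match i with
            | none => ({u, v} : Finset (Fin n))
            | some x => {x.1}) ∧ b ∈ (match i with
            | none => I.filter (fun w => G.Adj w u)
            | some x => univ.filter (fun y => G.Adj x.1 y ∧ (y ∈ S ∨ x.1 < y)))) ∨
           (b ∈ (match i with
            | none => ({u, v} : Finset (Fin n))
            | some x => {x.1}) ∧ a ∈ (match i with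
            | none => I.filter (fun w => G.Adj w u)
            | some x => univ.filter (fun y => G.Adj x.1 y ∧ (y ∈ S ∨ x.1 < y))))) →
          ((a ∈ (match j with
            | none => ({u, v} : Finset (Fin n))
            | some x => {x.1}) ∧ b ∈ (match j with
            | none => I.filter (fun w => G.Adj w u)
            | some x => univ.filter (fun y => G.Adj x.1 y ∧ (y ∈ S ∨ x.1 < y)))) ∨
           (b ∈ (match j with
            | none => ({u, v} : Finset (Fin n))
            | some x => {x.1}) ∧ a ∈ (match j with
            | none => I.filter (fun w => G.Adj w u)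
            | some x => univ.filter (fun y => G.Adj x.1 y ∧ (y ∈ S ∨ x.1 < y))))) → i = j := by
        have hS' : ∀ z : Fin n, z = u ∨ z = v → z ∈ S := by
          rintro z (rfl | rfl)
          · exact huS
          · exact hvS
        intro i j hi hj
        match i, j with
        | none, none => rfl
        | none, some x =>
          simp only [Finset.mem_insert, Finset.mem_singleton, Finset.mem_filter, Finset.mem_univ,
            true_and] at hi hj
          exfalso
          have haS : a ∈ S := by
            rcases hi with hi | hi
            · exact hS' _ hi.1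
            · exact hIS _ hi.2.1
          have hbS : b ∈ S := by
            rcases hi with hi | hi
            · exact hIS _ hi.2.1
            · exact hS' _ hi.1
          rcases hj with hj | hj
          · exact x.2 (hj.1 ▸ haS)
          · exact x.2 (hj.1 ▸ hbS)
        | some x, none =>
          simp only [Finset.mem_insert, Finset.mem_singleton, Finset.mem_filter, Finset.mem_univ,
            true_and] at hi hj
          exfalso
          have haS : a ∈ S := by
            rcases hj with hi | hi
            · exact hS' _ hi.1
            · exact hIS _ hi.2.1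
          have hbS : b ∈ S := by
            rcases hj with hi | hi
            · exact hIS _ hi.2.1
            · exact hS' _ hi.1
          rcases hi with hj | hj
          · exact x.2 (hj.1 ▸ haS)
          · exact x.2 (hj.1 ▸ hbS)
        | some x, some y =>
          simp only [Finset.mem_singleton, Finset.mem_filter, Finset.mem_univ,
            true_and] at hi hj
          congr 1
          apply Subtype.ext
          rcases hi with ⟨rfl, hi⟩ | ⟨rfl, hi⟩
          · rcases hj with ⟨hj, hj2⟩ | ⟨rfl, hj⟩
            · exact hj
            · rcases hi.2 with h3 | h3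
              · exact absurd h3 y.2
              · rcases hj.2 with h4 | h4
                · exact absurd h4 x.2
                · exact absurd h3 (not_lt.2 h4.le)
          · rcases hj with ⟨rfl, hj⟩ | ⟨hj, hj2⟩
            · rcases hi.2 with h3 | h3
              · exact absurd h3 y.2
              · rcases hj.2 with h4 | h4
                · exact absurd h4 x.2
                · exact absurd h3 (not_lt.2 h4.le)
            · exact hj
      have hex : ∃ i : Option {x : Fin n // x ∉ S},
          ((a ∈ (match i with
            | none => ({u, v} : Finset (Fin n))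
            | some x => {x.1}) ∧ b ∈ (match i with
            | none => I.filter (fun w => G.Adj w u)
            | some x => univ.filter (fun y => G.Adj x.1 y ∧ (y ∈ S ∨ x.1 < y)))) ∨
           (b ∈ (match i with
            | none => ({u, v} : Finset (Fin n))
            | some x => {x.1}) ∧ a ∈ (match i with
            | none => I.filter (fun w => G.Adj w u)
            | some x => univ.filter (fun y => G.Adj x.1 y ∧ (y ∈ S ∨ x.1 < y))))) := by
        by_cases haS : a ∈ S
        · by_cases hbS : b ∈ S
          · refine ⟨none, ?_⟩
            simp only [Finset.mem_insert, Finset.mem_singleton, Finset.mem_filter]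
            rcases hmemS a haS with rfl | rfl | haI
            · rcases hmemS b hbS with rfl | rfl | hbI
              · exact absurd hab (G.loopless.irrefl _)
              · exact absurd hab huv'
              · exact Or.inl ⟨Or.inl rfl, hbI, hab.symm⟩
            · rcases hmemS b hbS with rfl | rfl | hbI
              · exact absurd hab.symm huv'
              · exact absurd hab (G.loopless.irrefl _)
              · exact Or.inl ⟨Or.inr rfl, hbI, (htw b hbI).2 hab.symm⟩
            · rcases hmemS b hbS with rfl | rfl | hbI
              · exact Or.inr ⟨Or.inl rfl, haI, hab⟩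
              · exact Or.inr ⟨Or.inr rfl, haI, (htw a haI).2 hab⟩
              · exact absurd hab (hI a haI b hbI)
          · refine ⟨some ⟨b, hbS⟩, ?_⟩
            right
            simp [hab.symm, haS]
        · by_cases hbS : b ∈ S
          · refine ⟨some ⟨a, haS⟩, ?_⟩
            left
            simp [hab, hbS]
          · rcases lt_trichotomy a b with hlt | heq | hlt
            · refine ⟨some ⟨a, haS⟩, ?_⟩
              left
              simp [hab, hlt]
            · subst heq
              exact absurd hab (G.loopless.irrefl _)
            · refine ⟨some ⟨b, hbS⟩, ?_⟩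
              right
              simp [hab.symm, hlt]
      obtain ⟨i, hi⟩ := hex
      exact ⟨i, hi, fun j hj => huniq j i hj hi⟩
    · match i with
      | none =>
        simp only [Finset.mem_insert, Finset.mem_singleton, Finset.mem_filter]
        rintro ⟨rfl | rfl, hb, hbu⟩
        · exact hab hbu.symm
        · exact hab ((htw b hb).1 hbu).symm
      | some x =>
        simp only [Finset.mem_singleton, Finset.mem_filter, Finset.mem_univ, true_and]
        rintro ⟨rfl, hb, _⟩
        exact hab hb

/-- no independent set of size `k + 1` -/
theorem alpha_le (G : SimpleGraph (Fin n)) (k : ℕ)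
    (h : ∀ J : Finset (Fin n), J.card = k + 1 → ∃ x ∈ J, ∃ y ∈ J, G.Adj x y) :
    Gᶜ.cliqueNum ≤ k := by
  by_contra hcon
  push Not at hcon
  obtain ⟨s, hs⟩ := Gᶜ.exists_isNClique_cliqueNum
  obtain ⟨J, hJs, hJ⟩ := Finset.exists_subset_card_eq (s := s) (n := k + 1) (by
    rw [hs.card_eq]; exact hcon)
  obtain ⟨x, hx, y, hy, hxy⟩ := h J hJ
  have h2 := hs.isClique (hJs hx) (hJs hy) hxy.ne
  rw [SimpleGraph.compl_adj] at h2
  exact h2.2 hxy

/-- the value of `bc` is smaller than `n - α` in presence of the twin structure -/
theorem bc_ne (G : SimpleGraph (Fin n)) (k : ℕ) (hα : Gᶜ.cliqueNum ≤ k)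
    (I : Finset (Fin n)) (hIk : I.card = k) (u v : Fin n) (huv : u ≠ v)
    (hu : u ∉ I) (hv : v ∉ I) (h : Twin G I u v) :
    sInf {k : ℕ | BP G k} ≠ n - Gᶜ.cliqueNum := by
  have h1 := bp_of_twin G I u v huv hu hv h
  have h2 : sInf {k : ℕ | BP G k} ≤ n - I.card - 1 := Nat.sInf_le h1
  have h3 : I.card + 2 ≤ n := by
    have : (insert u (insert v I)).card ≤ n := by
      simpa using Finset.card_le_univ (insert u (insert v I))
    rw [Finset.card_insert_of_notMem, Finset.card_insert_of_notMem hv] at this
    · exact this
    · rw [Finset.mem_insert]
      push Not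
      exact ⟨huv, hu⟩
  omega

end Pool.Agent.TH491.BC
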