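import Pool.Agent.W839.Ch.Bits
import Pool.Agent.TH491.BC1

set_option autoImplicit false
open Finset
open scoped Classical

namespace Pool.Agent.TH491.BC

open Pool.Agent.W839.Ch (EB bw gr wt Pr bit blk)

section EBs
variable {ι : Type} [Fintype ι]

theorem EB_prod (p : ℝ) (g : ι → Bool → ℝ) :
    EB p (fun ω : ι → Bool => ∏ i, g i (ω i)) = ∏ i, (p * g i true + (1 - p) * g i false) := by
  unfold EB
  have h1 : ∀ ω : ι → Bool, (∏ i, bw p (ω i)) * ∏ i, g i (ω i) = ∏ i, (bw p (ω i) * g i (ω i)) :=
    fun ω => Finset.prod_mul_distrib.symm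
  rw [Finset.sum_congr rfl (fun ω _ => h1 ω)]
  have h2 := (Finset.prod_univ_sum (fun _ : ι => (Finset.univ : Finset Bool))
    (fun i b => bw p b * g i b))
  rw [Fintype.piFinset_univ] at h2
  rw [← h2]
  refine Finset.prod_congr rfl fun i _ => ?_
  rw [Fintype.sum_bool]
  simp [bw]

/-- cylinder probability -/
theorem EB_cyl (p : ℝ) (T : Finset ι) (f : ι → Bool) :
    EB p (fun ω : ι → Bool => if ∀ i ∈ T, ω i = f i then (1 : ℝ) else 0) = ∏ i ∈ T, bw p (f i) := by
  have h1 : (fun ω : ι → Bool => if ∀ i ∈ T, ω i = f i then (1 : ℝ) else 0) =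
      fun ω => ∏ i, (fun i b => if i ∈ T then (if b = f i then (1 : ℝ) else 0) else 1) i (ω i) := by
    funext ω
    by_cases h : ∀ i ∈ T, ω i = f i
    · rw [if_pos h]
      symm
      refine Finset.prod_eq_one fun i _ => ?_
      by_cases hi : i ∈ T
      · simp [hi, h i hi]
      · simp [hi]
    · rw [if_neg h]
      push Not at h
      obtain ⟨i, hi, hne⟩ := h
      symm
      refine Finset.prod_eq_zero (Finset.mem_univ i) ?_
      simp [hi, hne]
  rw [h1]
  refine (EB_prod (ι := ι) p (fun i b => if i ∈ T then (if b = f i then (1 : ℝ) else 0) else 1)).trans ?_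
  rw [← Finset.prod_subset (Finset.subset_univ T)]
  · refine Finset.prod_congr rfl fun i hi => ?_
    simp only [hi, if_true]
    cases f i <;> simp [bw]
  · intro i _ hi
    simp [hi]

theorem EB_single (p : ℝ) (a : ι) :
    EB p (fun ω : ι → Bool => if ω a = false then (1 : ℝ) else 0) = 1 - p := by
  have h1 : (fun ω : ι → Bool => if ω a = false then (1 : ℝ) else 0) = fun ω =>
      (if ∀ i ∈ ({a} : Finset ι), ω i = (fun _ => false) i then (1 : ℝ) else 0) := by
    funext ω
    simp
  rw [h1, EB_cyl]
  simp [bw]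

theorem EB_add (p : ℝ) (f g : (ι → Bool) → ℝ) :
    EB p (fun ω => f ω + g ω) = EB p f + EB p g := by
  unfold EB
  rw [← Finset.sum_add_distrib]
  exact Finset.sum_congr rfl fun ω _ => by ring

theorem EB_eq2 (p : ℝ) {a b : ι} (hab : a ≠ b) :
    EB p (fun ω : ι → Bool => if ω a = ω b then (1 : ℝ) else 0) = p ^ 2 + (1 - p) ^ 2 := by
  have h1 : (fun ω : ι → Bool => if ω a = ω b then (1 : ℝ) else 0) = fun ω =>
      (if ∀ i ∈ ({a, b} : Finset ι), ω i = (fun _ => true) i then (1 : ℝ) else 0) +
      (if ∀ i ∈ ({a, b} : Finset ι), ω i = (fun _ => false) i then (1 : ℝ) else 0) := by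
    funext ω
    simp only [Finset.mem_insert, Finset.mem_singleton, forall_eq_or_imp, forall_eq]
    cases ω a <;> cases ω b <;> simp
  rw [h1, EB_add, EB_cyl, EB_cyl, Finset.prod_pair hab, Finset.prod_pair hab]
  simp only [bw, if_true, Bool.false_eq_true, if_false]
  ring

theorem EB_eq3 (p : ℝ) {a b c : ι} (hab : a ≠ b) (hac : a ≠ c) (hbc : b ≠ c) :
    EB p (fun ω : ι → Bool => if ω a = ω b ∧ ω a = ω c then (1 : ℝ) else 0) =
      p ^ 3 + (1 - p) ^ 3 := by
  have h1 : (fun ω : ι → Bool => if ω a = ω b ∧ ω a = ω c then (1 : ℝ) else 0) = fun ω =>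
      (if ∀ i ∈ ({a, b, c} : Finset ι), ω i = (fun _ => true) i then (1 : ℝ) else 0) +
      (if ∀ i ∈ ({a, b, c} : Finset ι), ω i = (fun _ => false) i then (1 : ℝ) else 0) := by
    funext ω
    simp only [Finset.mem_insert, Finset.mem_singleton, forall_eq_or_imp, forall_eq]
    cases ω a <;> cases ω b <;> cases ω c <;> simp
  rw [h1, EB_add, EB_cyl, EB_cyl, Finset.prod_insert (by simp [hab, hac]), Finset.prod_pair hbc,
    Finset.prod_insert (by simp [hab, hac]), Finset.prod_pair hbc]
  simp only [bw, if_true, Bool.false_eq_true, if_false]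
  ring

theorem EB_eq4 (p : ℝ) {a b c d : ι} (hab : a ≠ b) (hcd : c ≠ d) (hac : a ≠ c) (had : a ≠ d)
    (hbc : b ≠ c) (hbd : b ≠ d) :
    EB p (fun ω : ι → Bool => if ω a = ω b ∧ ω c = ω d then (1 : ℝ) else 0) =
      (p ^ 2 + (1 - p) ^ 2) ^ 2 := by
  have h2 := blk ι Bool p (fun i => if i = a ∨ i = b then some true else
    if i = c ∨ i = d then some false else none)
    (fun j ω => if j then (if ω a = ω b then (1 : ℝ) else 0) else (if ω c = ω d then (1 : ℝ) else 0))
    (by
      intro j ω ω' h
      cases j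
      · have h3 := h c (by simp [hac.symm, hbc.symm])
        have h4 := h d (by simp [had.symm, hbd.symm])
        simp [h3, h4]
      · have h3 := h a (by simp)
        have h4 := h b (by simp)
        simp [h3, h4])
  have h1 : (fun ω : ι → Bool => if ω a = ω b ∧ ω c = ω d then (1 : ℝ) else 0) = fun ω =>
      ∏ j : Bool, (if j then (if ω a = ω b then (1 : ℝ) else 0)
        else (if ω c = ω d then (1 : ℝ) else 0)) := by
    funext ω
    rw [Fintype.prod_bool]
    by_cases h3 : ω a = ω b <;> by_cases h4 : ω c = ω d <;> simp [h3, h4]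
  rw [h1, h2, Fintype.prod_bool]
  simp only [if_true, Bool.false_eq_true, if_false]
  rw [EB_eq2 p hab, EB_eq2 p hcd]
  ring

end EBs

variable {n : ℕ}

theorem Pr_eq_EB (p : ℝ) (P : SimpleGraph (Fin n) → Prop) :
    Pr n p P = EB p (fun ω : Sym2 (Fin n) → Bool => if P (gr ω) then (1 : ℝ) else 0) := by
  rw [bit n p (fun G => if P G then (1 : ℝ) else 0)]
  unfold Pr
  refine Finset.sum_congr rfl fun G _ => ?_
  split_ifs <;> simp

/-- the edges inside `I` -/
noncomputable def Ed (I : Finset (Fin n)) : Finset (Sym2 (Fin n)) :=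
  I.offDiag.image (fun x => s(x.1, x.2))

theorem mem_Ed {I : Finset (Fin n)} {x y : Fin n} : s(x, y) ∈ Ed I ↔ x ∈ I ∧ y ∈ I ∧ x ≠ y := by
  unfold Ed
  simp only [Finset.mem_image, Finset.mem_offDiag, Prod.exists]
  constructor
  · rintro ⟨a, b, ⟨h1, h2, h3⟩, h4⟩
    rw [Sym2.eq_iff] at h4
    rcases h4 with ⟨rfl, rfl⟩ | ⟨rfl, rfl⟩
    · exact ⟨h1, h2, h3⟩
    · exact ⟨h2, h1, h3.symm⟩
  · rintro ⟨h1, h2, h3⟩
    exact ⟨x, y, ⟨h1, h2, h3⟩, rfl⟩

theorem card_Ed (I : Finset (Fin n)) : (Ed I).card = I.card.choose 2 := by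
  have h : Ed I = image (Function.uncurry Sym2.mk) I.offDiag := by
    unfold Ed
    congr 1
  rw [h]
  exact Sym2.card_image_offDiag I

theorem Ed_inter (I I' : Finset (Fin n)) : Ed I ∩ Ed I' = Ed (I ∩ I') := by
  ext e
  induction e with
  | _ x y =>
    simp only [Finset.mem_inter, mem_Ed]
    tauto

theorem card_Ed_union (I I' : Finset (Fin n)) :
    (Ed I ∪ Ed I').card + (I ∩ I').card.choose 2 = I.card.choose 2 + I'.card.choose 2 := by
  rw [← card_Ed, ← card_Ed, ← card_Ed, ← Ed_inter]
  exact Finset.card_union_add_card_inter _ _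

/-- the joint row probability -/
noncomputable def tt (p : ℝ) (u v u' v' : Fin n) : ℝ :=
  if u = u' ∧ v = v' then p ^ 2 + (1 - p) ^ 2 else
    if u = u' ∨ v = v' then p ^ 3 + (1 - p) ^ 3 else (p ^ 2 + (1 - p) ^ 2) ^ 2

theorem pr_pair (p : ℝ) (V U U' : Finset (Fin n)) (hVU : Disjoint V U) (hVU' : Disjoint V U')
    (hUU' : Disjoint U U') (I I' : Finset (Fin n)) (hI : I ⊆ V) (hI' : I' ⊆ V)
    (u u' v v' : Fin n) (hu : u ∈ U) (hu' : u' ∈ U) (hv : v ∈ U') (hv' : v' ∈ U') :
    Pr n p (fun G => Twin G I u v ∧ Twin G I' u' v') =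
      (1 - p) ^ ((Ed I ∪ Ed I').card + ({s(u, v), s(u', v')} : Finset (Sym2 (Fin n))).card) *
      ((p ^ 2 + (1 - p) ^ 2) ^ ((I \ I').card + (I' \ I).card) *
        (tt p u v u' v') ^ ((I ∩ I').card)) := by
  have hVu : ∀ w ∈ V, ∀ x ∈ U, w ≠ x := fun w hw x hx h => by
    subst h; exact (Finset.disjoint_left.1 hVU) hw hx
  have hVv : ∀ w ∈ V, ∀ x ∈ U', w ≠ x := fun w hw x hx h => by
    subst h; exact (Finset.disjoint_left.1 hVU') hw hx
  have hUv : ∀ w ∈ U, ∀ x ∈ U', w ≠ x := fun w hw x hx h => by
    subst h; exact (Finset.disjoint_left.1 hUU') hw hx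
  set S : Finset (Sym2 (Fin n)) := (Ed I ∪ Ed I') ∪ {s(u, v), s(u', v')} with hS
  -- no element of S joins V and U ∪ U'
  have hSV : ∀ w ∈ V, ∀ x ∈ U ∪ U', s(w, x) ∉ S := by
    intro w hw x hx hmem
    rw [hS, Finset.mem_union, Finset.mem_union, mem_Ed, mem_Ed] at hmem
    have hxV : x ∉ V := by
      intro hxV
      rcases Finset.mem_union.1 hx with h | h
      · exact hVu x hxV x h rfl
      · exact hVv x hxV x h rfl
    rcases hmem with (h | h) | h
    · exact hxV (hI h.2.1)
    · exact hxV (hI' h.2.1)
    · simp only [Finset.mem_insert, Finset.mem_singleton, Sym2.eq_iff] at h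
      rcases h with (h | h) | (h | h)
      · exact hVu w hw u hu h.1
      · exact hVv w hw v hv h.1
      · exact hVu w hw u' hu' h.1
      · exact hVv w hw v' hv' h.1
  -- blocks
  let B : Sym2 (Fin n) → Option (Sym2 (Fin n) ⊕ Fin n) := fun e =>
    if e ∈ S then some (Sum.inl e) else
      if h : ∃ w ∈ V, ∃ x ∈ U ∪ U', e = s(w, x) then some (Sum.inr h.choose) else none
  have hB : ∀ w ∈ V, ∀ x ∈ U ∪ U', B s(w, x) = some (Sum.inr w) := by
    intro w hw x hx
    have h1 : ∃ w' ∈ V, ∃ x' ∈ U ∪ U', s(w, x) = s(w', x') := ⟨w, hw, x, hx, rfl⟩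
    simp only [B]
    rw [if_neg (hSV w hw x hx), dif_pos h1]
    congr 2
    obtain ⟨h2, x', hx', h3⟩ := h1.choose_spec
    rw [Sym2.eq_iff] at h3
    rcases h3 with h3 | h3
    · exact h3.1.symm
    · exfalso
      rcases Finset.mem_union.1 hx' with h4 | h4
      · exact hVu w hw x' h4 h3.1
      · exact hVv w hw x' h4 h3.1
  let hh : (Sym2 (Fin n) ⊕ Fin n) → (Sym2 (Fin n) → Bool) → ℝ := fun j ω =>
    match j with
    | Sum.inl e => if e ∈ S then (if ω e = false then 1 else 0) else 1
    | Sum.inr w => if (w ∈ I → ω s(w, u) = ω s(w, v)) ∧ (w ∈ I' → ω s(w, u') = ω s(w, v'))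
        then 1 else 0
  have hblk := blk (Sym2 (Fin n)) (Sym2 (Fin n) ⊕ Fin n) p B hh (by
    intro j ω ω' h
    match j with
    | Sum.inl e =>
      simp only [hh]
      by_cases he : e ∈ S
      · rw [if_pos he, if_pos he, h e (by simp [B, he])]
      · rw [if_neg he, if_neg he]
    | Sum.inr w =>
      simp only [hh]
      by_cases hw : w ∈ V
      · rw [h s(w, u) (hB w hw u (Finset.mem_union_left _ hu)),
          h s(w, v) (hB w hw v (Finset.mem_union_right _ hv)),
          h s(w, u') (hB w hw u' (Finset.mem_union_left _ hu')),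
          h s(w, v') (hB w hw v' (Finset.mem_union_right _ hv'))]
      · have h1 : w ∉ I := fun h => hw (hI h)
        have h2 : w ∉ I' := fun h => hw (hI' h)
        simp [h1, h2])
  have hfun : (fun ω : Sym2 (Fin n) → Bool =>
      if (Twin (gr ω) I u v ∧ Twin (gr ω) I' u' v') then (1 : ℝ) else 0) =
      fun ω => ∏ j, hh j ω := by
    funext ω
    have hadj : ∀ w ∈ V, ∀ x ∈ U ∪ U', ((gr ω).Adj w x ↔ ω s(w, x) = true) := by
      intro w hw x hx
      have : w ≠ x := by
        rcases Finset.mem_union.1 hx with h | h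
        · exact hVu w hw x h
        · exact hVv w hw x h
      simp [gr, this]
    have heq : ∀ w ∈ V, ∀ x ∈ U ∪ U', ∀ y ∈ U ∪ U',
        (((gr ω).Adj w x ↔ (gr ω).Adj w y) ↔ ω s(w, x) = ω s(w, y)) := by
      intro w hw x hx y hy
      rw [hadj w hw x hx, hadj w hw y hy]
      cases ω s(w, x) <;> cases ω s(w, y) <;> simp
    have hE : ∀ K : Finset (Fin n), (∀ x ∈ K, ∀ y ∈ K, ¬ (gr ω).Adj x y) ↔
        ∀ e ∈ Ed K, ω e = false := by
      intro K
      constructor
      · intro h e he
        induction e with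
        | _ x y =>
          rw [mem_Ed] at he
          have := h x he.1 y he.2.1
          simp only [gr, not_and, Bool.not_eq_true] at this
          exact this he.2.2
      · intro h x hx y hy hxy
        have h1 : s(x, y) ∈ Ed K := mem_Ed.2 ⟨hx, hy, hxy.1⟩
        have h2 := h _ h1
        rw [hxy.2] at h2
        exact absurd h2 (by simp)
    have huv : u ≠ v := hUv u hu v hv
    have huv' : u' ≠ v' := hUv u' hu' v' hv'
    have hEuv : ¬ (gr ω).Adj u v ↔ ω s(u, v) = false := by simp [gr, huv]
    have hEuv' : ¬ (gr ω).Adj u' v' ↔ ω s(u', v') = false := by simp [gr, huv']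
    have hcond : (Twin (gr ω) I u v ∧ Twin (gr ω) I' u' v') ↔
        ((∀ e ∈ S, ω e = false) ∧ ∀ w : Fin n, (w ∈ I → ω s(w, u) = ω s(w, v)) ∧
          (w ∈ I' → ω s(w, u') = ω s(w, v'))) := by
      unfold Twin
      rw [hE I, hE I', hEuv, hEuv']
      constructor
      · rintro ⟨⟨h1, h2, h3⟩, h4, h5, h6⟩
        refine ⟨?_, fun w => ⟨fun hw => ?_, fun hw => ?_⟩⟩
        · intro e he
          rw [hS, Finset.mem_union, Finset.mem_union] at he
          rcases he with (he | he) | he
          · exact h1 e he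
          · exact h4 e he
          · rw [Finset.mem_insert, Finset.mem_singleton] at he
            rcases he with rfl | rfl
            · exact h2
            · exact h5
        · exact (heq w (hI hw) u (Finset.mem_union_left _ hu) v
            (Finset.mem_union_right _ hv)).1 (h3 w hw)
        · exact (heq w (hI' hw) u' (Finset.mem_union_left _ hu') v'
            (Finset.mem_union_right _ hv')).1 (h6 w hw)
      · rintro ⟨h1, h2⟩
        have hS1 : ∀ e ∈ Ed I, e ∈ S := fun e he => by
          rw [hS]; exact Finset.mem_union_left _ (Finset.mem_union_left _ he)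
        have hS2 : ∀ e ∈ Ed I', e ∈ S := fun e he => by
          rw [hS]; exact Finset.mem_union_left _ (Finset.mem_union_right _ he)
        refine ⟨⟨fun e he => h1 e (hS1 e he), h1 _ (by simp [hS]), fun w hw => ?_⟩,
          fun e he => h1 e (hS2 e he), h1 _ (by simp [hS]), fun w hw => ?_⟩
        · exact (heq w (hI hw) u (Finset.mem_union_left _ hu) v
            (Finset.mem_union_right _ hv)).2 ((h2 w).1 hw)
        · exact (heq w (hI' hw) u' (Finset.mem_union_left _ hu') v'
            (Finset.mem_union_right _ hv')).2 ((h2 w).2 hw)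
    by_cases hc : (Twin (gr ω) I u v ∧ Twin (gr ω) I' u' v')
    · rw [if_pos hc]
      rw [hcond] at hc
      symm
      refine Finset.prod_eq_one fun j _ => ?_
      match j with
      | Sum.inl e =>
        simp only [hh]
        by_cases he : e ∈ S
        · rw [if_pos he, if_pos (hc.1 e he)]
        · rw [if_neg he]
      | Sum.inr w =>
        simp only [hh]
        rw [if_pos (hc.2 w)]
    · rw [if_neg hc]
      rw [hcond, not_and_or] at hc
      symm
      rcases hc with hc | hc
      · push Not at hc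
        obtain ⟨e, he, hne⟩ := hc
        refine Finset.prod_eq_zero (Finset.mem_univ (Sum.inl e)) ?_
        simp only [hh]
        rw [if_pos he, if_neg hne]
      · rw [not_forall] at hc
        obtain ⟨w, hw⟩ := hc
        refine Finset.prod_eq_zero (Finset.mem_univ (Sum.inr w)) ?_
        simp only [hh]
        rw [if_neg hw]
  have h0 : Pr n p (fun G => Twin G I u v ∧ Twin G I' u' v') =
      EB p (fun ω : Sym2 (Fin n) → Bool => ∏ j, hh j ω) := by
    rw [Pr_eq_EB, ← hfun]
    congr 1
    funext ω
    congr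
  rw [h0, hblk, Fintype.prod_sum_type]
  congr 1
  · -- single edges
    have h1 : ∀ e : Sym2 (Fin n), EB p (hh (Sum.inl e)) = if e ∈ S then (1 - p) else 1 := by
      intro e
      by_cases he : e ∈ S
      · rw [if_pos he]
        have h2 : hh (Sum.inl e) = fun ω : Sym2 (Fin n) → Bool =>
            if ω e = false then (1 : ℝ) else 0 := by
          funext ω
          simp only [hh]
          rw [if_pos he]
        rw [h2]
        exact EB_single p e
      · rw [if_neg he]
        have h2 : hh (Sum.inl e) = fun _ : Sym2 (Fin n) → Bool => (1 : ℝ) := by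
          funext ω
          simp [hh, he]
        rw [h2]
        exact Pool.Agent.W839.Ch.EB_one p
    rw [Finset.prod_congr rfl (fun e _ => h1 e), Finset.prod_ite]
    simp only [Finset.prod_const, one_pow, mul_one]
    congr 1
    have h3 : (univ.filter (fun e : Sym2 (Fin n) => e ∈ S)) = S := by
      ext e; simp
    rw [h3, hS, Finset.card_union_of_disjoint]
    rw [Finset.disjoint_left]
    intro e he he2
    have hxe : ∀ x, x ∈ U → ∀ y, s(x, y) ∉ Ed I ∪ Ed I' := by
      intro x hx y hmem
      rw [Finset.mem_union, mem_Ed, mem_Ed] at hmem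
      rcases hmem with h | h
      · exact hVu x (hI h.1) x hx rfl
      · exact hVu x (hI' h.1) x hx rfl
    rw [Finset.mem_insert, Finset.mem_singleton] at he2
    rcases he2 with rfl | rfl
    · exact hxe u hu v he
    · exact hxe u' hu' v' he
  · -- rows
    set s : ℝ := p ^ 2 + (1 - p) ^ 2 with hs
    have hne2 : ∀ w ∈ V, ∀ x ∈ U ∪ U', ∀ y ∈ U ∪ U', x ≠ y → s(w, x) ≠ s(w, y) := by
      intro w hw x hx y hy hxy h
      rw [Sym2.eq_iff] at h
      rcases h with h | h
      · exact hxy h.2
      · rcases Finset.mem_union.1 hy with h4 | h4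
        · exact hVu w hw y h4 h.1
        · exact hVv w hw y h4 h.1
    have hmu : u ∈ U ∪ U' := Finset.mem_union_left _ hu
    have hmv : v ∈ U ∪ U' := Finset.mem_union_right _ hv
    have hmu' : u' ∈ U ∪ U' := Finset.mem_union_left _ hu'
    have hmv' : v' ∈ U ∪ U' := Finset.mem_union_right _ hv'
    have huv : u ≠ v := hUv u hu v hv
    have huv' : u' ≠ v' := hUv u' hu' v' hv'
    have h1 : ∀ w : Fin n, EB p (hh (Sum.inr w)) =
        (if w ∈ (I \ I') then s else 1) * (if w ∈ (I' \ I) then s else 1) *
          (if w ∈ I ∩ I' then tt p u v u' v' else 1) := by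
      intro w
      by_cases hwI : w ∈ I
      · by_cases hwI' : w ∈ I'
        · have hwV := hI hwI
          simp only [Finset.mem_sdiff, Finset.mem_inter, hwI, hwI', not_true, and_false, and_true,
            if_false, one_mul, if_true]
          unfold tt
          by_cases hc1 : u = u' ∧ v = v'
          · rw [if_pos hc1]
            obtain ⟨rfl, rfl⟩ := hc1
            rw [← EB_eq2 p (hne2 w hwV u hmu v hmv huv)]
            congr 1
            funext ω
            simp [hh, hwI, hwI']
          · rw [if_neg hc1]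
            by_cases hc2 : u = u' ∨ v = v'
            · rw [if_pos hc2]
              rcases hc2 with rfl | rfl
              · have hvv : v ≠ v' := fun h => hc1 ⟨rfl, h⟩
                rw [← EB_eq3 p (hne2 w hwV u hmu v hmv huv) (hne2 w hwV u hmu v' hmv' huv')
                  (hne2 w hwV v hmv v' hmv' hvv)]
                congr 1
                funext ω
                simp [hh, hwI, hwI']
              · have huu : u ≠ u' := fun h => hc1 ⟨h, rfl⟩
                rw [← EB_eq3 p (hne2 w hwV v hmv u hmu huv.symm)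
                  (hne2 w hwV v hmv u' hmu' huv'.symm)
                  (hne2 w hwV u hmu u' hmu' huu)]
                congr 1
                funext ω
                have hiff : ((w ∈ I → ω s(w, u) = ω s(w, v)) ∧ (w ∈ I' → ω s(w, u') = ω s(w, v))) ↔
                    (ω s(w, v) = ω s(w, u) ∧ ω s(w, v) = ω s(w, u')) := by
                  constructor
                  · rintro ⟨h1, h2⟩
                    exact ⟨(h1 hwI).symm, (h2 hwI').symm⟩
                  · rintro ⟨h1, h2⟩
                    exact ⟨fun _ => h1.symm, fun _ => h2.symm⟩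
                simp only [hh, hiff]
            · rw [if_neg hc2]
              push Not at hc2
              rw [← EB_eq4 p (hne2 w hwV u hmu v hmv huv) (hne2 w hwV u' hmu' v' hmv' huv')
                (hne2 w hwV u hmu u' hmu' hc2.1) (hne2 w hwV u hmu v' hmv' (hUv u hu v' hv'))
                (hne2 w hwV v hmv u' hmu' (hUv u' hu' v hv).symm) (hne2 w hwV v hmv v' hmv' hc2.2)]
              congr 1
              funext ω
              simp [hh, hwI, hwI']
        · have hwV := hI hwI
          simp only [Finset.mem_sdiff, Finset.mem_inter, hwI, hwI', not_false_eq_true, and_true,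
            if_true, mul_one, and_false, if_false, not_true, false_and]
          rw [hs, ← EB_eq2 p (hne2 w hwV u hmu v hmv huv)]
          congr 1
          funext ω
          simp [hh, hwI, hwI']
      · by_cases hwI' : w ∈ I'
        · have hwV := hI' hwI'
          simp only [Finset.mem_sdiff, Finset.mem_inter, hwI, hwI', not_false_eq_true, and_true,
            if_true, mul_one, one_mul, if_false, false_and]
          rw [hs, ← EB_eq2 p (hne2 w hwV u' hmu' v' hmv' huv')]
          congr 1
          funext ω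
          simp [hh, hwI, hwI']
        · simp only [Finset.mem_sdiff, Finset.mem_inter, hwI, hwI', false_and, if_false, mul_one]
          have h2 : hh (Sum.inr w) = fun _ : Sym2 (Fin n) → Bool => (1 : ℝ) := by
            funext ω
            simp [hh, hwI, hwI']
          rw [h2]
          exact Pool.Agent.W839.Ch.EB_one p
    rw [Finset.prod_congr rfl (fun e _ => h1 e), Finset.prod_mul_distrib, Finset.prod_mul_distrib]
    have h4 : ∀ (K : Finset (Fin n)) (c : ℝ), ∏ w : Fin n, (if w ∈ K then c else 1) = c ^ K.card := by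
      intro K c
      rw [Finset.prod_ite]
      simp
    rw [h4, h4, h4, pow_add]

end Pool.Agent.TH491.BC
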