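import Pool.Agent.TH491.BC2

set_option autoImplicit false
open Finset
open scoped Classical

namespace Pool.Agent.TH491.BC

open Pool.Agent.W839.Ch (EB bw gr wt Pr bit blk wt_nonneg Pr_nonneg Pr_mono Pr_exists_le Pr_add_not)

variable {n : ℕ}

theorem pr_indep (p : ℝ) (J : Finset (Fin n)) :
    Pr n p (fun G => ∀ x ∈ J, ∀ y ∈ J, ¬ G.Adj x y) = (1 - p) ^ (J.card.choose 2) := by
  rw [Pr_eq_EB]
  have h3 := EB_cyl p (Ed J) (fun _ => false)
  rw [Finset.prod_const, card_Ed] at h3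
  have h4 : bw p false = 1 - p := by simp [bw]
  rw [h4] at h3
  rw [← h3]
  congr 1
  funext ω
  have hE : (∀ x ∈ J, ∀ y ∈ J, ¬ (gr ω).Adj x y) ↔
      ∀ e ∈ Ed J, ω e = false := by
    constructor
    · intro h e he
      induction e with
      | _ x y =>
        rw [mem_Ed] at he
        have := h x he.1 y he.2.1
        simp only [gr, not_and, Bool.not_eq_true] at this
        exact this he.2.2
    · intro h x hx y hy hxy
      have h1 : s(x, y) ∈ Ed J := mem_Ed.2 ⟨hx, hy, hxy.1⟩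
      have h2 := h _ h1
      rw [hxy.2] at h2
      exact absurd h2 (by simp)
  by_cases h : ∀ e ∈ Ed J, ω e = false
  · rw [if_pos (hE.2 h), if_pos h]
  · rw [if_neg (fun h' => h (hE.1 h')), if_neg h]

/-- first moment bound for the independence number -/
theorem pr_alpha (p : ℝ) (hp0 : 0 ≤ p) (hp1 : p ≤ 1) (k : ℕ) :
    Pr n p (fun G => ∃ J ∈ (univ : Finset (Fin n)).powersetCard (k + 1),
      ∀ x ∈ J, ∀ y ∈ J, ¬ G.Adj x y) ≤ (n.choose (k + 1) : ℝ) * (1 - p) ^ ((k + 1).choose 2) := by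
  refine (Pr_exists_le hp0 hp1 _ _).trans ?_
  have h1 : ∀ J ∈ (univ : Finset (Fin n)).powersetCard (k + 1),
      Pr n p (fun G => ∀ x ∈ J, ∀ y ∈ J, ¬ G.Adj x y) = (1 - p) ^ ((k + 1).choose 2) := by
    intro J hJ
    rw [Finset.mem_powersetCard] at hJ
    rw [pr_indep, hJ.2]
  rw [Finset.sum_congr rfl h1, Finset.sum_const, Finset.card_powersetCard, Finset.card_univ,
    Fintype.card_fin, nsmul_eq_mul]

/-- the number of twin structures -/
noncomputable def XX (Q : Finset (Finset (Fin n) × (Fin n × Fin n))) (G : SimpleGraph (Fin n)) : ℝ :=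
  ∑ q ∈ Q, if Twin G q.1 q.2.1 q.2.2 then (1 : ℝ) else 0

theorem sum_XX (p : ℝ) (Q : Finset (Finset (Fin n) × (Fin n × Fin n))) :
    ∑ G : SimpleGraph (Fin n), wt n p G * XX Q G = ∑ q ∈ Q, Pr n p (fun G => Twin G q.1 q.2.1 q.2.2) := by
  unfold XX Pr
  simp_rw [Finset.mul_sum]
  rw [Finset.sum_comm]
  refine Finset.sum_congr rfl fun q _ => Finset.sum_congr rfl fun G _ => ?_
  split_ifs <;> simp

theorem sum_XX2 (p : ℝ) (Q : Finset (Finset (Fin n) × (Fin n × Fin n))) :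
    ∑ G : SimpleGraph (Fin n), wt n p G * XX Q G ^ 2 = ∑ q ∈ Q, ∑ q' ∈ Q,
      Pr n p (fun G => Twin G q.1 q.2.1 q.2.2 ∧ Twin G q'.1 q'.2.1 q'.2.2) := by
  unfold XX Pr
  simp_rw [sq, Finset.sum_mul_sum, Finset.mul_sum]
  rw [Finset.sum_comm]
  refine Finset.sum_congr rfl fun q _ => ?_
  rw [Finset.sum_comm]
  refine Finset.sum_congr rfl fun q' _ => Finset.sum_congr rfl fun G _ => ?_
  by_cases h1 : Twin G q.1 q.2.1 q.2.2 <;> by_cases h2 : Twin G q'.1 q'.2.1 q'.2.2 <;>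
    simp [h1, h2]

/-- Paley-Zygmund -/
theorem cs (p : ℝ) (hp0 : 0 ≤ p) (hp1 : p ≤ 1) (Q : Finset (Finset (Fin n) × (Fin n × Fin n))) :
    (∑ G : SimpleGraph (Fin n), wt n p G * XX Q G) ^ 2 ≤
      Pr n p (fun G => ∃ q ∈ Q, Twin G q.1 q.2.1 q.2.2) *
        ∑ G : SimpleGraph (Fin n), wt n p G * XX Q G ^ 2 := by
  unfold Pr
  refine Finset.sum_sq_le_sum_mul_sum_of_sq_le_mul _ ?_ ?_ ?_
  · intro G _
    split_ifs
    · exact wt_nonneg hp0 hp1 G
    · exact le_rfl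
  · intro G _
    exact mul_nonneg (wt_nonneg hp0 hp1 G) (sq_nonneg _)
  · intro G _
    by_cases h : ∃ q ∈ Q, Twin G q.1 q.2.1 q.2.2
    · rw [if_pos h]
      exact le_of_eq (by ring)
    · rw [if_neg h]
      have : XX Q G = 0 := by
        unfold XX
        refine Finset.sum_eq_zero fun q hq => ?_
        rw [if_neg]
        intro h2
        exact h ⟨q, hq, h2⟩
      rw [this]
      exact le_of_eq (by ring)

theorem ratio_pow (l : ℕ) (M : ℝ) :
    2 * M * ((35 / 125 : ℝ) / (13 / 25) ^ 2) ^ l ≤ M ^ 2 + (25 / 13 : ℝ) ^ l := by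
  have h1 : (((35 / 125 : ℝ) / (13 / 25) ^ 2) ^ l) ^ 2 ≤ (25 / 13 : ℝ) ^ l := by
    rw [← pow_mul, mul_comm, pow_mul]
    exact pow_le_pow_left₀ (by norm_num) (by norm_num) l
  nlinarith [sq_nonneg (M - ((35 / 125 : ℝ) / (13 / 25) ^ 2) ^ l)]

/-- normalised joint probability for `p = 2/5` -/
theorem pair_norm (V U U' : Finset (Fin n)) (hVU : Disjoint V U) (hVU' : Disjoint V U')
    (hUU' : Disjoint U U') (k : ℕ) (I I' : Finset (Fin n)) (hI : I ∈ V.powersetCard k)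
    (hI' : I' ∈ V.powersetCard k)
    (u u' v v' : Fin n) (hu : u ∈ U) (hu' : u' ∈ U) (hv : v ∈ U') (hv' : v' ∈ U') :
    Pr n (2 / 5) (fun G => Twin G I u v ∧ Twin G I' u' v') =
      ((3 / 5 : ℝ) ^ (k.choose 2 + 1) * (13 / 25 : ℝ) ^ k) ^ 2 *
      ((5 / 3 : ℝ) ^ ((I ∩ I').card.choose 2) *
        (if u = u' ∧ v = v' then (5 / 3 : ℝ) * (25 / 13 : ℝ) ^ (I ∩ I').card else
          if u = u' ∨ v = v' then ((35 / 125 : ℝ) / (13 / 25) ^ 2) ^ (I ∩ I').card else 1)) := by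
  rw [Finset.mem_powersetCard] at hI hI'
  rw [pr_pair (2 / 5) V U U' hVU hVU' hUU' I I' hI.1 hI'.1 u u' v v' hu hu' hv hv']
  have h1 := card_Ed_union I I'
  rw [hI.2, hI'.2] at h1
  have h2 : (I \ I').card + (I ∩ I').card = k := by
    rw [← hI.2, add_comm]
    exact Finset.card_inter_add_card_sdiff I I'
  have h3 : (I' \ I).card + (I ∩ I').card = k := by
    rw [← hI'.2, Finset.inter_comm, add_comm]
    exact Finset.card_inter_add_card_sdiff I' I
  set l := (I ∩ I').card with hl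
  have hs : (2 / 5 : ℝ) ^ 2 + (1 - 2 / 5) ^ 2 = 13 / 25 := by norm_num
  have hc : (2 / 5 : ℝ) ^ 3 + (1 - 2 / 5) ^ 3 = 35 / 125 := by norm_num
  have hq : (1 - 2 / 5 : ℝ) = 3 / 5 := by norm_num
  unfold tt
  rw [hs, hc, hq]
  -- the power of q
  have e1 : ∀ e : ℕ, (3 / 5 : ℝ) ^ ((Ed I ∪ Ed I').card + e) =
      ((3 / 5 : ℝ) ^ (k.choose 2)) ^ 2 * (5 / 3 : ℝ) ^ (l.choose 2) * (3 / 5 : ℝ) ^ e := by
    intro e
    rw [pow_add]
    congr 1
    have h4 : (3 / 5 : ℝ) ^ ((Ed I ∪ Ed I').card) * (3 / 5 : ℝ) ^ (l.choose 2) =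
        ((3 / 5 : ℝ) ^ (k.choose 2)) ^ 2 := by
      rw [← pow_add, h1, ← two_mul, mul_comm, pow_mul]
    have h5 : (3 / 5 : ℝ) ^ (l.choose 2) * (5 / 3 : ℝ) ^ (l.choose 2) = 1 := by
      rw [← mul_pow]
      norm_num
    calc (3 / 5 : ℝ) ^ ((Ed I ∪ Ed I').card) = (3 / 5 : ℝ) ^ ((Ed I ∪ Ed I').card) *
          ((3 / 5 : ℝ) ^ (l.choose 2) * (5 / 3 : ℝ) ^ (l.choose 2)) := by rw [h5, mul_one]
      _ = _ := by rw [← mul_assoc, h4]
  have e2 : ∀ t : ℝ, (13 / 25 : ℝ) ^ ((I \ I').card + (I' \ I).card) * t ^ l =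
      ((13 / 25 : ℝ) ^ k) ^ 2 * (t / (13 / 25) ^ 2) ^ l := by
    intro t
    have h4 : (13 / 25 : ℝ) ^ ((I \ I').card + (I' \ I).card) * ((13 / 25 : ℝ) ^ 2) ^ l =
        ((13 / 25 : ℝ) ^ k) ^ 2 := by
      rw [← pow_mul, ← pow_add, ← pow_mul]
      congr 1
      omega
    rw [← h4, mul_assoc, ← mul_pow, mul_div_cancel₀ t (by norm_num : ((13 / 25 : ℝ) ^ 2) ≠ 0)]
  rw [e1, e2]
  have huv : u ≠ v := fun h => by
    subst h
    exact (Finset.disjoint_left.1 hUU') hu hv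
  have huv2 : u ≠ v' := fun h => by
    subst h
    exact (Finset.disjoint_left.1 hUU') hu hv'
  by_cases hc1 : u = u' ∧ v = v'
  · rw [if_pos hc1, if_pos hc1]
    obtain ⟨rfl, rfl⟩ := hc1
    have : (({s(u, v), s(u, v)} : Finset (Sym2 (Fin n))).card) = 1 := by simp
    rw [this]
    have h6 : (13 / 25 : ℝ) / (13 / 25) ^ 2 = 25 / 13 := by norm_num
    rw [h6]
    ring
  · rw [if_neg hc1, if_neg hc1]
    have hne : s(u, v) ≠ s(u', v') := by
      intro h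
      rw [Sym2.eq_iff] at h
      rcases h with h | h
      · exact hc1 h
      · exact huv2 h.1
    rw [Finset.card_pair hne]
    by_cases hc2 : u = u' ∨ v = v'
    · rw [if_pos hc2, if_pos hc2]
      ring
    · rw [if_neg hc2, if_neg hc2]
      have h6 : ((13 / 25 : ℝ) ^ 2 / (13 / 25) ^ 2) = 1 := by norm_num
      rw [h6, one_pow]
      ring

/-- sum over the second pair of vertices -/
theorem sum_pairs (U U' : Finset (Fin n)) (M : ℕ) (hU : U.card = M) (hU' : U'.card = M) (l : ℕ)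
    (u v : Fin n) (hu : u ∈ U) (hv : v ∈ U') :
    ∑ x ∈ U ×ˢ U', (if u = x.1 ∧ v = x.2 then (5 / 3 : ℝ) * (25 / 13 : ℝ) ^ l else
          if u = x.1 ∨ v = x.2 then ((35 / 125 : ℝ) / (13 / 25) ^ 2) ^ l else 1) ≤
      2 * (M : ℝ) ^ 2 + 3 * (25 / 13 : ℝ) ^ l := by
  set A : ℝ := (5 / 3 : ℝ) * (25 / 13 : ℝ) ^ l with hA
  set R : ℝ := ((35 / 125 : ℝ) / (13 / 25) ^ 2) ^ l with hR
  have hA0 : 0 ≤ A := by positivity
  have hR0 : 0 ≤ R := by positivity
  have h1 : ∀ x : Fin n × Fin n, (if u = x.1 ∧ v = x.2 then A else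
          if u = x.1 ∨ v = x.2 then R else 1) ≤
      (if x = (u, v) then A else 0) + ((if x.1 = u then R else 0) + (if x.2 = v then R else 0)) + 1 := by
    intro x
    obtain ⟨x1, x2⟩ := x
    simp only [Prod.mk.injEq]
    by_cases h3 : u = x1
    · subst h3
      by_cases h4 : v = x2
      · subst h4
        simp
        linarith
      · have h4' : ¬ x2 = v := fun h => h4 h.symm
        simp [h4, h4']
    · have h3' : ¬ x1 = u := fun h => h3 h.symm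
      by_cases h4 : v = x2
      · subst h4
        simp [h3, h3']
      · have h4' : ¬ x2 = v := fun h => h4 h.symm
        simp [h3, h3', h4, h4']
  refine (Finset.sum_le_sum fun x _ => h1 x).trans ?_
  rw [Finset.sum_add_distrib, Finset.sum_add_distrib, Finset.sum_add_distrib]
  have e1 : ∑ x ∈ U ×ˢ U', (if x = (u, v) then A else 0) = A := by
    rw [Finset.sum_ite_eq' (U ×ˢ U') (u, v)]
    rw [if_pos (Finset.mem_product.2 ⟨hu, hv⟩)]
  have e2 : ∑ x ∈ U ×ˢ U', (if x.1 = u then R else 0) = M * R := by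
    rw [Finset.sum_product]
    have : ∀ a ∈ U, ∑ b ∈ U', (if (a, b).1 = u then R else 0) = if a = u then (M : ℝ) * R else 0 := by
      intro a _
      by_cases h : a = u
      · simp [h, hU']
      · simp [h]
    rw [Finset.sum_congr rfl this, Finset.sum_ite_eq' U u, if_pos hu]
  have e3 : ∑ x ∈ U ×ˢ U', (if x.2 = v then R else 0) = M * R := by
    rw [Finset.sum_product_right]
    have : ∀ b ∈ U', ∑ a ∈ U, (if (a, b).2 = v then R else 0) = if b = v then (M : ℝ) * R else 0 := by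
      intro b _
      by_cases h : b = v
      · simp [h, hU]
      · simp [h]
    rw [Finset.sum_congr rfl this, Finset.sum_ite_eq' U' v, if_pos hv]
  have e4 : ∑ _x ∈ U ×ˢ U', (1 : ℝ) = (M : ℝ) ^ 2 := by
    rw [Finset.sum_const, Finset.card_product, hU, hU']
    simp
    ring
  rw [e1, e2, e3, e4]
  have h5 := ratio_pow l M
  rw [← hR] at h5
  have h6 : A ≤ 2 * (25 / 13 : ℝ) ^ l := by
    rw [hA]
    have : (0 : ℝ) ≤ (25 / 13 : ℝ) ^ l := by positivity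
    linarith
  linarith

/-- the weighted count of pairs of `k`-sets -/
noncomputable def Wt (V : Finset (Fin n)) (k : ℕ) (w : ℝ) : ℝ :=
  ∑ I ∈ V.powersetCard k, ∑ I' ∈ V.powersetCard k,
    (5 / 3 : ℝ) ^ ((I ∩ I').card.choose 2) * w ^ (I ∩ I').card

theorem second_moment (V U U' : Finset (Fin n)) (hVU : Disjoint V U) (hVU' : Disjoint V U')
    (hUU' : Disjoint U U') (k M : ℕ) (hU : U.card = M) (hU' : U'.card = M) :
    ∑ G : SimpleGraph (Fin n), wt n (2 / 5) G * XX (V.powersetCard k ×ˢ (U ×ˢ U')) G ^ 2 ≤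
      ((3 / 5 : ℝ) ^ (k.choose 2 + 1) * (13 / 25 : ℝ) ^ k) ^ 2 * ((M : ℝ) ^ 2 *
        (2 * (M : ℝ) ^ 2 * Wt V k 1 + 3 * Wt V k (25 / 13))) := by
  rw [sum_XX2, Finset.sum_product]
  set a : ℝ := (3 / 5 : ℝ) ^ (k.choose 2 + 1) * (13 / 25 : ℝ) ^ k with ha
  have h1 : ∀ I ∈ V.powersetCard k, ∀ x ∈ U ×ˢ U',
      ∑ q' ∈ V.powersetCard k ×ˢ (U ×ˢ U'),
        Pr n (2 / 5) (fun G => Twin G (I, x).1 (I, x).2.1 (I, x).2.2 ∧
          Twin G q'.1 q'.2.1 q'.2.2) ≤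
      a ^ 2 * ∑ I' ∈ V.powersetCard k, (5 / 3 : ℝ) ^ ((I ∩ I').card.choose 2) *
        (2 * (M : ℝ) ^ 2 + 3 * (25 / 13 : ℝ) ^ (I ∩ I').card) := by
    intro I hI x hx
    rw [Finset.mem_product] at hx
    rw [Finset.sum_product, Finset.mul_sum]
    refine Finset.sum_le_sum fun I' hI' => ?_
    have h2 : ∀ y ∈ U ×ˢ U', Pr n (2 / 5) (fun G => Twin G (I, x).1 (I, x).2.1 (I, x).2.2 ∧
          Twin G (I', y).1 (I', y).2.1 (I', y).2.2) =
        a ^ 2 * ((5 / 3 : ℝ) ^ ((I ∩ I').card.choose 2) *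
        (if x.1 = y.1 ∧ x.2 = y.2 then (5 / 3 : ℝ) * (25 / 13 : ℝ) ^ (I ∩ I').card else
          if x.1 = y.1 ∨ x.2 = y.2 then ((35 / 125 : ℝ) / (13 / 25) ^ 2) ^ (I ∩ I').card else 1)) := by
      intro y hy
      rw [Finset.mem_product] at hy
      exact pair_norm V U U' hVU hVU' hUU' k I I' hI hI' x.1 y.1 x.2 y.2 hx.1 hy.1 hx.2 hy.2
    rw [Finset.sum_congr rfl h2, ← Finset.mul_sum, ← Finset.mul_sum]
    refine mul_le_mul_of_nonneg_left (mul_le_mul_of_nonneg_left ?_ (by positivity)) (by positivity)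
    exact sum_pairs U U' M hU hU' _ x.1 x.2 hx.1 hx.2
  calc ∑ I ∈ V.powersetCard k, ∑ x ∈ U ×ˢ U', ∑ q' ∈ V.powersetCard k ×ˢ (U ×ˢ U'),
        Pr n (2 / 5) (fun G => Twin G (I, x).1 (I, x).2.1 (I, x).2.2 ∧
          Twin G q'.1 q'.2.1 q'.2.2)
      ≤ ∑ I ∈ V.powersetCard k, ∑ _x ∈ U ×ˢ U', a ^ 2 * ∑ I' ∈ V.powersetCard k,
          (5 / 3 : ℝ) ^ ((I ∩ I').card.choose 2) *
        (2 * (M : ℝ) ^ 2 + 3 * (25 / 13 : ℝ) ^ (I ∩ I').card) :=
        Finset.sum_le_sum fun I hI => Finset.sum_le_sum fun x hx => h1 I hI x hx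
    _ = a ^ 2 * ((M : ℝ) ^ 2 * (2 * (M : ℝ) ^ 2 * Wt V k 1 + 3 * Wt V k (25 / 13))) := by
        simp only [Finset.sum_const, Finset.card_product, hU, hU', nsmul_eq_mul]
        unfold Wt
        rw [Finset.mul_sum, Finset.mul_sum, ← Finset.sum_add_distrib, Finset.mul_sum,
          Finset.mul_sum]
        refine Finset.sum_congr rfl fun I _ => ?_
        rw [Finset.mul_sum (a := 2 * (M : ℝ) ^ 2), Finset.mul_sum (a := (3 : ℝ)),
          ← Finset.sum_add_distrib]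
        push_cast
        have : ∀ I' ∈ V.powersetCard k, (5 / 3 : ℝ) ^ ((I ∩ I').card.choose 2) *
            (2 * (M : ℝ) ^ 2 + 3 * (25 / 13 : ℝ) ^ (I ∩ I').card) =
            2 * (M : ℝ) ^ 2 * ((5 / 3 : ℝ) ^ ((I ∩ I').card.choose 2) * 1 ^ (I ∩ I').card) +
            3 * ((5 / 3 : ℝ) ^ ((I ∩ I').card.choose 2) * (25 / 13 : ℝ) ^ (I ∩ I').card) := by
          intro I' _
          rw [one_pow]
          ring
        rw [Finset.sum_congr rfl this]
        ring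

theorem first_moment (V U U' : Finset (Fin n)) (hVU : Disjoint V U) (hVU' : Disjoint V U')
    (hUU' : Disjoint U U') (k M : ℕ) (hU : U.card = M) (hU' : U'.card = M) :
    ∑ G : SimpleGraph (Fin n), wt n (2 / 5) G * XX (V.powersetCard k ×ˢ (U ×ˢ U')) G =
      ((3 / 5 : ℝ) ^ (k.choose 2 + 1) * (13 / 25 : ℝ) ^ k) *
        ((V.card.choose k : ℝ) * (M : ℝ) ^ 2) := by
  rw [sum_XX]
  set a : ℝ := (3 / 5 : ℝ) ^ (k.choose 2 + 1) * (13 / 25 : ℝ) ^ k with ha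
  have h1 : ∀ q ∈ V.powersetCard k ×ˢ (U ×ˢ U'),
      Pr n (2 / 5) (fun G => Twin G q.1 q.2.1 q.2.2) = a := by
    intro q hq
    rw [Finset.mem_product, Finset.mem_product] at hq
    have h2 := pair_norm V U U' hVU hVU' hUU' k q.1 q.1 hq.1 hq.1 q.2.1 q.2.1 q.2.2 q.2.2
      hq.2.1 hq.2.1 hq.2.2 hq.2.2
    simp only [and_self, if_true, Finset.inter_self] at h2
    rw [(Finset.mem_powersetCard.1 hq.1).2] at h2
    rw [h2, ha]
    have h3 : (3 / 5 : ℝ) ^ (k.choose 2) * (5 / 3 : ℝ) ^ (k.choose 2) = 1 := by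
      rw [← mul_pow]; norm_num
    have h4 : (13 / 25 : ℝ) ^ k * (25 / 13 : ℝ) ^ k = 1 := by
      rw [← mul_pow]; norm_num
    rw [pow_succ]
    calc ((3 / 5 : ℝ) ^ (k.choose 2) * (3 / 5) * (13 / 25) ^ k) ^ 2 *
          ((5 / 3) ^ (k.choose 2) * (5 / 3 * (25 / 13) ^ k)) =
          ((3 / 5 : ℝ) ^ (k.choose 2) * (3 / 5) * (13 / 25) ^ k) *
          (((3 / 5 : ℝ) ^ (k.choose 2) * (5 / 3 : ℝ) ^ (k.choose 2)) *
            ((13 / 25 : ℝ) ^ k * (25 / 13 : ℝ) ^ k)) := by ring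
      _ = _ := by rw [h3, h4]; ring
  rw [Finset.sum_congr rfl h1, Finset.sum_const, Finset.card_product, Finset.card_product,
    Finset.card_powersetCard, hU, hU', nsmul_eq_mul]
  push_cast
  ring

end Pool.Agent.TH491.BC
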