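import Pool.Agent.TH491.BC3

set_option autoImplicit false
open Finset
open scoped Classical

namespace Pool.Agent.TH491.BC

variable {n : ℕ}

theorem card_inter_le (V I : Finset (Fin n)) (k l : ℕ) (hI : I ∈ V.powersetCard k) :
    ((V.powersetCard k).filter (fun I' => (I ∩ I').card = l)).card ≤
      k.choose l * (V.card - k).choose (k - l) := by
  rw [Finset.mem_powersetCard] at hI
  have h1 : ((V.powersetCard k).filter (fun I' => (I ∩ I').card = l)).card ≤
      (I.powersetCard l ×ˢ (V \ I).powersetCard (k - l)).card := by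
    refine Finset.card_le_card_of_injOn (fun I' => (I ∩ I', I' \ I)) ?_ ?_
    · intro I' h
      rw [Finset.mem_coe, Finset.mem_filter, Finset.mem_powersetCard] at h
      rw [Finset.mem_coe, Finset.mem_product, Finset.mem_powersetCard, Finset.mem_powersetCard]
      refine ⟨⟨Finset.inter_subset_left, h.2⟩, Finset.sdiff_subset_sdiff h.1.1 le_rfl, ?_⟩
      have h3 := Finset.card_inter_add_card_sdiff I' I
      rw [Finset.inter_comm, h.2, h.1.2] at h3
      change (I' \ I).card = k - l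
      omega
    · intro I1 _ I2 _ h
      simp only [Prod.mk.injEq] at h
      ext x
      have h3 : x ∈ I ∩ I1 ↔ x ∈ I ∩ I2 := by rw [h.1]
      have h4 : x ∈ I1 \ I ↔ x ∈ I2 \ I := by rw [h.2]
      simp only [Finset.mem_inter, Finset.mem_sdiff] at h3 h4
      tauto
  rw [Finset.card_product, Finset.card_powersetCard, Finset.card_powersetCard,
    Finset.card_sdiff_of_subset hI.1, hI.2] at h1
  exact h1

/-- the hypergeometric sum -/
noncomputable def TS (nv k : ℕ) (w : ℝ) : ℝ :=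
  ∑ l ∈ range (k + 1), ((k.choose l * (nv - k).choose (k - l) : ℕ) : ℝ) *
    ((5 / 3 : ℝ) ^ (l.choose 2) * w ^ l)

theorem Wt_le (V : Finset (Fin n)) (k : ℕ) (w : ℝ) (hw : 0 ≤ w) :
    Wt V k w ≤ (V.card.choose k : ℝ) * TS V.card k w := by
  unfold Wt
  have h1 : ∀ I ∈ V.powersetCard k, ∑ I' ∈ V.powersetCard k,
      (5 / 3 : ℝ) ^ ((I ∩ I').card.choose 2) * w ^ (I ∩ I').card ≤ TS V.card k w := by
    intro I hI
    rw [← Finset.sum_fiberwise_of_maps_to (s := V.powersetCard k) (t := range (k + 1))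
      (g := fun I' => (I ∩ I').card)]
    · unfold TS
      refine Finset.sum_le_sum fun l _ => ?_
      have h2 : ∀ I' ∈ (V.powersetCard k).filter (fun I' => (I ∩ I').card = l),
          (5 / 3 : ℝ) ^ ((I ∩ I').card.choose 2) * w ^ (I ∩ I').card =
          (5 / 3 : ℝ) ^ (l.choose 2) * w ^ l := by
        intro I' h
        rw [(Finset.mem_filter.1 h).2]
      rw [Finset.sum_congr rfl h2, Finset.sum_const, nsmul_eq_mul]
      refine mul_le_mul_of_nonneg_right ?_ (by positivity)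
      exact_mod_cast card_inter_le V I k l hI
    · intro I' _
      rw [Finset.mem_range]
      have : (I ∩ I').card ≤ I.card := Finset.card_le_card Finset.inter_subset_left
      rw [(Finset.mem_powersetCard.1 hI).2] at this
      omega
  refine (Finset.sum_le_sum h1).trans ?_
  rw [Finset.sum_const, Finset.card_powersetCard, nsmul_eq_mul]

theorem geo_le (θ : ℝ) (h0 : 0 ≤ θ) (h1 : θ ≤ 1 / 2) (m : ℕ) :
    ∑ l ∈ range m, θ ^ l ≤ 1 + 2 * θ := by
  have h2 : ∑ l ∈ range m, θ ^ l ≤ (1 - θ)⁻¹ := by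
    rw [← tsum_geometric_of_lt_one h0 (by linarith)]
    exact Summable.sum_le_tsum _ (fun i _ => by positivity)
      (summable_geometric_of_lt_one h0 (by linarith))
  refine h2.trans ?_
  rw [inv_le_iff_one_le_mul₀ (by linarith)]
  nlinarith

/-- first range -/
theorem termA (nv i l : ℕ) (w : ℝ) (hw : 0 ≤ w) (hi : 1 ≤ i) (hnv : 8 * i ≤ nv) (hl : l ≤ 2 * i) :
    ((((4 * i).choose l * (nv - 4 * i).choose (4 * i - l) : ℕ) : ℝ) *
      ((5 / 3 : ℝ) ^ (l.choose 2) * w ^ l)) ≤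
    (nv.choose (4 * i) : ℝ) * (2 * (4 * i : ℝ) ^ 2 * w * (5 / 3 : ℝ) ^ i / nv) ^ l := by
  set k := 4 * i with hk
  have hnv0 : (0 : ℝ) < nv := by
    have : 0 < nv := by omega
    exact_mod_cast this
  -- nat facts
  have f1 : (nv - k).choose (k - l) ≤ (nv - l).choose (k - l) :=
    Nat.choose_le_choose _ (by omega)
  have f2 : nv.choose k * k.choose l = nv.choose l * (nv - l).choose (k - l) :=
    Nat.choose_mul (by omega)
  have f3 : 0 < nv.choose l := Nat.choose_pos (by omega)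
  have f4 : k.choose l * l.factorial ≤ k ^ l := by
    rw [mul_comm, ← Nat.descFactorial_eq_factorial_mul_choose]
    exact Nat.descFactorial_le_pow k l
  have f5 : (nv + 1 - l) ^ l ≤ nv.choose l * l.factorial := by
    rw [mul_comm, ← Nat.descFactorial_eq_factorial_mul_choose]
    exact Nat.pow_sub_le_descFactorial nv l
  have f6 : 0 < l.factorial := Nat.factorial_pos _
  -- real versions
  have g5 : ((nv : ℝ) / 2) ^ l ≤ (nv.choose l : ℝ) * l.factorial := by
    have f5' : (((nv + 1 - l : ℕ) : ℝ)) ^ l ≤ (nv.choose l : ℝ) * l.factorial := by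
      exact_mod_cast f5
    refine le_trans ?_ f5'
    refine pow_le_pow_left₀ (by positivity) ?_ l
    have : nv ≤ 2 * (nv + 1 - l) := by omega
    have h2 : (nv : ℝ) ≤ 2 * ((nv + 1 - l : ℕ) : ℝ) := by exact_mod_cast this
    linarith
  have g4 : (k.choose l : ℝ) * l.factorial ≤ (k : ℝ) ^ l := by exact_mod_cast f4
  have g6 : (1 : ℝ) ≤ l.factorial := by exact_mod_cast f6
  have g3 : (0 : ℝ) < (nv.choose l : ℝ) := by exact_mod_cast f3
  have key : (k.choose l : ℝ) ^ 2 * ((nv : ℝ) / 2) ^ l ≤ ((k : ℝ) ^ 2) ^ l * (nv.choose l : ℝ) := by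
    have h1 : ((k.choose l : ℝ) * l.factorial) ^ 2 ≤ ((k : ℝ) ^ l) ^ 2 :=
      pow_le_pow_left₀ (by positivity) g4 2
    have h2 : ((k : ℝ) ^ l) ^ 2 = ((k : ℝ) ^ 2) ^ l := by rw [← pow_mul, ← pow_mul, mul_comm]
    have h3 : (k.choose l : ℝ) ^ 2 * l.factorial ≤ ((k : ℝ) ^ 2) ^ l := by
      rw [← h2]
      refine le_trans ?_ h1
      rw [mul_pow]
      refine mul_le_mul_of_nonneg_left ?_ (by positivity)
      nlinarith
    calc (k.choose l : ℝ) ^ 2 * ((nv : ℝ) / 2) ^ l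
        ≤ (k.choose l : ℝ) ^ 2 * ((nv.choose l : ℝ) * l.factorial) :=
          mul_le_mul_of_nonneg_left g5 (by positivity)
      _ = ((k.choose l : ℝ) ^ 2 * l.factorial) * (nv.choose l : ℝ) := by ring
      _ ≤ _ := mul_le_mul_of_nonneg_right h3 g3.le
  have key2 : ((k.choose l * (nv - k).choose (k - l) : ℕ) : ℝ) * ((nv : ℝ) / 2) ^ l ≤
      (nv.choose k : ℝ) * ((k : ℝ) ^ 2) ^ l := by
    have h1 : ((k.choose l * (nv - k).choose (k - l) : ℕ) : ℝ) * (nv.choose l : ℝ) ≤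
        (k.choose l : ℝ) ^ 2 * (nv.choose k : ℝ) := by
      have : k.choose l * (nv - k).choose (k - l) * nv.choose l ≤ (k.choose l) ^ 2 * nv.choose k := by
        calc k.choose l * (nv - k).choose (k - l) * nv.choose l
            ≤ k.choose l * (nv - l).choose (k - l) * nv.choose l := by gcongr
          _ = k.choose l * (nv.choose l * (nv - l).choose (k - l)) := by ring
          _ = (k.choose l) ^ 2 * nv.choose k := by rw [← f2]; ring
      exact_mod_cast this
    have h2 : (((k.choose l * (nv - k).choose (k - l) : ℕ) : ℝ) * ((nv : ℝ) / 2) ^ l) *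
        (nv.choose l : ℝ) ≤ ((nv.choose k : ℝ) * ((k : ℝ) ^ 2) ^ l) * (nv.choose l : ℝ) := by
      calc (((k.choose l * (nv - k).choose (k - l) : ℕ) : ℝ) * ((nv : ℝ) / 2) ^ l) *
            (nv.choose l : ℝ)
          = (((k.choose l * (nv - k).choose (k - l) : ℕ) : ℝ) * (nv.choose l : ℝ)) *
            ((nv : ℝ) / 2) ^ l := by ring
        _ ≤ ((k.choose l : ℝ) ^ 2 * (nv.choose k : ℝ)) * ((nv : ℝ) / 2) ^ l :=
            mul_le_mul_of_nonneg_right h1 (by positivity)
        _ = (nv.choose k : ℝ) * ((k.choose l : ℝ) ^ 2 * ((nv : ℝ) / 2) ^ l) := by ring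
        _ ≤ (nv.choose k : ℝ) * (((k : ℝ) ^ 2) ^ l * (nv.choose l : ℝ)) :=
            mul_le_mul_of_nonneg_left key (by positivity)
        _ = _ := by ring
    exact le_of_mul_le_mul_right h2 g3
  -- the power of 5/3
  have e1 : (5 / 3 : ℝ) ^ (l.choose 2) ≤ ((5 / 3 : ℝ) ^ i) ^ l := by
    rw [← pow_mul]
    refine pow_le_pow_right₀ (by norm_num) ?_
    rw [Nat.choose_two_right]
    refine Nat.div_le_of_le_mul ?_
    have : l - 1 ≤ 2 * i := by omega
    calc l * (l - 1) ≤ l * (2 * i) := Nat.mul_le_mul_left _ this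
      _ = 2 * (i * l) := by ring
  have hkr : ((k : ℕ) : ℝ) = 4 * (i : ℝ) := by rw [hk]; push_cast; ring
  calc (((k.choose l * (nv - k).choose (k - l) : ℕ) : ℝ) * ((5 / 3 : ℝ) ^ (l.choose 2) * w ^ l))
      ≤ (((k.choose l * (nv - k).choose (k - l) : ℕ) : ℝ) * (((5 / 3 : ℝ) ^ i) ^ l * w ^ l)) := by
        gcongr
    _ = ((((k.choose l * (nv - k).choose (k - l) : ℕ) : ℝ)) * ((nv : ℝ) / 2) ^ l) *
        ((2 / (nv : ℝ)) * (5 / 3 : ℝ) ^ i * w) ^ l := by
        have h0 : ((nv : ℝ) / 2) ^ l * (2 / (nv : ℝ)) ^ l = 1 := by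
          rw [← mul_pow]
          have : (nv : ℝ) / 2 * (2 / (nv : ℝ)) = 1 := by field_simp
          rw [this, one_pow]
        rw [mul_pow, mul_pow]
        calc _ = (((k.choose l * (nv - k).choose (k - l) : ℕ) : ℝ)) *
              (((5 / 3 : ℝ) ^ i) ^ l * w ^ l) * 1 := by ring
          _ = _ := by rw [← h0]; ring
    _ ≤ ((nv.choose k : ℝ) * ((k : ℝ) ^ 2) ^ l) * ((2 / (nv : ℝ)) * (5 / 3 : ℝ) ^ i * w) ^ l :=
        mul_le_mul_of_nonneg_right key2 (by positivity)
    _ = _ := by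
        rw [hkr, mul_assoc, ← mul_pow]
        congr 2
        ring

/-- second range -/
theorem termB (nv i t : ℕ) (w : ℝ) (hw : 1 ≤ w) (hi : 1 ≤ i) (hnv : 8 * i ≤ nv) (ht : t ≤ 2 * i) :
    ((((4 * i).choose (4 * i - t) * (nv - 4 * i).choose (4 * i - (4 * i - t)) : ℕ) : ℝ) *
      ((5 / 3 : ℝ) ^ ((4 * i - t).choose 2) * w ^ (4 * i - t))) ≤
    (w ^ (4 * i) * (5 / 3 : ℝ) ^ ((4 * i).choose 2)) *
      ((4 * i : ℝ) * nv * (3 / 5 : ℝ) ^ (3 * i - 1)) ^ t := by
  set k := 4 * i with hk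
  have h1 : k - (k - t) = t := by omega
  rw [h1]
  have f1 : k.choose (k - t) = k.choose t := Nat.choose_symm (by omega)
  rw [f1]
  have f2 : k.choose t ≤ k ^ t := Nat.choose_le_pow k t
  have f3 : (nv - k).choose t ≤ nv ^ t :=
    (Nat.choose_le_pow _ t).trans (Nat.pow_le_pow_left (by omega) t)
  have f4 : (k - t).choose 2 + t * (3 * i - 1) ≤ k.choose 2 := by
    rw [Nat.choose_two_right, Nat.choose_two_right]
    obtain ⟨i', rfl⟩ : ∃ i', i = i' + 1 := ⟨i - 1, by omega⟩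
    obtain ⟨d, hd⟩ : ∃ d, k - t = d + 1 := ⟨k - t - 1, by omega⟩
    rw [hd]
    have hk2 : k = d + 1 + t := by omega
    have h3 : 3 * (i' + 1) - 1 = 3 * i' + 2 := by omega
    rw [h3, Nat.add_sub_cancel]
    have h4 : k - 1 = d + t := by omega
    rw [h4]
    have h5 : t * (3 * i' + 2) = (2 * (t * (3 * i' + 2))) / 2 := by omega
    rw [h5, ← Nat.add_div_of_dvd_right]
    · refine Nat.div_le_div_right ?_
      rw [hk2]
      have h6 : 2 * (3 * i' + 2) ≤ 2 * d + t + 1 := by omega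
      have h7 : t * (2 * (3 * i' + 2)) ≤ t * (2 * d + t + 1) := Nat.mul_le_mul_left _ h6
      nlinarith
    · have : 2 ∣ (d + 1) * d := by
        rw [mul_comm]
        exact Nat.even_mul_succ_self d |>.two_dvd
      exact this
  have e1 : (5 / 3 : ℝ) ^ ((k - t).choose 2) ≤
      (5 / 3 : ℝ) ^ (k.choose 2) * ((3 / 5 : ℝ) ^ (3 * i - 1)) ^ t := by
    have h2 : (5 / 3 : ℝ) ^ ((k - t).choose 2 + t * (3 * i - 1)) ≤ (5 / 3 : ℝ) ^ (k.choose 2) :=
      pow_le_pow_right₀ (by norm_num) f4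
    have h3 : (5 / 3 : ℝ) ^ (t * (3 * i - 1)) * ((3 / 5 : ℝ) ^ (3 * i - 1)) ^ t = 1 := by
      rw [← pow_mul, mul_comm (3 * i - 1) t, ← mul_pow]
      norm_num
    calc (5 / 3 : ℝ) ^ ((k - t).choose 2) = (5 / 3 : ℝ) ^ ((k - t).choose 2) *
          ((5 / 3 : ℝ) ^ (t * (3 * i - 1)) * ((3 / 5 : ℝ) ^ (3 * i - 1)) ^ t) := by
          rw [h3, mul_one]
      _ = (5 / 3 : ℝ) ^ ((k - t).choose 2 + t * (3 * i - 1)) * ((3 / 5 : ℝ) ^ (3 * i - 1)) ^ t := by
          rw [pow_add]; ring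
      _ ≤ _ := mul_le_mul_of_nonneg_right h2 (by positivity)
  have e2 : w ^ (k - t) ≤ w ^ k := pow_le_pow_right₀ hw (by omega)
  have hkr : ((k : ℕ) : ℝ) = 4 * (i : ℝ) := by rw [hk]; push_cast; ring
  have hw0 : 0 ≤ w := by linarith
  calc (((k.choose t * (nv - k).choose t : ℕ) : ℝ) *
      ((5 / 3 : ℝ) ^ ((k - t).choose 2) * w ^ (k - t)))
      ≤ ((k : ℝ) ^ t * (nv : ℝ) ^ t) *
        (((5 / 3 : ℝ) ^ (k.choose 2) * ((3 / 5 : ℝ) ^ (3 * i - 1)) ^ t) * w ^ k) := by
        have h5 : ((k.choose t * (nv - k).choose t : ℕ) : ℝ) ≤ (k : ℝ) ^ t * (nv : ℝ) ^ t := by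
          exact_mod_cast Nat.mul_le_mul f2 f3
        gcongr
    _ = _ := by
        rw [hkr]
        simp only [mul_pow]
        ring

theorem TS_le (nv i : ℕ) (w : ℝ) (hw : 1 ≤ w) (hi : 1 ≤ i) (hnv : 8 * i ≤ nv)
    (hA : 2 * (4 * i : ℝ) ^ 2 * w * (5 / 3 : ℝ) ^ i / nv ≤ 1 / 16)
    (hB : (4 * i : ℝ) * nv * (3 / 5 : ℝ) ^ (3 * i - 1) ≤ 1 / 2) :
    TS nv (4 * i) w ≤ (nv.choose (4 * i) : ℝ) * (9 / 8) +
      2 * (w ^ (4 * i) * (5 / 3 : ℝ) ^ ((4 * i).choose 2)) := by
  unfold TS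
  set f : ℕ → ℝ := fun l => ((((4 * i).choose l * (nv - 4 * i).choose (4 * i - l) : ℕ) : ℝ) *
      ((5 / 3 : ℝ) ^ (l.choose 2) * w ^ l)) with hf
  have hw0 : 0 ≤ w := by linarith
  have hf0 : ∀ l, 0 ≤ f l := fun l => by rw [hf]; positivity
  have hsplit : ∑ l ∈ range (4 * i + 1), f l ≤
      ∑ l ∈ range (2 * i + 1), f l + ∑ t ∈ range (2 * i + 1), f (4 * i - t) := by
    have h1 : range (4 * i + 1) ⊆ range (2 * i + 1) ∪ (range (2 * i + 1)).image (fun t => 4 * i - t) := by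
      intro l hl
      rw [Finset.mem_range] at hl
      rw [Finset.mem_union, Finset.mem_range, Finset.mem_image]
      by_cases h : l < 2 * i + 1
      · exact Or.inl h
      · right
        refine ⟨4 * i - l, ?_, by omega⟩
        rw [Finset.mem_range]
        omega
    calc ∑ l ∈ range (4 * i + 1), f l
        ≤ ∑ l ∈ range (2 * i + 1) ∪ (range (2 * i + 1)).image (fun t => 4 * i - t), f l :=
          Finset.sum_le_sum_of_subset_of_nonneg h1 fun l _ _ => hf0 l
      _ ≤ ∑ l ∈ range (2 * i + 1), f l + ∑ l ∈ (range (2 * i + 1)).image (fun t => 4 * i - t), f l := by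
          rw [← Finset.sum_union_inter]
          have : 0 ≤ ∑ l ∈ range (2 * i + 1) ∩ (range (2 * i + 1)).image (fun t => 4 * i - t), f l :=
            Finset.sum_nonneg fun l _ => hf0 l
          linarith
      _ ≤ _ := by
          gcongr
          rw [Finset.sum_image]
          intro a ha b hb hab
          rw [Finset.mem_coe, Finset.mem_range] at ha hb
          simp only at hab
          omega
  refine hsplit.trans ?_
  have hA1 : ∑ l ∈ range (2 * i + 1), f l ≤ (nv.choose (4 * i) : ℝ) * (9 / 8) := by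
    calc ∑ l ∈ range (2 * i + 1), f l ≤ ∑ l ∈ range (2 * i + 1),
          (nv.choose (4 * i) : ℝ) * (2 * (4 * i : ℝ) ^ 2 * w * (5 / 3 : ℝ) ^ i / nv) ^ l :=
          Finset.sum_le_sum fun l hl => by
            rw [Finset.mem_range] at hl
            exact termA nv i l w hw0 hi hnv (by omega)
      _ = (nv.choose (4 * i) : ℝ) * ∑ l ∈ range (2 * i + 1),
          (2 * (4 * i : ℝ) ^ 2 * w * (5 / 3 : ℝ) ^ i / nv) ^ l := by rw [Finset.mul_sum]
      _ ≤ _ := by
          refine mul_le_mul_of_nonneg_left ?_ (by positivity)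
          refine (geo_le _ (by positivity) (by linarith) _).trans ?_
          linarith
  have hB1 : ∑ t ∈ range (2 * i + 1), f (4 * i - t) ≤
      2 * (w ^ (4 * i) * (5 / 3 : ℝ) ^ ((4 * i).choose 2)) := by
    calc ∑ t ∈ range (2 * i + 1), f (4 * i - t) ≤ ∑ t ∈ range (2 * i + 1),
          (w ^ (4 * i) * (5 / 3 : ℝ) ^ ((4 * i).choose 2)) *
            ((4 * i : ℝ) * nv * (3 / 5 : ℝ) ^ (3 * i - 1)) ^ t :=
          Finset.sum_le_sum fun t ht => by
            rw [Finset.mem_range] at ht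
            exact termB nv i t w hw hi hnv (by omega)
      _ = (w ^ (4 * i) * (5 / 3 : ℝ) ^ ((4 * i).choose 2)) * ∑ t ∈ range (2 * i + 1),
            ((4 * i : ℝ) * nv * (3 / 5 : ℝ) ^ (3 * i - 1)) ^ t := by rw [Finset.mul_sum]
      _ ≤ (w ^ (4 * i) * (5 / 3 : ℝ) ^ ((4 * i).choose 2)) * 2 := by
          refine mul_le_mul_of_nonneg_left ?_ (by positivity)
          refine (geo_le _ (by positivity) hB _).trans ?_
          linarith
      _ = _ := by ring
  linarith

end Pool.Agent.TH491.BC
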